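import Mathlib

/-!
# Functions on a set with an involution, half systems, and Sylow subgroups
-/

set_option autoImplicit false

namespace Pool.Agent.Lib.MP_021685_ag

open MulAction

/-- `Φ` contains exactly one element of each pair `{x, bar x}`. -/
def IsHalf {Ω : Type*} (bar : Ω → Ω) (Φ : Finset Ω) : Prop := ∀ x, x ∈ Φ ↔ bar x ∉ Φ

section half

variable {Ω : Type*} {bar : Ω → Ω}

theorem sum_half_even [DecidableEq Ω] {M : Type*} [AddCommMonoid M]
    (hbar : ∀ x, bar (bar x) = x) (f : Ω → M)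
    (hf : ∀ x, f (bar x) = f x) {Φ Ψ : Finset Ω} (hΦ : IsHalf bar Φ) (hΨ : IsHalf bar Ψ) :
    ∑ x ∈ Φ, f x = ∑ x ∈ Ψ, f x := by
  refine Finset.sum_bij' (fun x _ => if x ∈ Ψ then x else bar x)
    (fun x _ => if x ∈ Φ then x else bar x) ?_ ?_ ?_ ?_ ?_
  · intro x _
    by_cases h : x ∈ Ψ
    · simpa [h] using h
    · rw [if_neg h]
      by_contra h'
      exact h ((hΨ x).2 h')
  · intro x _
    by_cases h : x ∈ Φ
    · simpa [h] using h
    · rw [if_neg h]
      by_contra h'
      exact h ((hΦ x).2 h')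
  · intro x hx
    by_cases h : x ∈ Ψ
    · simp [h, hx]
    · simp only [if_neg h]
      rw [if_neg ((hΦ x).1 hx), hbar]
  · intro x hx
    by_cases h : x ∈ Φ
    · simp [h, hx]
    · simp only [if_neg h]
      rw [if_neg ((hΨ x).1 hx), hbar]
  · intro x _
    by_cases h : x ∈ Ψ
    · simp [h]
    · simp [h, hf]

theorem exists_half [Fintype Ω] (hbar : ∀ x, bar (bar x) = x) (hfix : ∀ x, bar x ≠ x) :
    ∃ Φ : Finset Ω, IsHalf bar Φ := by
  classical
  let e := Fintype.equivFin Ω
  refine ⟨Finset.univ.filter (fun x => e x < e (bar x)), fun x => ?_⟩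
  simp only [Finset.mem_filter, Finset.mem_univ, true_and, hbar, not_lt]
  refine ⟨fun h => h.le, fun h => lt_of_le_of_ne h fun h' => hfix x (e.injective h').symm⟩

theorem sum_univ_eq_half [Fintype Ω] [DecidableEq Ω] {M : Type*} [AddCommMonoid M]
    (hbar : ∀ x, bar (bar x) = x) (f : Ω → M) {Φ : Finset Ω} (hΦ : IsHalf bar Φ) :
    ∑ x, f x = ∑ x ∈ Φ, (f x + f (bar x)) := by
  rw [Finset.sum_add_distrib]
  have h1 : ∑ x ∈ Φ, f (bar x) = ∑ x ∈ Φᶜ, f x := by
    refine Finset.sum_nbij' bar bar ?_ ?_ ?_ ?_ ?_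
    · intro x hx
      rw [Finset.mem_compl]
      exact (hΦ x).1 hx
    · intro x hx
      rw [Finset.mem_compl] at hx
      by_contra h
      exact hx ((hΦ x).2 h)
    · intro x _; exact hbar x
    · intro x _; exact hbar x
    · intro x _; rfl
  rw [h1, Finset.sum_add_sum_compl]

end half

section sylow

variable {G X : Type*} [Group G] [Finite G] [Finite X] [MulAction G X] [IsPretransitive G X]

/-- The `p`-part of the cardinality of a transitive set divides the size of the orbits of a Sylow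
subgroup. -/
theorem pow_dvd_card_sylow_orbit {p m n : ℕ} [Fact p.Prime] (hm : m ≠ 0)
    (hX : Nat.card X = m * p ^ n) (P : Sylow p G) (x₀ : X) :
    p ^ n ∣ Nat.card (orbit P x₀) := by
  have hp : p.Prime := Fact.out
  have h1 : Nat.card X * Nat.card (stabilizer G x₀) = Nat.card G := by
    have := MulAction.index_stabilizer_of_transitive G x₀
    rw [← this, mul_comm]
    exact Subgroup.card_mul_index _
  have h2 : Nat.card (orbit P x₀) * Nat.card (stabilizer P x₀) = Nat.card P := by
    have := MulAction.index_stabilizer P x₀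
    rw [← Nat.card_coe_set_eq] at this
    rw [← this, mul_comm]
    exact Subgroup.card_mul_index _
  obtain ⟨r, hr⟩ := (IsPGroup.iff_card).mp P.2
  obtain ⟨a, ha, ha2⟩ := (Nat.dvd_prime_pow hp).mp (Dvd.intro _ (h2.trans hr))
  obtain ⟨s, hs, hs2⟩ := (Nat.dvd_prime_pow hp).mp (Dvd.intro_left _ (h2.trans hr))
  have h3 : p ^ s ∣ Nat.card (stabilizer G x₀) := by
    rw [← hs2]
    let f : stabilizer P x₀ →* stabilizer G x₀ :=
      { toFun := fun q => ⟨(q : P), q.2⟩
        map_one' := rfl
        map_mul' := fun _ _ => rfl }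
    have h4 : Function.Injective f := by
      intro q q' h
      apply Subtype.ext
      apply Subtype.ext
      exact congrArg (fun z : stabilizer G x₀ => (z : G)) h
    exact Subgroup.card_dvd_of_injective f h4
  have hr' : r = (Nat.card G).factorization p := by
    have := P.card_eq_multiplicity
    rw [hr] at this
    exact Nat.pow_right_injective hp.two_le this
  have hS : Nat.card (stabilizer G x₀) ≠ 0 := Nat.card_pos.ne'
  have h5 : n + (Nat.card (stabilizer G x₀)).factorization p ≤ (Nat.card G).factorization p := by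
    have hpn : p ^ n ≠ 0 := pow_ne_zero _ hp.ne_zero
    rw [← h1, hX, Nat.factorization_mul (mul_ne_zero hm hpn) hS, Nat.factorization_mul hm hpn]
    simp only [Finsupp.add_apply]
    rw [hp.factorization_pow, Finsupp.single_eq_same]
    omega
  have h6 : s ≤ (Nat.card (stabilizer G x₀)).factorization p :=
    (hp.pow_dvd_iff_le_factorization hS).mp h3
  have h7 : a + s = r := by
    have : p ^ (a + s) = p ^ r := by rw [pow_add, ← ha2, ← hs2, h2, hr]
    exact Nat.pow_right_injective hp.two_le this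
  rw [ha2]
  exact pow_dvd_pow p (by omega)

variable {bar : X → X}

/-- A Sylow subgroup is transitive on the pairs `{x, bar x}` when there are `p ^ k` of them. -/
theorem sylow_transitive_pairs {p k : ℕ} [Fact p.Prime] (hX : Nat.card X = 2 * p ^ k)
    (hbar : ∀ x, bar (bar x) = x) (hfix : ∀ x, bar x ≠ x)
    (hcomm : ∀ (g : G) (x : X), g • bar x = bar (g • x)) (P : Sylow p G) (x y : X) :
    ∃ σ : P, σ • x = y ∨ σ • x = bar y := by
  classical
  have : Fintype X := Fintype.ofFinite X
  have hp : p.Prime := Fact.out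
  have hne : Nonempty (orbit P x) := ⟨⟨x, mem_orbit_self x⟩⟩
  by_cases hp2 : p = 2
  · have h1 : p ^ (k + 1) ∣ Nat.card (orbit P x) :=
      pow_dvd_card_sylow_orbit one_ne_zero (by rw [hX, hp2, one_mul, pow_succ, mul_comm]) P x
    have h2 : Nat.card (orbit P x) = Nat.card X := by
      apply le_antisymm (Finite.card_subtype_le _)
      have h3 : p ^ (k + 1) ≤ Nat.card (orbit P x) := Nat.le_of_dvd Nat.card_pos h1
      rw [hX]
      calc 2 * p ^ k = p ^ (k + 1) := by rw [hp2, pow_succ, mul_comm]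
        _ ≤ _ := h3
    have h3 : orbit P x = Set.univ := by
      rw [← Set.toFinset_inj, Set.toFinset_univ]
      apply Finset.eq_univ_of_card
      rw [Set.toFinset_card, ← Nat.card_eq_fintype_card, ← Nat.card_eq_fintype_card]
      exact h2
    have h4 : y ∈ orbit P x := by rw [h3]; trivial
    obtain ⟨σ, hσ⟩ := h4
    exact ⟨σ, Or.inl hσ⟩
  · have hnot : bar x ∉ orbit P x := by
      rintro ⟨q, hq⟩
      change q • x = bar x at hq
      have hq2 : ∀ n : ℕ, (q ^ (2 * n) : P) • x = x := by
        intro n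
        rw [pow_mul]
        have h2 : (q ^ 2 : P) • x = x := by
          rw [pow_two, mul_smul, hq]
          change (q : G) • bar x = x
          rw [hcomm]
          change bar (q • x) = x
          rw [hq, hbar]
        induction n with
        | zero => simp
        | succ n ih => rw [pow_succ, mul_smul, h2, ih]
      obtain ⟨r, hr⟩ := P.2 q
      have hodd : Odd (p ^ r) := (hp.odd_of_ne_two hp2).pow
      obtain ⟨n, hn⟩ := hodd
      have h3 : q ^ (p ^ r) • x = bar x := by
        rw [hn, pow_succ', mul_smul, hq2, hq]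
      rw [hr, one_smul] at h3
      exact hfix x h3.symm
    have h1 : p ^ k ∣ Nat.card (orbit P x) :=
      pow_dvd_card_sylow_orbit two_ne_zero hX P x
    have h1' : p ^ k ≤ Nat.card (orbit P x) := Nat.le_of_dvd Nat.card_pos h1
    let A : Finset X := (orbit P x).toFinset
    let B : Finset X := A.image bar
    have hAB : Disjoint A B := by
      rw [Finset.disjoint_left]
      intro z hzA hzB
      rw [Finset.mem_image] at hzB
      obtain ⟨u, huA, hu⟩ := hzB
      rw [Set.mem_toFinset] at hzA huA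
      obtain ⟨σ, hσ⟩ := huA
      obtain ⟨τ, hτ⟩ := hzA
      apply hnot
      refine ⟨σ⁻¹ * τ, ?_⟩
      change (σ⁻¹ * τ) • x = bar x
      change τ • x = z at hτ
      change σ • x = u at hσ
      rw [mul_smul, hτ, ← hu, ← hσ]
      change ((σ⁻¹ : P) : G) • bar (σ • x) = bar x
      rw [hcomm]
      change bar (σ⁻¹ • σ • x) = bar x
      rw [inv_smul_smul]
    have hcardA : A.card = Nat.card (orbit P x) := by
      rw [Set.toFinset_card, Nat.card_eq_fintype_card]
    have hinj : Function.Injective bar := fun a b h => by rw [← hbar a, h, hbar]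
    have hcardB : B.card = A.card := Finset.card_image_of_injective _ hinj
    have huniv : A ∪ B = Finset.univ := by
      apply Finset.eq_univ_of_card
      apply le_antisymm (Finset.card_le_univ _)
      rw [Finset.card_union_of_disjoint hAB, hcardB, hcardA, ← Nat.card_eq_fintype_card, hX]
      omega
    have hy : y ∈ A ∪ B := by rw [huniv]; exact Finset.mem_univ _
    rcases Finset.mem_union.1 hy with h | h
    · rw [Set.mem_toFinset] at h
      obtain ⟨σ, hσ⟩ := h
      exact ⟨σ, Or.inl hσ⟩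
    · obtain ⟨u, hu, hu'⟩ := Finset.mem_image.1 h
      rw [Set.mem_toFinset] at hu
      obtain ⟨σ, hσ⟩ := hu
      exact ⟨σ, Or.inr (by rw [← hu', hbar]; exact hσ)⟩

end sylow

section main

variable {G Ω : Type*} [Group G] [Finite G] [Fintype Ω] [MulAction G Ω] [IsPretransitive G Ω]
  {bar : Ω → Ω}

/-- Relations modulo `r` do not exist. -/
theorem modp_no_relation [DecidableEq Ω] {r k : ℕ} [Fact r.Prime] (hΩ : Nat.card Ω = 2 * r ^ k)
    (hbar : ∀ x, bar (bar x) = x) (hfix : ∀ x, bar x ≠ x)
    (hcomm : ∀ (g : G) (x : Ω), g • bar x = bar (g • x)) (P : Sylow r G)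
    (E : Ω → ZMod r) (hE : ∀ x, E (bar x) = - E x)
    (hH : ∀ Φ : Finset Ω, IsHalf bar Φ → (r ≠ 2 → ∀ q : P, ∀ x ∈ Φ, q • x ∈ Φ) →
      ∑ x ∈ Φ, E x ≠ 0)
    {Φ₀ : Finset Ω} (hΦ₀ : IsHalf bar Φ₀) (c : Ω → ZMod r) (hc : ∀ x, c (bar x) = - c x)
    (hrel : ∀ q : P, ∑ x ∈ Φ₀, c x * E (q • x) = 0) : c = 0 := by
  have hr : r.Prime := Fact.out
  let N : Submodule (ZMod r) (Ω → ZMod r) :=
    { carrier := {c | (∀ x, c (bar x) = - c x) ∧ ∀ q : P, ∑ x ∈ Φ₀, c x * E (q • x) = 0}
      zero_mem' := ⟨by intro x; simp, by intro q; simp⟩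
      add_mem' := by
        intro a b ha hb
        refine ⟨fun x => ?_, fun q => ?_⟩
        · rw [Pi.add_apply, Pi.add_apply, ha.1, hb.1]; ring
        · simp only [Pi.add_apply, add_mul, Finset.sum_add_distrib]
          rw [ha.2 q, hb.2 q, add_zero]
      smul_mem' := by
        intro t a ha
        refine ⟨fun x => ?_, fun q => ?_⟩
        · rw [Pi.smul_apply, Pi.smul_apply, ha.1, smul_neg]
        · simp only [Pi.smul_apply, smul_eq_mul, mul_assoc]
          rw [← Finset.mul_sum, ha.2 q, mul_zero] }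
  by_contra hne
  have hcN : c ∈ N := ⟨hc, hrel⟩
  have hnt : Nontrivial N := ⟨⟨⟨c, hcN⟩, 0, fun h' => hne (congrArg Subtype.val h')⟩⟩
  have hdvd : r ∣ Nat.card N := by
    rw [Module.natCard_eq_pow_finrank (K := ZMod r), Nat.card_zmod]
    exact dvd_pow_self r (Module.finrank_pos).ne'
  -- the sum over a half system of a product of two odd functions
  have hsum : ∀ (a : Ω → ZMod r), (∀ x, a (bar x) = - a x) → ∀ (q : P) {Φ Ψ : Finset Ω},
      IsHalf bar Φ → IsHalf bar Ψ → ∑ x ∈ Φ, a x * E (q • x) = ∑ x ∈ Ψ, a x * E (q • x) := by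
    intro a ha q Φ Ψ hΦ hΨ
    apply sum_half_even hbar _ _ hΦ hΨ
    intro x
    change a (bar x) * E ((q : G) • bar x) = a x * E ((q : G) • x)
    rw [hcomm, hE, ha]; ring
  let act : MulAction P N :=
    { smul := fun q c => ⟨fun x => c.1 (q⁻¹ • x), by
        intro x
        change c.1 (((q⁻¹ : P) : G) • bar x) = - c.1 (((q⁻¹ : P) : G) • x)
        rw [hcomm, c.2.1], by
        intro q'
        have h1 := c.2.2 (q' * q)
        have h2 : IsHalf bar (Φ₀.image (fun x => q⁻¹ • x)) := by
          intro x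
          have h3 : ∀ y, y ∈ Φ₀.image (fun x => q⁻¹ • x) ↔ q • y ∈ Φ₀ := by
            intro y
            rw [Finset.mem_image]
            constructor
            · rintro ⟨z, hz, rfl⟩
              rwa [smul_inv_smul]
            · intro h
              exact ⟨q • y, h, inv_smul_smul q y⟩
          rw [h3, h3, hΦ₀ (q • x)]
          change bar ((q : G) • x) ∉ Φ₀ ↔ (q : G) • bar x ∉ Φ₀
          rw [hcomm]
        rw [hsum c.1 c.2.1 (q' * q) hΦ₀ h2, Finset.sum_image (by
          intro x _ y _ hxy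
          exact (MulAction.injective (q⁻¹ : P)) hxy)] at h1
        rw [← h1]
        refine Finset.sum_congr rfl fun x _ => ?_
        rw [mul_smul, smul_inv_smul]⟩
      one_smul := by
        intro c
        apply Subtype.ext
        funext x
        change c.1 ((1 : P)⁻¹ • x) = c.1 x
        rw [inv_one, one_smul]
      mul_smul := by
        intro q q' c
        apply Subtype.ext
        funext x
        change c.1 ((q * q')⁻¹ • x) = c.1 (q'⁻¹ • q⁻¹ • x)
        rw [mul_inv_rev, mul_smul] }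
  have hfix0 : (0 : N) ∈ fixedPoints P N := by
    intro q
    apply Subtype.ext
    rfl
  obtain ⟨b, hb, hb0⟩ := P.2.exists_fixed_point_of_prime_dvd_card_of_fixed_point N hdvd hfix0
  have hconst : ∀ (q : P) (x : Ω), b.1 (q • x) = b.1 x := by
    intro q x
    have h1 : (q⁻¹ • b : N) = b := hb q⁻¹
    have h2 := congrFun (congrArg Subtype.val h1) x
    change b.1 ((q⁻¹)⁻¹ • x) = b.1 x at h2
    rwa [inv_inv] at h2
  obtain ⟨x₀, hx₀⟩ : ∃ x₀, b.1 x₀ ≠ 0 := by
    by_contra hcon
    push Not at hcon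
    apply hb0
    apply Subtype.ext
    funext x
    exact (hcon x).symm
  set κ := b.1 x₀ with hκ
  have hval : ∀ y, b.1 y = κ ∨ b.1 y = - κ := by
    intro y
    obtain ⟨σ, hσ | hσ⟩ := sylow_transitive_pairs hΩ hbar hfix hcomm P x₀ y
    · left; rw [← hσ, hconst]
    · right
      rw [hκ, ← hconst σ x₀, hσ, b.2.1, neg_neg]
  have hfinal : ∀ Φ : Finset Ω, IsHalf bar Φ → (r ≠ 2 → ∀ q : P, ∀ x ∈ Φ, q • x ∈ Φ) →
      (∀ x ∈ Φ, b.1 x = κ) → False := by
    intro Φ hΦ hΦs hΦκ
    have h1 := b.2.2 1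
    rw [hsum b.1 b.2.1 1 hΦ₀ hΦ] at h1
    simp only [one_smul] at h1
    rw [Finset.sum_congr rfl (fun x hx => by rw [hΦκ x hx]), ← Finset.mul_sum] at h1
    exact hH Φ hΦ hΦs ((mul_eq_zero.1 h1).resolve_left hx₀)
  by_cases hr2 : r = 2
  · subst hr2
    apply hfinal Φ₀ hΦ₀ (fun h => absurd rfl h)
    intro x _
    rcases hval x with h | h
    · exact h
    · rw [h]
      exact ZMod.neg_eq_self_mod_two κ
  · have hκ2 : κ ≠ - κ := by
      intro h
      have h2 : (2 : ZMod r) * κ = 0 := by linear_combination h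
      have h5 : (2 : ZMod r) ≠ 0 := by
        intro h6
        have h7 : ((2 : ℕ) : ZMod r) = 0 := by exact_mod_cast h6
        rw [ZMod.natCast_eq_zero_iff] at h7
        exact hr2 ((Nat.prime_dvd_prime_iff_eq hr Nat.prime_two).mp h7)
      exact hx₀ ((mul_eq_zero.1 h2).resolve_left h5)
    apply hfinal (Finset.univ.filter fun x => b.1 x = κ)
    · intro x
      simp only [Finset.mem_filter, Finset.mem_univ, true_and]
      rw [b.2.1]
      rcases hval x with h | h
      · rw [h]
        exact ⟨fun _ h' => hκ2 h'.symm, fun _ => rfl⟩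
      · rw [h, neg_neg]
        exact ⟨fun h' => absurd h'.symm hκ2, fun h' => absurd rfl h'⟩
    · intro _ q x hx
      simp only [Finset.mem_filter, Finset.mem_univ, true_and] at hx ⊢
      rw [hconst, hx]
    · intro x hx
      exact (Finset.mem_filter.1 hx).2

/-- Relations are trivial. -/
theorem relation_trivial {r k : ℕ} [Fact r.Prime] (hΩ : Nat.card Ω = 2 * r ^ k)
    (hbar : ∀ x, bar (bar x) = x) (hfix : ∀ x, bar x ≠ x)
    (hcomm : ∀ (g : G) (x : Ω), g • bar x = bar (g • x)) (P : Sylow r G)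
    (E : Ω → ℤ) (hE : ∀ x, E (bar x) = - E x)
    (hH : ∀ Φ : Finset Ω, IsHalf bar Φ → (r ≠ 2 → ∀ q : P, ∀ x ∈ Φ, q • x ∈ Φ) →
      ¬ (r : ℤ) ∣ ∑ x ∈ Φ, E x)
    (d : Ω → ℤ) (hd : ∀ g : G, ∑ x, d x * E (g • x) = 0) (x : Ω) : d x = d (bar x) := by
  classical
  obtain ⟨Φ₀, hΦ₀⟩ := exists_half hbar hfix
  let b : Ω → ℤ := fun x => d x - d (bar x)
  have hb_odd : ∀ x, b (bar x) = - b x := by
    intro x
    simp only [b, hbar]; ring
  have hb : ∀ g : G, ∑ x ∈ Φ₀, b x * E (g • x) = 0 := by
    intro g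
    rw [← hd g, sum_univ_eq_half hbar _ hΦ₀]
    refine Finset.sum_congr rfl fun x _ => ?_
    rw [hcomm, hE]
    simp only [b]; ring
  have hb0 : ∀ x, b x = 0 := by
    by_contra hcon
    push Not at hcon
    obtain ⟨y, hy⟩ := hcon
    obtain ⟨c, hc1, hc2⟩ := Finset.extract_gcd (s := Finset.univ) b ⟨y, Finset.mem_univ y⟩
    have hd0 : Finset.univ.gcd b ≠ 0 := by
      intro h0
      exact hy (Finset.gcd_eq_zero_iff.mp h0 y (Finset.mem_univ y))
    have hc_odd : ∀ x, c (bar x) = - c x := by
      intro x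
      have h1 := hb_odd x
      rw [hc1 x (Finset.mem_univ x), hc1 (bar x) (Finset.mem_univ _), ← mul_neg] at h1
      exact mul_left_cancel₀ hd0 h1
    have hcrel : ∀ g : G, ∑ x ∈ Φ₀, c x * E (g • x) = 0 := by
      intro g
      have h2 := hb g
      have h3 : ∀ x, b x * E (g • x) = Finset.univ.gcd b * (c x * E (g • x)) := by
        intro x
        rw [hc1 x (Finset.mem_univ x)]; ring
      simp only [h3, ← Finset.mul_sum] at h2
      exact (mul_eq_zero.mp h2).resolve_left hd0
    have h6 : (fun x => (c x : ZMod r)) = 0 := by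
      apply modp_no_relation hΩ hbar hfix hcomm P (fun x => (E x : ZMod r)) (by
        intro x; simp only [hE]; push_cast; rfl) _ hΦ₀
      · intro x; simp only [hc_odd]; push_cast; rfl
      · intro q
        have h7 := congrArg (fun z : ℤ => (z : ZMod r)) (hcrel q)
        push_cast at h7
        exact h7
      · intro Φ hΦ hΦs h0
        apply hH Φ hΦ hΦs
        rw [← ZMod.intCast_zmod_eq_zero_iff_dvd]
        push_cast
        exact h0
    have h8 : (r : ℤ) ∣ Finset.univ.gcd c := by
      apply Finset.dvd_gcd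
      intro x _
      have h9 := congrFun h6 x
      exact (ZMod.intCast_zmod_eq_zero_iff_dvd _ _).mp h9
    rw [hc2] at h8
    have h11 : r ∣ 1 := by exact_mod_cast h8
    exact (Fact.out : r.Prime).one_lt.ne' (Nat.dvd_one.mp h11)
  have := hb0 x
  simp only [b] at this
  linarith

end main

end Pool.Agent.Lib.MP_021685_ag
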