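import Mathlib

/-!
# The slope of an algebraic number
-/

set_option autoImplicit false

namespace Pool.Agent.Lib.MP_021685_ag

/-- The value `w α` of the additive valuation `w` at `α`, as a rational number (junk value `0` at
`α = 0`). -/
noncomputable def slope {L : Type*} [Field L] (w : AddValuation L (WithTop ℚ)) (α : L) : ℚ :=
  (w α).untopD 0

end Pool.Agent.Lib.MP_021685_ag
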