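import Mathlib

/-!
# Eigenvectors in the exterior algebra, balanced products
-/

set_option autoImplicit false

open Polynomial

open scoped TensorProduct

namespace Pool.Agent.Lib.MP_021685_ag

section anticomm

variable {A : Type*} [Ring A]

theorem prod_mul_anticomm (l : List A) (b : A) (h : ∀ a ∈ l, a * b = - (b * a)) :
    l.prod * b = (-1) ^ l.length * (b * l.prod) := by
  induction l with
  | nil => simp
  | cons a t ih =>
    have h1 : a * b = - (b * a) := h a List.mem_cons_self
    have h2 : a * (-1 : A) ^ t.length = (-1) ^ t.length * a :=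
      ((Commute.neg_one_right a).pow_right _).eq
    rw [List.prod_cons, mul_assoc, ih (fun a ha => h a (List.mem_cons_of_mem _ ha)),
      List.length_cons, pow_succ, ← mul_assoc a, h2, mul_assoc, ← mul_assoc a b, h1]
    simp only [neg_mul, mul_neg, mul_one, mul_assoc]

variable {K Ω : Type*} [Field K] [Algebra K A] [DecidableEq Ω] {bar : Ω → Ω}

/-- A product of elements which come in pairs lies in the subalgebra generated by the pairs. -/
theorem balanced_prod_mem (hfix : ∀ x, bar x ≠ x) (hbar : ∀ x, bar (bar x) = x)
    (B : Subalgebra K A) (E : Ω → Set A)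
    (hanti : ∀ x y, ∀ a ∈ E x, ∀ b ∈ E y, a * b = - (b * a))
    (hB : ∀ x, ∀ a ∈ E x, ∀ b ∈ E (bar x), a * b ∈ B) (n : ℕ) :
    ∀ (l : List (A × Ω)), l.length = n → (∀ p ∈ l, p.1 ∈ E p.2) →
    (∀ x, (l.map Prod.snd).count x = (l.map Prod.snd).count (bar x)) →
    (l.map Prod.fst).prod ∈ B := by
  induction n using Nat.strong_induction_on with
  | _ n ih =>
    intro l hln hl hcount
    match l, hln, hl, hcount with
    | [], _, _, _ => simpa using B.one_mem
    | (a, x) :: t, hln, hl, hcount =>
      have h1 : bar x ∈ t.map Prod.snd := by
        have h2 := hcount x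
        rw [List.map_cons, List.count_cons_self, List.count_cons_of_ne (hfix x).symm] at h2
        apply List.count_pos_iff.1
        omega
      obtain ⟨⟨b, y⟩, hbt, hy⟩ := List.mem_map.1 h1
      change y = bar x at hy
      subst hy
      obtain ⟨t1, t2, rfl⟩ := List.append_of_mem hbt
      have ha : a ∈ E x := hl (a, x) List.mem_cons_self
      have hb : b ∈ E (bar x) := hl (b, bar x) (List.mem_cons_of_mem _ hbt)
      have h3 : ((t1 ++ t2).map Prod.fst).prod ∈ B := by
        refine ih (t1 ++ t2).length ?_ (t1 ++ t2) rfl ?_ ?_
        · rw [← hln]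
          simp only [List.length_cons, List.length_append]
          omega
        · intro p hp
          apply hl p
          rw [List.mem_append] at hp
          rw [List.mem_cons, List.mem_append, List.mem_cons]
          tauto
        · intro z
          have h4 := hcount z
          simp only [List.map_cons, List.map_append, List.count_cons, List.count_append] at h4 ⊢
          have e1 : (x == bar z) = (bar x == z) := by
            rw [Bool.eq_iff_iff, beq_iff_eq, beq_iff_eq]
            constructor
            · rintro rfl; exact hbar z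
            · rintro rfl; exact (hbar x).symm
          have e2 : (bar x == bar z) = (x == z) := by
            rw [Bool.eq_iff_iff, beq_iff_eq, beq_iff_eq]
            constructor
            · intro h; rw [← hbar x, h, hbar]
            · rintro rfl; rfl
          rw [e1, e2] at h4
          omega
      have h5 : (((a, x) :: (t1 ++ (b, bar x) :: t2)).map Prod.fst).prod =
          (-1) ^ (t1.map Prod.fst).length * (a * b * ((t1 ++ t2).map Prod.fst).prod) := by
        simp only [List.map_cons, List.map_append, List.prod_cons, List.prod_append]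
        rw [← mul_assoc ((t1.map Prod.fst).prod) b, prod_mul_anticomm (t1.map Prod.fst) b (by
          intro c hc
          obtain ⟨⟨c', z⟩, hcz, rfl⟩ := List.mem_map.1 hc
          exact hanti z (bar x) c' (hl (c', z) (by
            rw [List.mem_cons, List.mem_append]; tauto)) b hb)]
        have h2 : a * (-1 : A) ^ (t1.map Prod.fst).length = (-1) ^ (t1.map Prod.fst).length * a :=
          ((Commute.neg_one_right a).pow_right _).eq
        rw [mul_assoc, ← mul_assoc a, h2]
        simp only [mul_assoc]
      rw [h5]
      refine B.mul_mem (B.pow_mem (B.neg_mem B.one_mem) _) (B.mul_mem (hB x a ha b hb) h3)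

end anticomm

section eigen

variable {K V : Type*} [Field K] [AddCommGroup V] [Module K V]

theorem mem_span_eigen (T : Module.End K V) {I : Type*} (s : I → V) (μ : I → K)
    (hs : ∀ i, T (s i) = μ i • s i) (c : K) {x : V}
    (hx : x ∈ Submodule.span K (Set.range s)) (hTx : T x = c • x) :
    x ∈ Submodule.span K (s '' {i | μ i = c}) := by
  classical
  obtain ⟨f, hf⟩ := Finsupp.mem_span_range_iff_exists_finsupp.1 hx
  let Q : K[X] := ∏ m ∈ (f.support.image μ).erase c, (C ((c - m)⁻¹) * (X - C m))
  have hQc : Q.eval c = 1 := by
    simp only [Q, eval_prod, eval_mul, eval_C, eval_sub, eval_X]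
    apply Finset.prod_eq_one
    intro m hm
    have : c - m ≠ 0 := sub_ne_zero.2 (Finset.ne_of_mem_erase hm).symm
    exact inv_mul_cancel₀ this
  have hQm : ∀ i ∈ f.support, μ i ≠ c → Q.eval (μ i) = 0 := by
    intro i hi hic
    simp only [Q, eval_prod, eval_mul, eval_C, eval_sub, eval_X]
    apply Finset.prod_eq_zero (Finset.mem_erase.2 ⟨hic, Finset.mem_image_of_mem μ hi⟩)
    rw [sub_self, mul_zero]
  have haev : ∀ (v : V) (m : K), T v = m • v → aeval T Q v = Q.eval m • v := by
    intro v m hv
    exact Module.End.aeval_apply_of_mem_apply_eq_smul hv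
  have h1 : aeval T Q x = x := by rw [haev x c hTx, hQc, one_smul]
  rw [← h1, ← hf, Finsupp.sum, map_sum]
  apply Submodule.sum_mem
  intro i hi
  rw [map_smul, haev _ _ (hs i)]
  by_cases hic : μ i = c
  · apply Submodule.smul_mem
    apply Submodule.smul_mem
    exact Submodule.subset_span ⟨i, hic, rfl⟩
  · rw [hQm i hi hic, zero_smul, smul_zero]
    exact Submodule.zero_mem _

/-- An endomorphism killed by a split polynomial with distinct roots is diagonalisable. -/
theorem span_eigenvectors (F : Module.End K V) (P : K[X]) (hsplit : P.Splits)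
    (hsep : P.Separable) (hF : aeval F P = 0) (v : V) :
    v ∈ Submodule.span K {u : V | ∃ x ∈ P.roots, F u = x • u} := by
  classical
  have hP0 : P ≠ 0 := hsep.ne_zero
  set s : Finset K := P.roots.toFinset with hs
  have hnodup : P.roots.Nodup := nodup_roots hsep
  have hP : P = C P.leadingCoeff * ∏ x ∈ s, (X - C x) := by
    conv_lhs => rw [hsplit.eq_prod_roots]
    congr 1
    rw [Finset.prod_multiset_map_count]
    apply Finset.prod_congr rfl
    intro x hx
    rw [Multiset.count_eq_one_of_mem hnodup (Multiset.mem_toFinset.1 hx), pow_one]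
  have hnodal : aeval F (∏ x ∈ s, (X - C x)) = 0 := by
    rw [hP, map_mul, aeval_C] at hF
    have h1 : P.leadingCoeff ≠ 0 := leadingCoeff_ne_zero.2 hP0
    rw [← Algebra.smul_def] at hF
    exact (smul_eq_zero.1 hF).resolve_left h1
  by_cases hse : s.Nonempty
  · have h2 := Lagrange.sum_basis (s := s) (v := id) (Set.injOn_id _) hse
    have h3 := congrArg (fun p : K[X] => aeval F p v) h2
    simp only [map_one, Module.End.one_apply, map_sum, LinearMap.sum_apply] at h3
    rw [← h3]
    apply Submodule.sum_mem
    intro x hx
    apply Submodule.subset_span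
    refine ⟨x, Multiset.mem_toFinset.1 hx, ?_⟩
    have h4 : (X - C x) * Lagrange.basis s id x =
        C (Lagrange.nodalWeight s id x) * ∏ x ∈ s, (X - C x) := by
      rw [Lagrange.basis_eq_prod_sub_inv_mul_nodal_div hx, ← Lagrange.nodal_erase_eq_nodal_div hx]
      rw [mul_left_comm]
      congr 1
      exact (Lagrange.nodal_eq_mul_nodal_erase (v := id) hx).symm
    have h5 := congrArg (fun p : K[X] => aeval F p v) h4
    simp only [map_mul, hnodal, mul_zero, LinearMap.zero_apply, Module.End.mul_apply, map_sub,
      aeval_X, aeval_C, LinearMap.sub_apply, Module.algebraMap_end_apply] at h5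
    exact sub_eq_zero.1 h5
  · rw [Finset.not_nonempty_iff_eq_empty] at hse
    rw [hse, Finset.prod_empty, map_one] at hnodal
    have h6 : v = 0 := by
      have := congrArg (fun g : Module.End K V => g v) hnodal
      simpa using this
    rw [h6]
    exact Submodule.zero_mem _

end eigen

end Pool.Agent.Lib.MP_021685_ag
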