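import Pool.Agent.Lib.MP_021685_ag.FermatDefs

/-!
Basic facts on Stickelberger sums.
-/

namespace Pool.Agent.Lib.MP_021685_ag.Fermat

open Finset

/-- Signed Stickelberger sum with `T` terms. -/
def PT (p M T : ℕ) (a : ZMod M) : ℤ :=
  ∑ j ∈ range T, (2 * (((p : ZMod M) ^ j * a).val : ℤ) - M)

lemma PT_eq (p M : ℕ) (a : ZMod M) :
    PT p M (Nat.totient M) a = 2 * (S p M a : ℤ) - Nat.totient M * M := by
  unfold PT S
  rw [Finset.sum_sub_distrib, ← Finset.mul_sum]
  simp

lemma sum_PT_eq (p M : ℕ) (β : Multiset (ZMod M)) (g : ZMod M → ZMod M) :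
    (β.map (fun a => PT p M (Nat.totient M) (g a))).sum
      = 2 * ((β.map (fun a => S p M (g a))).sum : ℤ) - Nat.totient M * Multiset.card β * M := by
  induction β using Multiset.induction_on with
  | empty => simp
  | cons a s ih =>
    rw [Multiset.map_cons, Multiset.sum_cons, ih, PT_eq, Multiset.map_cons, Multiset.sum_cons,
      Multiset.card_cons]
    push_cast
    ring

lemma isBalanced_iff (p M : ℕ) (β : Multiset (ZMod M)) :
    IsBalanced p M β ↔ (0 : ZMod M) ∉ β ∧ Even (Multiset.card β) ∧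
      ∀ t : (ZMod M)ˣ, (β.map (fun a => PT p M (Nat.totient M) ((t : ZMod M) * a))).sum = 0 := by
  unfold IsBalanced
  refine and_congr_right fun _ => and_congr_right fun _ => forall_congr' fun t => ?_
  rw [sum_PT_eq p M β (fun a => (t : ZMod M) * a)]
  generalize (β.map (fun a => S p M ((t : ZMod M) * a))).sum = X
  constructor
  · intro h
    have : ((2 * X : ℕ) : ℤ) = ((Nat.totient M * Multiset.card β * M : ℕ) : ℤ) := by rw [h]
    push_cast at this
    linarith
  · intro h
    have : ((2 * X : ℕ) : ℤ) = ((Nat.totient M * Multiset.card β * M : ℕ) : ℤ) := by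
      push_cast
      linarith
    exact_mod_cast this

lemma PT_mul_p {p M T : ℕ} (hT : (p : ZMod M) ^ T = 1) (a : ZMod M) :
    PT p M T ((p : ZMod M) * a) = PT p M T a := by
  unfold PT
  set f : ℕ → ℤ := fun j => 2 * (((p : ZMod M) ^ j * a).val : ℤ) - M with hf
  have h1 : ∀ j, (2 * (((p : ZMod M) ^ j * ((p : ZMod M) * a)).val : ℤ) - M) = f (j + 1) := by
    intro j
    simp only [hf]
    rw [pow_succ, mul_assoc]
  simp only [h1]
  have h2 := Finset.sum_range_succ' f T
  have h3 := Finset.sum_range_succ f T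
  have h4 : f T = f 0 := by simp only [hf, hT, pow_zero]
  linarith

lemma PT_mul_p_pow {p M T : ℕ} (hT : (p : ZMod M) ^ T = 1) (i : ℕ) (a : ZMod M) :
    PT p M T ((p : ZMod M) ^ i * a) = PT p M T a := by
  induction i with
  | zero => simp
  | succ i ih => rw [pow_succ', mul_assoc, PT_mul_p hT, ih]

lemma val_neg' {M : ℕ} [NeZero M] {x : ZMod M} (hx : x ≠ 0) :
    ((-x).val : ℤ) = M - x.val := by
  have : NeZero x := ⟨hx⟩
  rw [ZMod.val_neg_of_ne_zero, Nat.cast_sub (ZMod.val_lt x).le]

lemma PT_neg {p M T : ℕ} [NeZero M] (hp : IsUnit (p : ZMod M)) {a : ZMod M} (ha : a ≠ 0) :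
    PT p M T (-a) = - PT p M T a := by
  unfold PT
  rw [← Finset.sum_neg_distrib]
  refine Finset.sum_congr rfl fun j _ => ?_
  have h : (p : ZMod M) ^ j * a ≠ 0 := by
    intro h
    exact ha ((hp.pow j).mul_left_cancel (by rw [h, mul_zero]))
  rw [mul_neg, val_neg' h]
  ring

lemma PT_mul {p M T : ℕ} (hT : (p : ZMod M) ^ T = 1) (k : ℕ) (a : ZMod M) :
    PT p M (k * T) a = k * PT p M T a := by
  induction k with
  | zero => simp [PT]
  | succ k ih =>
    have h1 : PT p M ((k + 1) * T) a = PT p M (k * T) a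
        + ∑ j ∈ range T, (2 * (((p : ZMod M) ^ (k * T + j) * a).val : ℤ) - M) := by
      unfold PT
      rw [Nat.succ_mul, Finset.sum_range_add]
    rw [h1, ih]
    have h2 : ∑ j ∈ range T, (2 * (((p : ZMod M) ^ (k * T + j) * a).val : ℤ) - M)
        = PT p M T a := by
      unfold PT
      refine Finset.sum_congr rfl fun j _ => ?_
      rw [pow_add, mul_comm k T, pow_mul, hT, one_pow, one_mul]
    rw [h2]
    push_cast
    ring

lemma pow_totient' {p M : ℕ} (h : Nat.Coprime p M) : (p : ZMod M) ^ Nat.totient M = 1 := by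
  have := congrArg Units.val (ZMod.pow_totient (ZMod.unitOfCoprime p h))
  rwa [Units.val_pow_eq_pow_val, ZMod.coe_unitOfCoprime, Units.val_one] at this

/-- `0 ≠ a` with `2 a = 0` has zero signed sum. -/
lemma PT_two_torsion {p M T : ℕ} [NeZero M] (hp : IsUnit (p : ZMod M)) {a : ZMod M} (ha : a ≠ 0)
    (h2 : 2 * a = 0) : PT p M T a = 0 := by
  have h1 : -a = a := by
    have : a + a = 0 := by rw [← two_mul]; exact h2
    exact neg_eq_of_add_eq_zero_left this
  have h3 := PT_neg (T := T) hp ha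
  rw [h1] at h3
  linarith

end Pool.Agent.Lib.MP_021685_ag.Fermat
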