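import Pool.Agent.Lib.MP_021685_ag.Fermat1

/-!
Distribution relation of Stickelberger sums; standard multisets are balanced.
-/

namespace Pool.Agent.Lib.MP_021685_ag.Fermat

open Finset

lemma sum_range_zmod {A : Type*} [AddCommMonoid A] (l : ℕ) [NeZero l] (f : ℕ → A) :
    ∑ i ∈ range l, f i = ∑ i : ZMod l, f i.val := by
  symm
  refine Finset.sum_nbij' (fun i => i.val) (fun j => (j : ZMod l)) ?_ ?_ ?_ ?_ ?_
  · intro i _
    exact Finset.mem_range.2 (ZMod.val_lt i)
  · intro j _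
    exact Finset.mem_univ _
  · intro i _
    exact ZMod.natCast_zmod_val i
  · intro j hj
    exact ZMod.val_cast_of_lt (Finset.mem_range.1 hj)
  · intro i _
    rfl

/-- The inclusion of `ZMod l` in `ZMod M` as the multiples of `M / l`. -/
def kap (M l : ℕ) (i : ZMod l) : ZMod M := ((i.val * (M / l) : ℕ) : ZMod M)

lemma kap_natCast {M l : ℕ} (hl : l ∣ M) (c : ℕ) :
    kap M l (c : ZMod l) = ((c * (M / l) : ℕ) : ZMod M) := by
  unfold kap
  rw [ZMod.val_natCast]
  conv_rhs => rw [← Nat.mod_add_div c l]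
  rw [add_mul]
  have h : l * (c / l) * (M / l) = (c / l) * M := by
    rw [mul_comm l, mul_assoc, Nat.mul_div_cancel' hl]
  rw [h]
  push_cast
  simp

lemma kap_add {M l : ℕ} [NeZero l] (hl : l ∣ M) (i j : ZMod l) :
    kap M l (i + j) = kap M l i + kap M l j := by
  have h : i + j = ((i.val + j.val : ℕ) : ZMod l) := by
    push_cast
    rw [ZMod.natCast_zmod_val, ZMod.natCast_zmod_val]
  rw [h, kap_natCast hl]
  unfold kap
  push_cast
  ring

lemma mul_kap {M l : ℕ} [NeZero M] [NeZero l] (hl : l ∣ M) (u : ZMod M) (i : ZMod l) :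
    u * kap M l i = kap M l ((u.val : ZMod l) * i) := by
  have h : (u.val : ZMod l) * i = ((u.val * i.val : ℕ) : ZMod l) := by
    push_cast
    rw [ZMod.natCast_zmod_val]
  rw [h, kap_natCast hl]
  unfold kap
  push_cast
  rw [ZMod.natCast_zmod_val]
  ring

lemma sum_unit_mul {M l : ℕ} [NeZero M] [NeZero l] (hl : l ∣ M) (u : (ZMod M)ˣ) (y : ZMod M)
    (F : ZMod M → ℤ) :
    ∑ i ∈ range l, F ((u : ZMod M) * (y + ((i * (M / l) : ℕ) : ZMod M)))
      = ∑ i ∈ range l, F ((u : ZMod M) * y + ((i * (M / l) : ℕ) : ZMod M)) := by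
  rw [sum_range_zmod l (fun i => F ((u : ZMod M) * (y + ((i * (M / l) : ℕ) : ZMod M)))),
    sum_range_zmod l (fun i => F ((u : ZMod M) * y + ((i * (M / l) : ℕ) : ZMod M)))]
  have hc : Nat.Coprime (u : ZMod M).val l :=
    Nat.Coprime.coprime_dvd_right hl (ZMod.val_coe_unit_coprime u)
  set v : (ZMod l)ˣ := ZMod.unitOfCoprime _ hc with hv
  have hv' : (v : ZMod l) = ((u : ZMod M).val : ZMod l) := by
    rw [hv, ZMod.coe_unitOfCoprime]
  have h1 : ∀ i : ZMod l, F ((u : ZMod M) * (y + ((i.val * (M / l) : ℕ) : ZMod M)))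
      = F ((u : ZMod M) * y + kap M l ((v : ZMod l) * i)) := by
    intro i
    rw [hv', ← mul_kap hl, mul_add]
    rfl
  simp only [h1]
  exact Equiv.sum_comp (Units.mulLeft v) (fun i => F ((u : ZMod M) * y + kap M l i))

lemma two_mul_sum_val (l : ℕ) [NeZero l] :
    2 * ∑ i : ZMod l, (i.val : ℤ) = l * (l - 1) := by
  rw [← sum_range_zmod l (fun i => (i : ℤ))]
  have h := Finset.sum_range_id_mul_two l
  have h2 : ((((∑ i ∈ range l, i) * 2 : ℕ)) : ℤ) = ((l * (l - 1) : ℕ) : ℤ) := by rw [h]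
  have hl : 1 ≤ l := Nat.one_le_iff_ne_zero.2 (NeZero.ne l)
  rw [Nat.cast_mul, Nat.cast_mul, Nat.cast_sub hl] at h2
  push_cast at h2
  linarith

lemma sum_val_fiber {M l : ℕ} [NeZero M] [NeZero l] (hl : l ∣ M) (y : ZMod M) :
    ∑ i ∈ range l, (2 * ((y + ((i * (M / l) : ℕ) : ZMod M)).val : ℤ) - M)
      = 2 * (((l : ZMod M) * y).val : ℤ) - M := by
  set d := M / l with hd
  have hM : l * d = M := Nat.mul_div_cancel' hl
  have hMpos : 0 < M := Nat.pos_of_ne_zero (NeZero.ne M)
  have hdpos : 0 < d := by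
    rcases Nat.eq_zero_or_pos d with h | h
    · rw [h, mul_zero] at hM; omega
    · exact h
  set r := y.val % d with hr
  set s := y.val / d with hs
  have hrs : y.val = r + s * d := by
    rw [hr, hs, mul_comm]
    exact (Nat.mod_add_div _ _).symm
  have hrd : r < d := Nat.mod_lt _ hdpos
  have hy : y = (r : ZMod M) + kap M l (s : ZMod l) := by
    rw [kap_natCast hl, ← hd]
    conv_lhs => rw [← ZMod.natCast_zmod_val y, hrs]
    push_cast
    ring
  have h1 : ∀ i : ZMod l, ((y + ((i.val * d : ℕ) : ZMod M)).val : ℤ)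
      = r + ((s : ZMod l) + i).val * d := by
    intro i
    have h2 : y + ((i.val * d : ℕ) : ZMod M)
        = ((r + ((s : ZMod l) + i).val * d : ℕ) : ZMod M) := by
      have h3 : ((i.val * d : ℕ) : ZMod M) = kap M l i := rfl
      rw [h3]
      conv_lhs => rw [hy]
      rw [add_assoc, ← kap_add hl]
      unfold kap
      push_cast
      ring
    rw [h2, ZMod.val_cast_of_lt]
    · push_cast
      ring
    · have h4 : ((s : ZMod l) + i).val < l := ZMod.val_lt _
      calc r + ((s : ZMod l) + i).val * d < d + ((s : ZMod l) + i).val * d := by omega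
        _ = (((s : ZMod l) + i).val + 1) * d := by ring
        _ ≤ l * d := Nat.mul_le_mul_right _ h4
        _ = M := hM
  rw [sum_range_zmod l (fun i => 2 * ((y + ((i * d : ℕ) : ZMod M)).val : ℤ) - M)]
  simp only [h1]
  have hshift : ∑ i : ZMod l, (2 * ((r : ℤ) + (((s : ZMod l) + i).val : ℤ) * d) - M)
      = ∑ i : ZMod l, (2 * ((r : ℤ) + (i.val : ℤ) * d) - M) :=
    Equiv.sum_comp (Equiv.addLeft (s : ZMod l))
      (fun i : ZMod l => (2 * ((r : ℤ) + (i.val : ℤ) * d) - (M : ℤ)))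
  rw [hshift]
  have h5 : ((l : ZMod M) * y).val = l * r := by
    have h6 : (l : ZMod M) * y = ((l * r : ℕ) : ZMod M) := by
      conv_lhs => rw [← ZMod.natCast_zmod_val y, hrs]
      have h7 : ((l * (s * d) : ℕ) : ZMod M) = 0 := by
        have : l * (s * d) = s * M := by rw [← hM]; ring
        rw [this]
        simp
      push_cast at h7 ⊢
      rw [mul_add, h7, add_zero]
    rw [h6, ZMod.val_cast_of_lt]
    calc l * r < l * d := Nat.mul_lt_mul_of_pos_left hrd (Nat.pos_of_ne_zero (NeZero.ne l))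
      _ = M := hM
  rw [h5]
  have h8 := two_mul_sum_val l
  have h9 : ∑ i : ZMod l, (2 * ((r : ℤ) + (i.val : ℤ) * d) - M)
      = l * (2 * r - M) + d * (2 * ∑ i : ZMod l, (i.val : ℤ)) := by
    rw [Finset.mul_sum, Finset.mul_sum]
    have : ∀ i : ZMod l, (2 * ((r : ℤ) + (i.val : ℤ) * d) - M)
        = (2 * r - M) + d * (2 * (i.val : ℤ)) := by intro i; ring
    simp only [this]
    rw [Finset.sum_add_distrib]
    simp [ZMod.card]
    ring
  rw [h9, h8]
  have hM' : (M : ℤ) = l * d := by exact_mod_cast hM.symm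
  rw [hM']
  push_cast
  ring

lemma sum_PT_fiber {p M T l : ℕ} [NeZero M] [NeZero l] (hp : IsUnit (p : ZMod M)) (hl : l ∣ M)
    (u : (ZMod M)ˣ) (y : ZMod M) :
    ∑ i ∈ range l, PT p M T ((u : ZMod M) * (y + ((i * (M / l) : ℕ) : ZMod M)))
      = PT p M T ((u : ZMod M) * ((l : ZMod M) * y)) := by
  unfold PT
  rw [Finset.sum_comm]
  refine Finset.sum_congr rfl fun j _ => ?_
  obtain ⟨q, hq⟩ := hp
  have h1 : ∀ x : ZMod M, (p : ZMod M) ^ j * ((u : ZMod M) * x)
      = ((q ^ j * u : (ZMod M)ˣ) : ZMod M) * x := by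
    intro x
    rw [Units.val_mul, Units.val_pow_eq_pow_val, hq]
    ring
  simp only [h1]
  rw [sum_unit_mul hl (q ^ j * u) y (fun x => 2 * (x.val : ℤ) - M), sum_val_fiber hl]
  congr 3
  congr 1
  ring

/-- Elements of a standard multiset. -/
lemma mem_std {M l : ℕ} {y x : ZMod M} :
    x ∈ std M l y ↔ (∃ i < l, y + ((i * (M / l) : ℕ) : ZMod M) = x) ∨ x = -((l : ZMod M) * y) := by
  unfold std
  simp [Multiset.mem_add, Multiset.mem_map]

lemma l_mul_fiber {M l : ℕ} (hl : l ∣ M) (y : ZMod M) (i : ℕ) :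
    (l : ZMod M) * (y + ((i * (M / l) : ℕ) : ZMod M)) = (l : ZMod M) * y := by
  have h : (l : ZMod M) * ((i * (M / l) : ℕ) : ZMod M) = 0 := by
    have h2 : l * (i * (M / l)) = i * M := by
      rw [mul_comm i, ← mul_assoc, Nat.mul_div_cancel' hl, mul_comm]
    have h3 : (l : ZMod M) * ((i * (M / l) : ℕ) : ZMod M) = ((l * (i * (M / l)) : ℕ) : ZMod M) := by
      push_cast
      ring
    rw [h3, h2]
    simp
  rw [mul_add, h, add_zero]

lemma std_balanced {p M l : ℕ} [NeZero M] [NeZero l] (hp : IsUnit (p : ZMod M)) (hl : l ∣ M)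
    (hodd : Odd l) {y : ZMod M} (hy : (l : ZMod M) * y ≠ 0) : IsBalanced p M (std M l y) := by
  rw [isBalanced_iff]
  refine ⟨?_, ?_, ?_⟩
  · intro h0
    rcases mem_std.1 h0 with ⟨i, _, hi⟩ | h
    · have := l_mul_fiber hl y i
      rw [hi, mul_zero] at this
      exact hy this.symm
    · exact hy (neg_eq_zero.1 h.symm)
  · unfold std
    rw [Multiset.card_add, Multiset.card_map, Multiset.card_range, Multiset.card_singleton]
    exact hodd.add_one
  · intro t
    unfold std
    rw [Multiset.map_add, Multiset.sum_add, Multiset.map_map, Multiset.map_singleton,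
      Multiset.sum_singleton]
    have h1 : ((Multiset.range l).map ((fun a => PT p M (Nat.totient M) ((t : ZMod M) * a)) ∘
        fun i => y + ((i * (M / l) : ℕ) : ZMod M))).sum
        = ∑ i ∈ range l, PT p M (Nat.totient M)
            ((t : ZMod M) * (y + ((i * (M / l) : ℕ) : ZMod M))) := rfl
    have h2 : (t : ZMod M) * ((l : ZMod M) * y) ≠ 0 := fun h =>
      hy (t.isUnit.mul_left_cancel (by rw [h, mul_zero]))
    rw [h1, sum_PT_fiber hp hl, mul_neg, PT_neg hp h2]
    ring

lemma std_sum {M l : ℕ} (hl : l ∣ M) (hodd : Odd l) (y : ZMod M) : (std M l y).sum = 0 := by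
  unfold std
  rw [Multiset.sum_add, Multiset.sum_singleton]
  have h1 : ((Multiset.range l).map (fun i => y + ((i * (M / l) : ℕ) : ZMod M))).sum
      = ∑ i ∈ range l, (y + ((i * (M / l) : ℕ) : ZMod M)) := rfl
  rw [h1, Finset.sum_add_distrib, Finset.sum_const, Finset.card_range]
  have h2 : ∑ i ∈ range l, ((i * (M / l) : ℕ) : ZMod M) = 0 := by
    obtain ⟨k, hk⟩ := hodd
    have h3 : ∑ i ∈ range l, ((i * (M / l) : ℕ) : ZMod M)
        = (((∑ i ∈ range l, i) * (M / l) : ℕ) : ZMod M) := by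
      push_cast
      rw [Finset.sum_mul]
    have h4 : (∑ i ∈ range l, i) = l * k := by
      have := Finset.sum_range_id_mul_two l
      have h5 : l * (l - 1) = l * k * 2 := by
        rw [hk]
        simp
        ring
      omega
    rw [h3, h4]
    have h6 : l * k * (M / l) = k * M := by
      rw [mul_comm l k, mul_assoc, Nat.mul_div_cancel' hl]
    rw [h6]
    simp
  rw [h2, nsmul_eq_mul]
  ring

/-- For `2 ∣ M` the element `M / 2` is `2`-torsion and nonzero. -/
lemma half_facts {M : ℕ} [NeZero M] (h2 : 2 ∣ M) :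
    2 * ((M / 2 : ℕ) : ZMod M) = 0 ∧ ((M / 2 : ℕ) : ZMod M) ≠ 0 := by
  have hM : 0 < M := Nat.pos_of_ne_zero (NeZero.ne M)
  constructor
  · have h : 2 * ((M / 2 : ℕ) : ZMod M) = ((2 * (M / 2) : ℕ) : ZMod M) := by push_cast; ring
    rw [h, Nat.mul_div_cancel' h2]
    simp
  · intro h
    rw [ZMod.natCast_eq_zero_iff] at h
    have h3 : 0 < M / 2 := Nat.div_pos (Nat.le_of_dvd hM h2) (by norm_num)
    have h4 := Nat.le_of_dvd h3 h
    have h5 : M / 2 < M := Nat.div_lt_self hM (by norm_num)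
    omega

lemma std2_balanced {p M : ℕ} [NeZero M] (hp : IsUnit (p : ZMod M)) (hl : 2 ∣ M)
    {y : ZMod M} (hy : 2 * y ≠ 0) : IsBalanced p M (std2 M y) := by
  obtain ⟨hh, hh0⟩ := half_facts hl
  rw [isBalanced_iff]
  refine ⟨?_, ?_, ?_⟩
  · intro h0
    unfold std2 at h0
    simp only [Multiset.insert_eq_cons, Multiset.mem_cons, Multiset.mem_singleton] at h0
    rcases h0 with h | h | h | h
    · exact hy (by rw [← h, mul_zero])
    · apply hy
      have : 2 * (y + ((M / 2 : ℕ) : ZMod M)) = 0 := by rw [← h, mul_zero]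
      rw [mul_add, hh, add_zero] at this
      exact this
    · exact hy (neg_eq_zero.1 h.symm)
    · exact hh0 h.symm
  · exact ⟨2, rfl⟩
  · intro t
    unfold std2
    simp only [Multiset.insert_eq_cons, Multiset.map_cons, Multiset.map_singleton,
      Multiset.sum_cons, Multiset.sum_singleton]
    have h1 := sum_PT_fiber (T := Nat.totient M) (l := 2) hp hl t y
    rw [Finset.sum_range_succ, Finset.sum_range_one] at h1
    simp only [zero_mul, one_mul, Nat.cast_zero, add_zero, Nat.cast_ofNat] at h1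
    have h2 : (t : ZMod M) * (2 * y) ≠ 0 := fun h =>
      hy (t.isUnit.mul_left_cancel (by rw [h, mul_zero]))
    have h3 : (t : ZMod M) * ((M / 2 : ℕ) : ZMod M) ≠ 0 := fun h =>
      hh0 (t.isUnit.mul_left_cancel (by rw [h, mul_zero]))
    have h4 : 2 * ((t : ZMod M) * ((M / 2 : ℕ) : ZMod M)) = 0 := by
      rw [mul_left_comm, hh, mul_zero]
    rw [mul_neg, PT_neg hp h2, PT_two_torsion hp h3 h4]
    linarith

lemma std2_sum {M : ℕ} [NeZero M] (hl : 2 ∣ M) (y : ZMod M) : (std2 M y).sum = 0 := by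
  obtain ⟨hh, _⟩ := half_facts hl
  unfold std2
  simp only [Multiset.insert_eq_cons, Multiset.sum_cons, Multiset.sum_singleton]
  have : y + (y + ((M / 2 : ℕ) : ZMod M) + (-(2 * y) + ((M / 2 : ℕ) : ZMod M)))
      = 2 * ((M / 2 : ℕ) : ZMod M) := by ring
  rw [this, hh]

end Pool.Agent.Lib.MP_021685_ag.Fermat
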