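import Pool.Agent.Lib.MP_021685_ag.Fermat2

/-!
The telescoping trick: in `ZMod (m (P - 1))`, `P = p ^ N ≡ 1 mod m`, the element `1` is conjugate
under Frobenius to `1 + u` for every multiple `u` of `P - 1`.
-/

namespace Pool.Agent.Lib.MP_021685_ag.Fermat

open Finset

/-! ### Equivalence of multisets modulo a set of multisets -/

/-- `x` and `y` differ by sums of members of `G`. -/
def Eqv {A : Type*} (G : Set (Multiset A)) (x y : Multiset A) : Prop :=
  ∃ C D : Multiset (Multiset A), (∀ β ∈ C, β ∈ G) ∧ (∀ β ∈ D, β ∈ G) ∧ x + C.sum = y + D.sum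

namespace Eqv

variable {A : Type*} {G : Set (Multiset A)} {x y z w : Multiset A}

lemma refl (G : Set (Multiset A)) (x : Multiset A) : Eqv G x x :=
  ⟨0, 0, by simp, by simp, rfl⟩

lemma symm (h : Eqv G x y) : Eqv G y x := by
  obtain ⟨C, D, hC, hD, h⟩ := h
  exact ⟨D, C, hD, hC, h.symm⟩

lemma add (h1 : Eqv G x y) (h2 : Eqv G z w) : Eqv G (x + z) (y + w) := by
  obtain ⟨C, D, hC, hD, h⟩ := h1
  obtain ⟨C', D', hC', hD', h'⟩ := h2
  refine ⟨C + C', D + D', ?_, ?_, ?_⟩
  · intro β hβ
    rcases Multiset.mem_add.1 hβ with hβ | hβ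
    · exact hC _ hβ
    · exact hC' _ hβ
  · intro β hβ
    rcases Multiset.mem_add.1 hβ with hβ | hβ
    · exact hD _ hβ
    · exact hD' _ hβ
  · rw [Multiset.sum_add, Multiset.sum_add, add_add_add_comm, h, h', add_add_add_comm]

lemma cancel (h : Eqv G (x + w) (y + w)) : Eqv G x y := by
  obtain ⟨C, D, hC, hD, h⟩ := h
  refine ⟨C, D, hC, hD, ?_⟩
  have h2 : x + C.sum + w = y + D.sum + w := by
    rw [add_right_comm x, add_right_comm y]
    exact h
  exact add_right_cancel h2

lemma trans (h1 : Eqv G x y) (h2 : Eqv G y z) : Eqv G x z := by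
  have h3 := h1.add h2
  rw [add_comm y z] at h3
  exact cancel h3

lemma of_mem (h : x ∈ G) : Eqv G x 0 :=
  ⟨0, {x}, by simp, by simpa using h, by simp⟩

lemma add_left (w : Multiset A) (h : Eqv G x y) : Eqv G (w + x) (w + y) := (refl G w).add h

lemma add_right (w : Multiset A) (h : Eqv G x y) : Eqv G (x + w) (y + w) := h.add (refl G w)

lemma mono {G' : Set (Multiset A)} (hG : G ⊆ G') (h : Eqv G x y) : Eqv G' x y := by
  obtain ⟨C, D, hC, hD, h⟩ := h
  exact ⟨C, D, fun β hβ => hG (hC β hβ), fun β hβ => hG (hD β hβ), h⟩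

end Eqv

/-! ### The inclusion `ZMod m → ZMod (m d)` -/

lemma incl_natCast (m d c : ℕ) : incl m d (c : ZMod m) = ((d * c : ℕ) : ZMod (m * d)) := by
  unfold incl
  rw [ZMod.val_natCast, ZMod.natCast_eq_natCast_iff, mul_comm m d]
  exact (Nat.mod_modEq c m).mul_left' d

lemma incl_add {m d : ℕ} [NeZero m] (a b : ZMod m) :
    incl m d (a + b) = incl m d a + incl m d b := by
  have h : a + b = ((a.val + b.val : ℕ) : ZMod m) := by
    push_cast
    rw [ZMod.natCast_zmod_val, ZMod.natCast_zmod_val]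
  rw [h, incl_natCast]
  unfold incl
  push_cast
  ring

lemma incl_zero (m d : ℕ) : incl m d 0 = 0 := by
  have := incl_natCast m d 0
  simpa using this

lemma incl_neg {m d : ℕ} [NeZero m] (a : ZMod m) : incl m d (-a) = - incl m d a := by
  have h := incl_add (d := d) a (-a)
  rw [add_neg_cancel, incl_zero] at h
  exact (neg_eq_of_add_eq_zero_right h.symm).symm

lemma incl_mul {m d : ℕ} [NeZero m] (t a : ZMod m) :
    incl m d (t * a) = ((t.val : ℕ) : ZMod (m * d)) * incl m d a := by
  have h : t * a = ((t.val * a.val : ℕ) : ZMod m) := by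
    push_cast
    rw [ZMod.natCast_zmod_val, ZMod.natCast_zmod_val]
  rw [h, incl_natCast]
  unfold incl
  push_cast
  ring

lemma incl_val {m d : ℕ} [NeZero m] (hd : 0 < d) (a : ZMod m) :
    (incl m d a).val = d * a.val := by
  unfold incl
  rw [ZMod.val_cast_of_lt]
  rw [mul_comm m d]
  exact Nat.mul_lt_mul_of_pos_left (ZMod.val_lt a) hd

lemma incl_eq_zero {m d : ℕ} [NeZero m] (hd : 0 < d) {a : ZMod m} (h : incl m d a = 0) :
    a = 0 := by
  have h1 := incl_val hd a
  rw [h, ZMod.val_zero] at h1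
  have h2 : a.val = 0 := by
    rcases Nat.mul_eq_zero.1 h1.symm with h | h
    · omega
    · exact h
  exact (ZMod.val_eq_zero a).1 h2

lemma mul_incl {m d : ℕ} [NeZero m] [NeZero d] (t : ZMod (m * d)) (a : ZMod m) :
    t * incl m d a = incl m d ((t.val : ZMod m) * a) := by
  have h : (t.val : ZMod m) * a = ((t.val * a.val : ℕ) : ZMod m) := by
    push_cast
    rw [ZMod.natCast_zmod_val]
  rw [h, incl_natCast]
  unfold incl
  push_cast
  rw [ZMod.natCast_zmod_val]
  ring

lemma exists_unit_incl {m d : ℕ} [NeZero m] [NeZero d] (t : (ZMod (m * d))ˣ) :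
    ∃ t' : (ZMod m)ˣ, ∀ a : ZMod m, (t : ZMod (m * d)) * incl m d a = incl m d ((t' : ZMod m) * a) := by
  have hc : Nat.Coprime (t : ZMod (m * d)).val m :=
    Nat.Coprime.coprime_dvd_right (dvd_mul_right m d) (ZMod.val_coe_unit_coprime t)
  refine ⟨ZMod.unitOfCoprime _ hc, fun a => ?_⟩
  rw [mul_incl, ZMod.coe_unitOfCoprime]

lemma natCast_mul_incl {m d : ℕ} [NeZero m] (c : ℕ) (a : ZMod m) :
    (c : ZMod (m * d)) * incl m d a = incl m d ((c : ZMod m) * a) := by
  have h : (c : ZMod m) * a = ((c * a.val : ℕ) : ZMod m) := by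
    push_cast
    rw [ZMod.natCast_zmod_val]
  rw [h, incl_natCast]
  unfold incl
  push_cast
  ring

lemma PT_incl {p m d T : ℕ} [NeZero m] (hd : 0 < d) (a : ZMod m) :
    PT p (m * d) T (incl m d a) = d * PT p m T a := by
  unfold PT
  rw [Finset.mul_sum]
  refine Finset.sum_congr rfl fun j _ => ?_
  have h : (p : ZMod (m * d)) ^ j * incl m d a = incl m d ((p : ZMod m) ^ j * a) := by
    have := natCast_mul_incl (d := d) (p ^ j) a
    push_cast at this
    exact this
  rw [h, incl_val hd]
  push_cast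
  ring

lemma balanced_incl {p m d : ℕ} [NeZero m] [NeZero d] (hp : Nat.Coprime p m)
    {γ : Multiset (ZMod m)} (hγ : IsBalanced p m γ) :
    IsBalanced p (m * d) (γ.map (incl m d)) := by
  have hd : 0 < d := Nat.pos_of_ne_zero (NeZero.ne d)
  rw [isBalanced_iff] at hγ ⊢
  obtain ⟨h0, hc, hs⟩ := hγ
  refine ⟨?_, by rwa [Multiset.card_map], ?_⟩
  · intro h
    obtain ⟨a, ha, ha0⟩ := Multiset.mem_map.1 h
    rw [incl_eq_zero hd ha0] at ha
    exact h0 ha
  · intro t
    obtain ⟨t', ht'⟩ := exists_unit_incl t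
    obtain ⟨k, hk⟩ : Nat.totient m ∣ Nat.totient (m * d) :=
      Nat.totient_dvd_of_dvd (dvd_mul_right m d)
    rw [Multiset.map_map]
    have h1 : ∀ a : ZMod m, ((fun a => PT p (m * d) (Nat.totient (m * d))
        ((t : ZMod (m * d)) * a)) ∘ incl m d) a
        = (d * k : ℤ) * PT p m (Nat.totient m) ((t' : ZMod m) * a) := by
      intro a
      simp only [Function.comp_apply]
      rw [ht' a, PT_incl hd, hk, mul_comm (Nat.totient m) k, PT_mul (pow_totient' hp)]
      ring
    rw [Multiset.map_congr rfl (fun a _ => h1 a), Multiset.sum_map_mul_left, hs t', mul_zero]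

/-! ### The translation trick -/

lemma pow_translate {m d P : ℕ} (hP : P = d + 1) (hm : m ∣ d) (c : ℕ) :
    (P : ZMod (m * d)) ^ c = 1 + ((d * c : ℕ) : ZMod (m * d)) := by
  have hdd : (d : ZMod (m * d)) * (d : ZMod (m * d)) = 0 := by
    obtain ⟨e, he⟩ := hm
    have : ((d * d : ℕ) : ZMod (m * d)) = 0 := by
      rw [ZMod.natCast_eq_zero_iff]
      refine ⟨e, ?_⟩
      nlinarith [he]
    push_cast at this
    exact this
  induction c with
  | zero => simp
  | succ c ih =>
    rw [pow_succ, ih, hP]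
    push_cast
    linear_combination (c : ZMod (m * d)) * hdd

lemma PT_translate {p m N T : ℕ} [NeZero m] (hp : 0 < p) (hm : m ∣ p ^ N - 1)
    (hT : (p : ZMod (m * (p ^ N - 1))) ^ T = 1)
    (t : ZMod (m * (p ^ N - 1))) (a : ZMod m) :
    PT p (m * (p ^ N - 1)) T (t * (1 + incl m (p ^ N - 1) a))
      = PT p (m * (p ^ N - 1)) T t := by
  have hP : p ^ N = (p ^ N - 1) + 1 := by
    have : 0 < p ^ N := Nat.pow_pos hp
    omega
  have h := pow_translate (m := m) hP hm a.val
  unfold incl
  rw [← h]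
  have h2 : t * ((p ^ N : ℕ) : ZMod (m * (p ^ N - 1))) ^ a.val
      = (p : ZMod (m * (p ^ N - 1))) ^ (N * a.val) * t := by
    push_cast
    rw [← pow_mul]
    ring
  rw [h2, PT_mul_p_pow hT]

lemma one_add_incl_ne_zero {m d : ℕ} (hd : 2 ≤ d) (a : ZMod m) : 1 + incl m d a ≠ 0 := by
  intro h
  unfold incl at h
  have h2 : ((1 + d * a.val : ℕ) : ZMod (m * d)) = 0 := by
    push_cast at h ⊢
    exact h
  rw [ZMod.natCast_eq_zero_iff] at h2
  have h3 : d ∣ 1 + d * a.val := (dvd_mul_left d m).trans h2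
  have h4 : d ∣ 1 := (Nat.dvd_add_left (dvd_mul_right d _)).1 h3
  have := Nat.le_of_dvd one_pos h4
  omega

/-- `{z, -z}` is a Tate character. -/
lemma pair_neg_good {p M : ℕ} [NeZero M] {Q : ℕ → Prop} (hp : IsUnit (p : ZMod M)) {z : ZMod M}
    (hz : z ≠ 0) : IsGood p M Q ({-z} + {z}) := by
  refine ⟨⟨?_, ?_⟩, Or.inl ?_⟩
  · rw [isBalanced_iff]
    refine ⟨?_, ?_, ?_⟩
    · intro h
      rcases Multiset.mem_add.1 h with h | h
      · exact hz (neg_eq_zero.1 (Multiset.mem_singleton.1 h).symm)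
      · exact hz (Multiset.mem_singleton.1 h).symm
    · rw [Multiset.card_add, Multiset.card_singleton, Multiset.card_singleton]
      exact ⟨1, rfl⟩
    · intro t
      rw [Multiset.map_add, Multiset.sum_add, Multiset.map_singleton, Multiset.map_singleton,
        Multiset.sum_singleton, Multiset.sum_singleton, mul_neg,
        PT_neg hp (fun h => hz (t.isUnit.mul_left_cancel (by rw [h, mul_zero])))]
      ring
  · rw [Multiset.sum_add, Multiset.sum_singleton, Multiset.sum_singleton]
    ring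
  · rw [Multiset.card_add, Multiset.card_singleton, Multiset.card_singleton]

/-- The telescoping step. -/
lemma pair_step {p m N : ℕ} [NeZero m] {Q : ℕ → Prop} (hp : p.Prime) (hpm : Nat.Coprime p m)
    (hN : 0 < N) (hm : m ∣ p ^ N - 1) (hd : 2 ≤ p ^ N - 1)
    {γ : Multiset (ZMod m)} (hγ : IsBalanced p m γ) (hc : Multiset.card γ = 2) (u : ZMod m) :
    Eqv {β | IsGood p (m * (p ^ N - 1)) Q β}
      (γ.map (incl m (p ^ N - 1)) + {1 + incl m (p ^ N - 1) u})
      {1 + incl m (p ^ N - 1) (u + γ.sum)} := by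
  set d := p ^ N - 1 with hddef
  have : NeZero d := ⟨by omega⟩
  have hpd : Nat.Coprime p d := by
    have h1 : p ^ N = d + 1 := by
      have : 0 < p ^ N := Nat.pow_pos hp.pos
      omega
    have h2 : Nat.Coprime (p ^ N) d := by
      rw [h1]
      exact (Nat.coprime_self_add_left).2 (Nat.coprime_one_left d)
    exact Nat.Coprime.coprime_dvd_left (dvd_pow_self p (by omega)) h2
  have hpM : Nat.Coprime p (m * d) := Nat.Coprime.mul_right hpm hpd
  have hpu : IsUnit (p : ZMod (m * d)) := (ZMod.isUnit_iff_coprime p (m * d)).2 hpM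
  have hT := pow_totient' hpM
  set x := 1 + incl m d u with hx
  set z := 1 + incl m d (u + γ.sum) with hz
  have hx0 : x ≠ 0 := one_add_incl_ne_zero hd u
  have hz0 : z ≠ 0 := one_add_incl_ne_zero hd _
  have hsum : ∀ δ : Multiset (ZMod m), (δ.map (incl m d)).sum = incl m d δ.sum := by
    intro δ
    induction δ using Multiset.induction_on with
    | empty => simp [incl_zero]
    | cons a s ih => rw [Multiset.map_cons, Multiset.sum_cons, Multiset.sum_cons, incl_add, ih]
  have hquad : IsGood p (m * d) Q (γ.map (incl m d) + {x} + {-z}) := by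
    have hb := balanced_incl (d := d) hpm hγ
    refine ⟨⟨?_, ?_⟩, Or.inr (Or.inl ?_)⟩
    · rw [isBalanced_iff] at hb ⊢
      obtain ⟨h0, _, hs⟩ := hb
      refine ⟨?_, ?_, ?_⟩
      · intro h
        rcases Multiset.mem_add.1 h with h | h
        · rcases Multiset.mem_add.1 h with h | h
          · exact h0 h
          · exact hx0 (Multiset.mem_singleton.1 h).symm
        · exact hz0 (neg_eq_zero.1 (Multiset.mem_singleton.1 h).symm)
      · rw [Multiset.card_add, Multiset.card_add, Multiset.card_map, hc, Multiset.card_singleton,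
          Multiset.card_singleton]
        exact ⟨2, rfl⟩
      · intro t
        rw [Multiset.map_add, Multiset.map_add, Multiset.sum_add, Multiset.sum_add, hs t,
          Multiset.map_singleton, Multiset.map_singleton, Multiset.sum_singleton,
          Multiset.sum_singleton, mul_neg,
          PT_neg hpu (fun h => hz0 (t.isUnit.mul_left_cancel (by rw [h, mul_zero]))), hx, hz,
          PT_translate hp.pos hm hT, PT_translate hp.pos hm hT]
        ring
    · rw [Multiset.sum_add, Multiset.sum_add, hsum, Multiset.sum_singleton,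
        Multiset.sum_singleton, hx, hz, incl_add]
      ring
    · rw [Multiset.card_add, Multiset.card_add, Multiset.card_map, hc, Multiset.card_singleton,
        Multiset.card_singleton]
  have h1 : Eqv {β | IsGood p (m * d) Q β} (γ.map (incl m d) + {x} + {-z} + {z}) (0 + {z}) :=
    (Eqv.of_mem (G := {β | IsGood p (m * d) Q β}) hquad).add_right {z}
  have h2 : Eqv {β | IsGood p (m * d) Q β} (γ.map (incl m d) + {x} + ({-z} + {z}))
      (γ.map (incl m d) + {x} + 0) :=
    (Eqv.of_mem (G := {β | IsGood p (m * d) Q β}) (pair_neg_good hpu hz0)).add_left _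
  rw [← add_assoc, add_zero] at h2
  rw [zero_add] at h1
  exact h2.symm.trans h1

lemma incl_std {m d l : ℕ} [NeZero m] (hl : l ∣ m) (y : ZMod m) :
    (std m l y).map (incl m d) = std (m * d) l (incl m d y) := by
  unfold std
  rw [Multiset.map_add, Multiset.map_map, Multiset.map_singleton, incl_neg,
    ← natCast_mul_incl]
  congr 1
  refine Multiset.map_congr rfl fun i _ => ?_
  simp only [Function.comp_apply]
  rw [incl_add, incl_natCast]
  have h : d * (i * (m / l)) = i * (m * d / l) := by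
    obtain ⟨e, he⟩ := hl
    rcases Nat.eq_zero_or_pos l with h0 | h0
    · rw [h0]
      simp
    · rw [he, Nat.mul_div_cancel_left _ h0, mul_assoc l e d, Nat.mul_div_cancel_left _ h0]
      ring
  rw [h]

lemma incl_std2 {m d : ℕ} [NeZero m] (hl : 2 ∣ m) (y : ZMod m) :
    (std2 m y).map (incl m d) = std2 (m * d) (incl m d y) := by
  have h1 : incl m d ((m / 2 : ℕ) : ZMod m) = ((m * d / 2 : ℕ) : ZMod (m * d)) := by
    rw [incl_natCast]
    obtain ⟨e, he⟩ := hl
    rw [he, Nat.mul_div_cancel_left _ (by norm_num), mul_assoc 2 e d,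
      Nat.mul_div_cancel_left _ (by norm_num), mul_comm d e]
  have h2 : incl m d (2 * y) = 2 * incl m d y := by
    have := natCast_mul_incl (d := d) 2 y
    push_cast at this
    exact this.symm
  unfold std2
  simp only [Multiset.insert_eq_cons, Multiset.map_cons, Multiset.map_singleton]
  rw [incl_add, incl_neg, h1, h2]

lemma elem_step {p m N : ℕ} [NeZero m] {Q : ℕ → Prop} (hp : p.Prime) (hpm : Nat.Coprime p m)
    (hN : 0 < N) (hm : m ∣ p ^ N - 1) (hd : 2 ≤ p ^ N - 1)
    {γ : Multiset (ZMod m)} (hγ : IsElem p m Q γ) (u : ZMod m) :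
    Eqv {β | IsGood p (m * (p ^ N - 1)) Q β}
      (γ.map (incl m (p ^ N - 1)) + {1 + incl m (p ^ N - 1) u})
      {1 + incl m (p ^ N - 1) (u + γ.sum)} := by
  have hpm' : IsUnit (p : ZMod m) := (ZMod.isUnit_iff_coprime p m).2 hpm
  have : NeZero (p ^ N - 1) := ⟨by omega⟩
  have hdp : 0 < p ^ N - 1 := by omega
  rcases hγ with ⟨hb, hc⟩ | ⟨l, y, hl, hl2, hlm, hQ, hy, rfl⟩ | ⟨y, h2, hy, rfl⟩
  · exact pair_step hp hpm hN hm hd hb hc u
  · have : NeZero l := ⟨hl.ne_zero⟩
    have hodd : Odd l := hl.odd_of_ne_two hl2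
    have hs : (std m l y).sum = 0 := std_sum hlm hodd y
    have hb := balanced_incl (d := p ^ N - 1) hpm (std_balanced hpm' hlm hodd hy)
    have hgood : IsGood p (m * (p ^ N - 1)) Q ((std m l y).map (incl m (p ^ N - 1))) := by
      refine ⟨⟨hb, ?_⟩, ?_⟩
      · rw [incl_std hlm]
        exact std_sum (hlm.mul_right _) hodd _
      · by_cases h3 : l = 3
        · refine Or.inr (Or.inl ?_)
          rw [Multiset.card_map]
          unfold std
          rw [Multiset.card_add, Multiset.card_map, Multiset.card_range, Multiset.card_singleton,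
            h3]
        · refine Or.inr (Or.inr ⟨l, incl m (p ^ N - 1) y, hl, ?_, hlm.mul_right _, hQ,
            incl_std hlm y⟩)
          have h4 := hl.two_le
          rcases hodd with ⟨k, hk⟩
          omega
    have h1 := (Eqv.of_mem (G := {β | IsGood p (m * (p ^ N - 1)) Q β}) hgood).add_right
      {1 + incl m (p ^ N - 1) u}
    rw [hs, add_zero]
    rwa [zero_add] at h1
  · have hs : (std2 m y).sum = 0 := std2_sum h2 y
    have hb := balanced_incl (d := p ^ N - 1) hpm (std2_balanced hpm' h2 hy)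
    have hgood : IsGood p (m * (p ^ N - 1)) Q ((std2 m y).map (incl m (p ^ N - 1))) := by
      refine ⟨⟨hb, ?_⟩, Or.inr (Or.inl ?_)⟩
      · rw [incl_std2 h2]
        exact std2_sum (h2.mul_right _) _
      · rw [Multiset.card_map]
        rfl
    have h1 := (Eqv.of_mem (G := {β | IsGood p (m * (p ^ N - 1)) Q β}) hgood).add_right
      {1 + incl m (p ^ N - 1) u}
    rw [hs, add_zero]
    rwa [zero_add] at h1

lemma family_step {p m N : ℕ} [NeZero m] {Q : ℕ → Prop} (hp : p.Prime) (hpm : Nat.Coprime p m)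
    (hN : 0 < N) (hm : m ∣ p ^ N - 1) (hd : 2 ≤ p ^ N - 1)
    (D : Multiset (Multiset (ZMod m))) (hD : ∀ γ ∈ D, IsElem p m Q γ) (u : ZMod m) :
    Eqv {β | IsGood p (m * (p ^ N - 1)) Q β}
      (D.sum.map (incl m (p ^ N - 1)) + {1 + incl m (p ^ N - 1) u})
      {1 + incl m (p ^ N - 1) (u + D.sum.sum)} := by
  induction D using Multiset.induction_on generalizing u with
  | empty =>
    simp only [Multiset.sum_zero, Multiset.map_zero, zero_add, add_zero]
    exact Eqv.refl _ _
  | cons γ s ih =>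
    have h1 := elem_step hp hpm hN hm hd (hD γ (Multiset.mem_cons_self γ s)) u
    have h2 := ih (fun δ hδ => hD δ (Multiset.mem_cons_of_mem hδ)) (u + γ.sum)
    rw [Multiset.sum_cons, Multiset.map_add, Multiset.sum_add]
    have h3 := h1.add_left (s.sum.map (incl m (p ^ N - 1)))
    have h4 := h3.trans h2
    have e1 : γ.map (incl m (p ^ N - 1)) + s.sum.map (incl m (p ^ N - 1))
        + {1 + incl m (p ^ N - 1) u}
        = s.sum.map (incl m (p ^ N - 1)) + (γ.map (incl m (p ^ N - 1))
          + {1 + incl m (p ^ N - 1) u}) := by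
      rw [add_comm (γ.map _), add_assoc]
    rw [e1, ← add_assoc u]
    exact h4

/-- **Telescoping theorem.** -/
theorem generated_of_eqv {p m N : ℕ} [NeZero m] {Q : ℕ → Prop} (hp : p.Prime)
    (hpm : Nat.Coprime p m) (hN : 0 < N) (hm : m ∣ p ^ N - 1) {α : Multiset (ZMod m)}
    (h0 : (0 : ZMod m) ∉ α) (hs : α.sum = 0) (h : Eqv {γ | IsElem p m Q γ} α 0) :
    Generated p m N Q α := by
  by_cases hd : 2 ≤ p ^ N - 1
  · obtain ⟨C, D, hC, hD, h⟩ := h
    rw [zero_add] at h
    have hsum : D.sum.sum = C.sum.sum := by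
      rw [← h, Multiset.sum_add, hs, zero_add]
    have h1 := family_step hp hpm hN hm hd C hC 0
    have h2 := family_step hp hpm hN hm hd D hD 0
    rw [hsum, ← h, Multiset.map_add] at h2
    have h3 := (h1.symm.add_left (α.map (incl m (p ^ N - 1))))
    rw [← add_assoc] at h3
    have h4 := h3.trans h2
    have h5 : Eqv {β | IsGood p (m * (p ^ N - 1)) Q β} (α.map (incl m (p ^ N - 1))) 0 := by
      apply Eqv.cancel (w := {1 + incl m (p ^ N - 1) (0 + C.sum.sum)})
      rw [zero_add (M := Multiset (ZMod (m * (p ^ N - 1))))]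
      exact h4
    obtain ⟨A, B, hA, hB, hAB⟩ := h5
    exact ⟨A, B, hA, hB, by rwa [zero_add] at hAB⟩
  · have hpos : 1 ≤ p ^ N - 1 := by
      have : 2 ≤ p ^ N := hp.two_le.trans (Nat.le_self_pow (by omega) p)
      omega
    have hd1 : p ^ N - 1 = 1 := by omega
    have hm1 : m = 1 := Nat.dvd_one.1 (hd1 ▸ hm)
    subst hm1
    have hα : α = 0 := by
      apply Multiset.eq_zero_of_forall_notMem
      intro a ha
      have : a = 0 := Subsingleton.elim _ _
      rw [this] at ha
      exact h0 ha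
    refine ⟨0, 0, by simp, by simp, ?_⟩
    rw [hα]
    simp

end Pool.Agent.Lib.MP_021685_ag.Fermat
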