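import Pool.Agent.Lib.MP_021685_ag.Fermat2
import Pool.Agent.Lib.MP_b95a42_nt.LOne2

/-!
Generalized Bernoulli numbers of odd characters, not necessarily primitive.
-/

namespace Pool.Agent.Lib.MP_021685_ag.Fermat

open Finset

lemma sum_mul_range (f e : ℕ) (F : ℕ → ℂ) (hF : ∀ v, F (v + f) = F v)
    (h0 : ∑ r ∈ range f, F r = 0) :
    ∑ v ∈ range (e * f), F v * (v : ℂ) = e * ∑ r ∈ range f, F r * (r : ℂ) := by
  have hper : ∀ e r, F (e * f + r) = F r := by
    intro e r
    induction e with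
    | zero => simp
    | succ e ih =>
      have : (e + 1) * f + r = (e * f + r) + f := by ring
      rw [this, hF, ih]
  induction e with
  | zero => simp
  | succ e ih =>
    rw [Nat.succ_mul, Finset.sum_range_add, ih]
    have h1 : ∑ r ∈ range f, F (e * f + r) * ((e * f + r : ℕ) : ℂ)
        = (e * f : ℂ) * ∑ r ∈ range f, F r + ∑ r ∈ range f, F r * (r : ℂ) := by
      rw [Finset.mul_sum, ← Finset.sum_add_distrib]
      refine Finset.sum_congr rfl fun r _ => ?_
      rw [hper]
      push_cast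
      ring
    rw [h1, h0]
    push_cast
    ring

/-- The values at level `n` of the character `ψ0` of level `f ∣ n`, on natural numbers. -/
noncomputable def FF {f : ℕ} (ψ0 : DirichletCharacter ℂ f) (n v : ℕ) : ℂ :=
  if Nat.Coprime v n then ψ0 (v : ZMod f) else 0

lemma changeLevel_natCast {f n : ℕ} (h : f ∣ n) (ψ0 : DirichletCharacter ℂ f) (v : ℕ) :
    (DirichletCharacter.changeLevel h ψ0) (v : ZMod n) = FF ψ0 n v := by
  unfold FF
  by_cases hv : Nat.Coprime v n
  · rw [if_pos hv]
    have h2 : IsCoprime (v : ℤ) (n : ℤ) := Nat.isCoprime_iff_coprime.2 hv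
    have h3 := DirichletCharacter.changeLevel_eq_cast_of_dvd' ψ0 h h2
    simpa using h3
  · rw [if_neg hv, MulChar.map_nonunit]
    rw [ZMod.isUnit_iff_coprime]
    exact hv

lemma FF_periodic {f n : ℕ} (h : f ∣ n) (ψ0 : DirichletCharacter ℂ f) (v : ℕ) :
    FF ψ0 n (v + n) = FF ψ0 n v := by
  rw [← changeLevel_natCast h, ← changeLevel_natCast h, Nat.cast_add, ZMod.natCast_self, add_zero]

lemma sum_FF {f n : ℕ} [NeZero n] (h : f ∣ n) (ψ0 : DirichletCharacter ℂ f) (h1 : ψ0 ≠ 1) :
    ∑ r ∈ range n, FF ψ0 n r = 0 := by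
  rw [sum_range_zmod n (fun v => FF ψ0 n v)]
  have h2 : DirichletCharacter.changeLevel h ψ0 ≠ 1 := fun h2 =>
    h1 ((DirichletCharacter.changeLevel_eq_one_iff h).1 h2)
  rw [← MulChar.sum_eq_zero_of_ne_one h2]
  refine Finset.sum_congr rfl fun s _ => ?_
  rw [← changeLevel_natCast h, ZMod.natCast_zmod_val]

lemma sum_mul_FF {f n : ℕ} [NeZero n] (h : f ∣ n) (ψ0 : DirichletCharacter ℂ f) :
    ∑ r ∈ range n, FF ψ0 n r * (r : ℂ)
      = ∑ s : ZMod n, (DirichletCharacter.changeLevel h ψ0) s * (s.val : ℂ) := by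
  rw [sum_range_zmod n (fun v => FF ψ0 n v * (v : ℂ))]
  refine Finset.sum_congr rfl fun s _ => ?_
  rw [← changeLevel_natCast h, ZMod.natCast_zmod_val]

lemma sum_step {f n l : ℕ} [NeZero n] (h : f ∣ n) (ψ0 : DirichletCharacter ℂ f) (h1 : ψ0 ≠ 1)
    (hl : l.Prime) :
    ∑ v ∈ range (l * n), FF ψ0 (l * n) v * (v : ℂ)
      = (if l ∣ n then (l : ℂ) else l * (1 - ψ0 (l : ZMod f))) *
        ∑ r ∈ range n, FF ψ0 n r * (r : ℂ) := by
  have hmain := sum_mul_range n l (FF ψ0 n) (FF_periodic h ψ0) (sum_FF h ψ0 h1)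
  by_cases hln : l ∣ n
  · rw [if_pos hln, ← hmain]
    refine Finset.sum_congr rfl fun v _ => ?_
    congr 1
    unfold FF
    have h2 : Nat.Coprime v (l * n) ↔ Nat.Coprime v n := by
      constructor
      · exact fun h => Nat.Coprime.coprime_dvd_right (dvd_mul_left n l) h
      · intro h
        exact Nat.Coprime.mul_right (Nat.Coprime.coprime_dvd_right hln h) h
    simp only [h2]
  · rw [if_neg hln]
    have hcl : Nat.Coprime l n := (Nat.Prime.coprime_iff_not_dvd hl).2 hln
    have h2 : ∀ v ∈ range (l * n), FF ψ0 n v * (v : ℂ)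
        = FF ψ0 (l * n) v * (v : ℂ) + (if l ∣ v then FF ψ0 n v * (v : ℂ) else 0) := by
      intro v _
      unfold FF
      by_cases hlv : l ∣ v
      · have h3 : ¬ Nat.Coprime v (l * n) := by
          intro h
          have := Nat.Coprime.eq_one_of_dvd
            (Nat.Coprime.symm (Nat.Coprime.coprime_dvd_right (dvd_mul_right l n) h)) hlv
          exact hl.one_lt.ne' this
        rw [if_pos hlv, if_neg h3]
        ring
      · have h3 : Nat.Coprime v (l * n) ↔ Nat.Coprime v n := by
          constructor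
          · exact fun h => Nat.Coprime.coprime_dvd_right (dvd_mul_left n l) h
          · intro h
            exact Nat.Coprime.mul_right ((Nat.Prime.coprime_iff_not_dvd hl).2 hlv).symm h
        rw [if_neg hlv]
        simp only [h3, add_zero]
    have h4 : ∑ v ∈ range (l * n), (if l ∣ v then FF ψ0 n v * (v : ℂ) else 0)
        = l * ψ0 (l : ZMod f) * ∑ r ∈ range n, FF ψ0 n r * (r : ℂ) := by
      rw [← Finset.sum_filter]
      have h5 : (range (l * n)).filter (fun v => l ∣ v) = (range n).image (fun w => l * w) := by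
        ext v
        simp only [Finset.mem_filter, Finset.mem_range, Finset.mem_image]
        constructor
        · rintro ⟨hv, w, rfl⟩
          exact ⟨w, (Nat.mul_lt_mul_left hl.pos).1 hv, rfl⟩
        · rintro ⟨w, hw, rfl⟩
          exact ⟨(Nat.mul_lt_mul_left hl.pos).2 hw, dvd_mul_right l w⟩
      rw [h5, Finset.sum_image (fun x _ y _ hxy => Nat.eq_of_mul_eq_mul_left hl.pos hxy),
        Finset.mul_sum]
      refine Finset.sum_congr rfl fun w _ => ?_
      unfold FF
      have h6 : Nat.Coprime (l * w) n ↔ Nat.Coprime w n := by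
        constructor
        · exact fun h => Nat.Coprime.coprime_dvd_left (dvd_mul_left w l) h
        · exact fun h => Nat.Coprime.mul_left hcl h
      by_cases h7 : Nat.Coprime w n
      · rw [if_pos h7, if_pos (h6.2 h7)]
        push_cast
        rw [map_mul]
        ring
      · rw [if_neg h7, if_neg (fun h => h7 (h6.1 h))]
        ring
    have h8 : ∑ v ∈ range (l * n), FF ψ0 n v * (v : ℂ)
        = ∑ v ∈ range (l * n), FF ψ0 (l * n) v * (v : ℂ)
          + ∑ v ∈ range (l * n), (if l ∣ v then FF ψ0 n v * (v : ℂ) else 0) := by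
      rw [← Finset.sum_add_distrib]
      exact Finset.sum_congr rfl h2
    rw [h8, h4] at hmain
    linear_combination hmain

/-- For an odd primitive character `ψ0` of conductor `f ∣ q`, the number `∑ ψ(s) s` of the
character `ψ` of level `q` defined by `ψ0` is nonzero if no Euler factor vanishes. -/
theorem sum_changeLevel_ne_zero {f : ℕ} [NeZero f] (ψ0 : DirichletCharacter ℂ f)
    (hprim : ψ0.IsPrimitive) (hodd : ψ0.Odd) :
    ∀ (e : ℕ), 0 < e → (∀ l : ℕ, l.Prime → l ∣ e → ¬ l ∣ f → ψ0 (l : ZMod f) ≠ 1) →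
      ∑ r ∈ range (e * f), FF ψ0 (e * f) r * (r : ℂ) ≠ 0 := by
  have hne0 : ψ0 ≠ 1 := by
    intro h
    have h5 : ψ0 (-1) = -1 := hodd
    rw [h, MulChar.one_apply (IsUnit.neg isUnit_one)] at h5
    norm_num at h5
  intro e
  induction e using Nat.strong_induction_on with
  | _ e ih =>
    intro he hE
    by_cases he1 : e = 1
    · subst he1
      rw [one_mul, sum_mul_FF (dvd_refl f), DirichletCharacter.changeLevel_self]
      exact Pool.Agent.Lib.MP_b95a42_nt.sum_mul_val_ne_zero hprim hodd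
    · have hl : e.minFac.Prime := Nat.minFac_prime he1
      obtain ⟨e', he'⟩ := Nat.minFac_dvd e
      set l := e.minFac with hldef
      have he'0 : 0 < e' := by
        rcases Nat.eq_zero_or_pos e' with h | h
        · rw [h, mul_zero] at he'
          omega
        · exact h
      have hlt : e' < e := by
        rw [he']
        exact (Nat.lt_mul_iff_one_lt_left he'0).2 hl.one_lt
      have h1 := ih e' hlt he'0 (fun l' hl' hd hf => hE l' hl' (he' ▸ Dvd.dvd.mul_left hd l) hf)
      have hn : NeZero (e' * f) := ⟨(Nat.mul_pos he'0 (Nat.pos_of_ne_zero (NeZero.ne f))).ne'⟩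
      have h2 := sum_step (dvd_mul_left f e') ψ0 hne0 hl
      have h3 : e * f = l * (e' * f) := by rw [he', mul_assoc]
      have h4 : ∑ r ∈ range (e * f), FF ψ0 (e * f) r * (r : ℂ)
          = ∑ r ∈ range (l * (e' * f)), FF ψ0 (l * (e' * f)) r * (r : ℂ) :=
        congrArg (fun n => ∑ r ∈ range n, FF ψ0 n r * (r : ℂ)) h3
      rw [h4, h2]
      refine mul_ne_zero ?_ h1
      have hl0 : (l : ℂ) ≠ 0 := by exact_mod_cast hl.ne_zero
      split_ifs with h5
      · exact hl0
      · refine mul_ne_zero hl0 (sub_ne_zero.2 (Ne.symm ?_))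
        refine hE l hl ?_ (fun h => h5 (Dvd.dvd.mul_left h e'))
        rw [he']
        exact dvd_mul_right l e'

/-- The condition under which the elements of order `q` behave freely: `-1` is in the group
generated by `p` and `l` modulo every divisor of `q` prime to `l`, for each prime `l ∣ q`. -/
def Free (p q : ℕ) : Prop :=
  ∀ l : ℕ, l.Prime → l ∣ q → ∀ d : ℕ, d ∣ q → ¬ l ∣ d →
    ∃ i j : ℕ, ((p ^ i * l ^ j : ℕ) : ZMod d) = -1

theorem sum_odd_ne_zero {p q : ℕ} [NeZero q] (hpq : Nat.Coprime p q) (hF : Free p q)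
    (ψ : DirichletCharacter ℂ q) (hψ : ψ.Odd) (hψp : ψ (p : ZMod q) = 1) :
    ∑ s : ZMod q, ψ s * (s.val : ℂ) ≠ 0 := by
  have hfq := ψ.conductor_dvd_level
  have hf0 : NeZero ψ.conductor := ⟨fun h => by
    rw [h] at hfq
    exact NeZero.ne q (Nat.eq_zero_of_zero_dvd hfq)⟩
  set ψ0 := ψ.primitiveCharacter with hψ0
  have hcop : ∀ a : ℤ, IsCoprime a (q : ℤ) → ψ0 (a : ZMod ψ.conductor) = ψ (a : ZMod q) :=
    fun a ha => ψ.primitiveCharacter_apply_of_isCoprime ha
  have hodd0 : ψ0.Odd := by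
    have h3 := hcop (-1) isCoprime_one_left.neg_left
    push_cast at h3
    have h4 : ψ (-1) = -1 := hψ
    have h5 : ψ0 (-1) = -1 := by rw [h3, h4]
    exact h5
  have hp0 : ψ0 (p : ZMod ψ.conductor) = 1 := by
    have h3 := hcop p (Nat.isCoprime_iff_coprime.2 hpq)
    push_cast at h3
    rw [h3, hψp]
  obtain ⟨e, he⟩ := hfq
  have he0 : 0 < e := by
    rcases Nat.eq_zero_or_pos e with h | h
    · rw [h, mul_zero] at he
      exact absurd he (NeZero.ne q)
    · exact h
  have h1 := sum_changeLevel_ne_zero ψ0 ψ.primitiveCharacter_isPrimitive hodd0 e he0 (by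
    intro l hl hle hlf h
    obtain ⟨i, j, hij⟩ := hF l hl (he ▸ Dvd.dvd.mul_left hle _) ψ.conductor
      ψ.conductor_dvd_level hlf
    have h2 := congrArg ψ0 hij
    push_cast at h2
    rw [map_mul, map_pow, map_pow, hp0, h, one_pow, one_pow, one_mul] at h2
    have h3 : ψ0 (-1) = -1 := hodd0
    rw [h3] at h2
    norm_num at h2)
  have hqe : q = e * ψ.conductor := by
    conv_lhs => rw [he]
    ring
  have h2 : ∑ s : ZMod q, ψ s * (s.val : ℂ) = ∑ r ∈ range q, FF ψ0 q r * (r : ℂ) := by
    rw [sum_mul_FF ψ.conductor_dvd_level, hψ0, DirichletCharacter.changeLevel_primitiveCharacter]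
  have h4 : ∑ r ∈ range q, FF ψ0 q r * (r : ℂ)
      = ∑ r ∈ range (e * ψ.conductor), FF ψ0 (e * ψ.conductor) r * (r : ℂ) :=
    congrArg (fun n => ∑ r ∈ range n, FF ψ0 n r * (r : ℂ)) hqe
  rw [h2, h4]
  exact h1

end Pool.Agent.Lib.MP_021685_ag.Fermat
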