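import Pool.Agent.Lib.MP_021685_ag.Fermat4

/-!
The Fourier argument: a function on `(ℤ/q)ˣ` orthogonal to all translates of the averaged
sawtooth is even after averaging over the powers of `p`.
-/

namespace Pool.Agent.Lib.MP_021685_ag.Fermat

open Finset

section

variable {q : ℕ} [NeZero q]

lemma sum_units_eq (ψ : DirichletCharacter ℂ q) (G : ZMod q → ℂ) :
    ∑ u : (ZMod q)ˣ, ψ (u : ZMod q) * G (u : ZMod q) = ∑ x : ZMod q, ψ x * G x := by
  refine Fintype.sum_of_injective (fun u : (ZMod q)ˣ => (u : ZMod q)) Units.val_injective _ _ ?_ ?_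
  · intro x hx
    have hx' : ¬ IsUnit x := by
      rintro ⟨u, hu⟩
      exact hx ⟨u, hu⟩
    rw [MulChar.map_nonunit _ hx', zero_mul]
  · intro u
    rfl

omit [NeZero q] in
lemma char_inv_mul (χ : DirichletCharacter ℂ q) (u : (ZMod q)ˣ) :
    χ⁻¹ (u : ZMod q) * χ (u : ZMod q) = 1 := by
  rw [← MulChar.mul_apply, inv_mul_cancel, MulChar.one_apply_coe]

omit [NeZero q] in
lemma char_unit_inv (χ : DirichletCharacter ℂ q) (u : (ZMod q)ˣ) :
    χ ((u⁻¹ : (ZMod q)ˣ) : ZMod q) = χ⁻¹ (u : ZMod q) := by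
  have h1 := char_inv_mul χ u
  have h2 : χ ((u⁻¹ : (ZMod q)ˣ) : ZMod q) * χ (u : ZMod q) = 1 := by
    rw [← map_mul, ← Units.val_mul, inv_mul_cancel, Units.val_one, map_one]
  have h3 : χ (u : ZMod q) ≠ 0 := by
    intro h
    rw [h, mul_zero] at h2
    exact zero_ne_one h2
  exact mul_right_cancel₀ h3 (h2.trans h1.symm)

lemma sum_shift_left (u : (ZMod q)ˣ) (F : (ZMod q)ˣ → ℂ) : ∑ s, F (u * s) = ∑ s, F s :=
  Equiv.sum_comp (Equiv.mulLeft u) F

lemma sum_shift_right (u : (ZMod q)ˣ) (F : (ZMod q)ˣ → ℂ) : ∑ s, F (s * u) = ∑ s, F s :=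
  Equiv.sum_comp (Equiv.mulRight u) F

/-- The Fourier coefficient of the averaged sawtooth at an odd character trivial at `p`. -/
lemma fourier_PT {p T : ℕ} (P : (ZMod q)ˣ) (hP : (P : ZMod q) = p)
    (ψ : DirichletCharacter ℂ q) (hψ : ψ.Odd) (hψP : ψ (P : ZMod q) = 1) :
    ∑ s : (ZMod q)ˣ, ψ (s : ZMod q) * (PT p q T (s : ZMod q) : ℂ)
      = 2 * T * ∑ x : ZMod q, ψ x * (x.val : ℂ) := by
  have hψ1 : ψ ≠ 1 := by
    rintro rfl
    have : (1 : DirichletCharacter ℂ q) (-1) = -1 := hψ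
    rw [MulChar.one_apply (IsUnit.neg isUnit_one)] at this
    norm_num at this
  have h1 : ∀ s : (ZMod q)ˣ, ψ (s : ZMod q) * (PT p q T (s : ZMod q) : ℂ)
      = ∑ j ∈ range T, ψ (s : ZMod q) *
        (2 * ((((P ^ j * s : (ZMod q)ˣ) : ZMod q)).val : ℂ) - q) := by
    intro s
    unfold PT
    push_cast
    rw [Finset.mul_sum, hP]
  simp only [h1]
  rw [Finset.sum_comm]
  have h2 : ∀ j ∈ range T, ∑ s : (ZMod q)ˣ, ψ (s : ZMod q) *
        (2 * ((((P ^ j * s : (ZMod q)ˣ) : ZMod q)).val : ℂ) - q)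
      = 2 * ∑ x : ZMod q, ψ x * (x.val : ℂ) := by
    intro j _
    have h3 : ∀ s : (ZMod q)ˣ, ψ (s : ZMod q) *
        (2 * ((((P ^ j * s : (ZMod q)ˣ) : ZMod q)).val : ℂ) - q)
        = (fun u : (ZMod q)ˣ => ψ (u : ZMod q) * (2 * ((u : ZMod q).val : ℂ) - q)) (P ^ j * s) := by
      intro s
      simp only
      rw [Units.val_mul, map_mul, Units.val_pow_eq_pow_val, map_pow, hψP, one_pow, one_mul]
    refine (Finset.sum_congr rfl (fun s _ => h3 s)).trans ((sum_shift_left (P ^ j)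
      (fun u : (ZMod q)ˣ => ψ (u : ZMod q) * (2 * ((u : ZMod q).val : ℂ) - q))).trans ?_)
    rw [sum_units_eq ψ (fun x => (2 * (x.val : ℂ) - q))]
    have h4 : ∀ x : ZMod q, ψ x * (2 * (x.val : ℂ) - q)
        = 2 * (ψ x * (x.val : ℂ)) - q * ψ x := by intro x; ring
    simp only [h4]
    rw [Finset.sum_sub_distrib, ← Finset.mul_sum, ← Finset.mul_sum,
      MulChar.sum_eq_zero_of_ne_one hψ1, mul_zero, sub_zero]
  rw [Finset.sum_congr rfl h2, Finset.sum_const, Finset.card_range, nsmul_eq_mul]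
  ring

/-- Main Fourier lemma. -/
theorem fourier_even {p T : ℕ} (hT : 0 < T)
    (P : (ZMod q)ˣ) (hbern : ∀ ψ : DirichletCharacter ℂ q, ψ.Odd → ψ (P : ZMod q) = 1 →
      ∑ x : ZMod q, ψ x * (x.val : ℂ) ≠ 0)
    (hP : (P : ZMod q) = p) (hPT : P ^ T = 1) (n : (ZMod q)ˣ → ℤ)
    (h : ∀ t : (ZMod q)ˣ, ∑ a : (ZMod q)ˣ, n a * PT p q T ((t : ZMod q) * (a : ZMod q)) = 0)
    (b : (ZMod q)ˣ) :
    ∑ j ∈ range T, n (P ^ j * b) = ∑ j ∈ range T, n (-(P ^ j * b)) := by
  -- Fourier transform of `n`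
  have hnh : ∀ χ : DirichletCharacter ℂ q, χ.Odd → χ (P : ZMod q) = 1 →
      ∑ a : (ZMod q)ˣ, χ (a : ZMod q) * (n a : ℂ) = 0 := by
    intro χ hχ hχP
    have hψodd : (χ⁻¹).Odd := by
      have h1 := char_inv_mul χ (-1)
      have h2 : χ (((-1 : (ZMod q)ˣ)) : ZMod q) = -1 := by
        rw [Units.val_neg, Units.val_one]
        exact hχ
      rw [h2] at h1
      have h3 : χ⁻¹ (((-1 : (ZMod q)ˣ)) : ZMod q) = -1 := by linear_combination -h1
      rw [Units.val_neg, Units.val_one] at h3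
      exact h3
    have hψP : χ⁻¹ (P : ZMod q) = 1 := by
      have h1 := char_inv_mul χ P
      rwa [hχP, mul_one] at h1
    have hK := fourier_PT (T := T) P hP χ⁻¹ hψodd hψP
    have hK0 : ∑ s : (ZMod q)ˣ, χ⁻¹ (s : ZMod q) * (PT p q T (s : ZMod q) : ℂ) ≠ 0 := by
      rw [hK]
      refine mul_ne_zero (mul_ne_zero two_ne_zero ?_) (hbern _ hψodd hψP)
      exact_mod_cast hT.ne'
    have h1 : ∑ t : (ZMod q)ˣ, χ⁻¹ (t : ZMod q) *
        ∑ a : (ZMod q)ˣ, (n a : ℂ) * (PT p q T ((t : ZMod q) * (a : ZMod q)) : ℂ) = 0 := by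
      refine Finset.sum_eq_zero fun t _ => ?_
      have h2 := h t
      have h3 : ∑ a : (ZMod q)ˣ, (n a : ℂ) * (PT p q T ((t : ZMod q) * (a : ZMod q)) : ℂ) = 0 := by
        exact_mod_cast h2
      rw [h3, mul_zero]
    have h4 : ∑ t : (ZMod q)ˣ, χ⁻¹ (t : ZMod q) *
        ∑ a : (ZMod q)ˣ, (n a : ℂ) * (PT p q T ((t : ZMod q) * (a : ZMod q)) : ℂ)
        = (∑ a : (ZMod q)ˣ, χ (a : ZMod q) * (n a : ℂ)) *
          ∑ s : (ZMod q)ˣ, χ⁻¹ (s : ZMod q) * (PT p q T (s : ZMod q) : ℂ) := by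
      rw [Finset.sum_congr rfl (fun t _ => Finset.mul_sum _ _ _), Finset.sum_comm,
        Finset.sum_mul]
      refine Finset.sum_congr rfl fun a _ => ?_
      rw [Finset.mul_sum]
      have h5 : ∀ t : (ZMod q)ˣ, χ⁻¹ (t : ZMod q) *
          ((n a : ℂ) * (PT p q T ((t : ZMod q) * (a : ZMod q)) : ℂ))
          = (fun s : (ZMod q)ˣ => χ (a : ZMod q) * (n a : ℂ) *
            (χ⁻¹ (s : ZMod q) * (PT p q T (s : ZMod q) : ℂ))) (t * a) := by
        intro t
        simp only [Units.val_mul, map_mul]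
        have h6 := char_inv_mul χ a
        linear_combination (-(χ⁻¹ (t : ZMod q) * (n a : ℂ) *
          (PT p q T ((t : ZMod q) * (a : ZMod q)) : ℂ))) * h6
      exact (Finset.sum_congr rfl (fun t _ => h5 t)).trans (sum_shift_right a
        (fun s : (ZMod q)ˣ => χ (a : ZMod q) * (n a : ℂ) *
            (χ⁻¹ (s : ZMod q) * (PT p q T (s : ZMod q) : ℂ))))
    rw [h4] at h1
    exact (mul_eq_zero.1 h1).resolve_right hK0
  -- the difference
  set g : (ZMod q)ˣ → ℂ := fun c =>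
    ∑ j ∈ range T, ((n (P ^ j * c) : ℂ) - (n (-(P ^ j * c)) : ℂ)) with hg
  have hgχ : ∀ χ : DirichletCharacter ℂ q, ∑ c : (ZMod q)ˣ, χ (c : ZMod q) * g c = 0 := by
    intro χ
    have h1 : ∑ c : (ZMod q)ˣ, χ (c : ZMod q) * g c
        = (1 - χ (-1)) * (∑ j ∈ range T, (χ⁻¹ (P : ZMod q)) ^ j) *
          ∑ a : (ZMod q)ˣ, χ (a : ZMod q) * (n a : ℂ) := by
      have hR : (1 - χ (-1)) * (∑ j ∈ range T, (χ⁻¹ (P : ZMod q)) ^ j) *
          ∑ a : (ZMod q)ˣ, χ (a : ZMod q) * (n a : ℂ)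
          = ∑ j ∈ range T, (1 - χ (-1)) * (χ⁻¹ (P : ZMod q)) ^ j *
            ∑ a : (ZMod q)ˣ, χ (a : ZMod q) * (n a : ℂ) := by
        generalize ∑ a : (ZMod q)ˣ, χ (a : ZMod q) * (n a : ℂ) = N
        rw [Finset.mul_sum, Finset.sum_mul]
      rw [hR]
      simp only [hg]
      rw [Finset.sum_congr rfl (fun c _ => Finset.mul_sum _ _ _), Finset.sum_comm]
      refine Finset.sum_congr rfl fun j _ => ?_
      have h2 : ∀ c : (ZMod q)ˣ, χ (c : ZMod q) *
          ((n (P ^ j * c) : ℂ) - (n (-(P ^ j * c)) : ℂ))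
          = (fun a : (ZMod q)ˣ => (χ⁻¹ (P : ZMod q)) ^ j * (χ (a : ZMod q) * (n a : ℂ))) (P ^ j * c)
            - (fun a : (ZMod q)ˣ => χ (-1) * (χ⁻¹ (P : ZMod q)) ^ j *
              (χ (a : ZMod q) * (n a : ℂ))) (-(P ^ j) * c) := by
        intro c
        have h3 : (χ⁻¹ (P : ZMod q)) ^ j * (χ (P : ZMod q)) ^ j = 1 := by
          rw [← mul_pow, char_inv_mul, one_pow]
        have h4 : χ (-1) * χ (-1) = 1 := by
          rw [← map_mul]
          norm_num
        have h5 : χ (((P ^ j * c : (ZMod q)ˣ)) : ZMod q)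
            = χ (P : ZMod q) ^ j * χ (c : ZMod q) := by
          rw [Units.val_mul, map_mul, Units.val_pow_eq_pow_val, map_pow]
        have h6 : χ (((-(P ^ j) * c : (ZMod q)ˣ)) : ZMod q)
            = χ (-1) * χ (P : ZMod q) ^ j * χ (c : ZMod q) := by
          rw [Units.val_mul, map_mul, Units.val_neg, Units.val_pow_eq_pow_val, ← neg_one_mul,
            map_mul, map_pow]
        simp only
        rw [h5, h6, neg_mul]
        linear_combination (-(χ (c : ZMod q)) * (n (P ^ j * c) : ℂ)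
            + χ (-1) * χ (-1) * χ (c : ZMod q) * (n (-(P ^ j * c)) : ℂ)) * h3
          + (χ (c : ZMod q) * (n (-(P ^ j * c)) : ℂ)) * h4
      refine (Finset.sum_congr rfl (fun c _ => h2 c)).trans ?_
      rw [Finset.sum_sub_distrib]
      have e1 := sum_shift_left (P ^ j)
        (fun a : (ZMod q)ˣ => (χ⁻¹ (P : ZMod q)) ^ j * (χ (a : ZMod q) * (n a : ℂ)))
      have e2 := sum_shift_left (-(P ^ j))
        (fun a : (ZMod q)ˣ => χ (-1) * (χ⁻¹ (P : ZMod q)) ^ j * (χ (a : ZMod q) * (n a : ℂ)))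
      refine (congrArg₂ (fun x y => x - y) e1 e2).trans ?_
      rw [← Finset.mul_sum, ← Finset.mul_sum]
      ring
    rw [h1]
    rcases χ.even_or_odd with he | ho
    · have : χ (-1) = 1 := he
      rw [this]
      ring
    · by_cases hP1 : χ⁻¹ (P : ZMod q) = 1
      · have hP2 : χ (P : ZMod q) = 1 := by
          have := char_inv_mul χ P
          rwa [hP1, one_mul] at this
        rw [hnh χ ho hP2, mul_zero]
      · have h2 : ∑ j ∈ range T, (χ⁻¹ (P : ZMod q)) ^ j = 0 := by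
          rw [geom_sum_eq hP1, ← map_pow, ← Units.val_pow_eq_pow_val, hPT, Units.val_one, map_one,
            sub_self, zero_div]
        rw [h2]
        ring
  have hg0 : g b = 0 := by
    have h1 : ∑ χ : DirichletCharacter ℂ q, χ (b : ZMod q)⁻¹ *
        ∑ c : (ZMod q)ˣ, χ (c : ZMod q) * g c = 0 := by
      refine Finset.sum_eq_zero fun χ _ => ?_
      rw [hgχ, mul_zero]
    simp only [Finset.mul_sum] at h1
    rw [Finset.sum_comm] at h1
    have h2 : ∀ c : (ZMod q)ˣ, ∑ χ : DirichletCharacter ℂ q,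
        χ (b : ZMod q)⁻¹ * (χ (c : ZMod q) * g c)
        = if b = c then (q.totient : ℂ) * g c else 0 := by
      intro c
      have h3 := DirichletCharacter.sum_char_inv_mul_char_eq ℂ b.isUnit (c : ZMod q)
      simp only [← mul_assoc]
      rw [← Finset.sum_mul, h3]
      by_cases hbc : b = c
      · simp [hbc]
      · have : (b : ZMod q) ≠ c := fun h => hbc (Units.ext h)
        simp [hbc, this]
    simp only [h2] at h1
    rw [Finset.sum_ite_eq] at h1
    simp only [Finset.mem_univ, if_true] at h1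
    have h4 : (q.totient : ℂ) ≠ 0 := by
      have : 0 < q.totient := Nat.totient_pos.2 (Nat.pos_of_ne_zero (NeZero.ne q))
      exact_mod_cast this.ne'
    exact (mul_eq_zero.1 h1).resolve_left h4
  simp only [hg] at hg0
  rw [Finset.sum_sub_distrib, sub_eq_zero] at hg0
  exact_mod_cast hg0

end

end Pool.Agent.Lib.MP_021685_ag.Fermat
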