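import Pool.Agent.Lib.MP_021685_ag.Fermat3
import Pool.Agent.Lib.MP_021685_ag.Fermat5

/-!
The partner lemma.
-/

namespace Pool.Agent.Lib.MP_021685_ag.Fermat

open Finset

lemma sum_map_ite {A : Type*} [DecidableEq A] (γ : Multiset A) (y : A) (c : ℤ) :
    (γ.map (fun x => if x = y then c else 0)).sum = (γ.count y : ℤ) * c := by
  induction γ using Multiset.induction_on with
  | empty => simp
  | cons a s ih =>
    rw [Multiset.map_cons, Multiset.sum_cons, ih]
    by_cases h : a = y
    · rw [if_pos h, h, Multiset.count_cons_self]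
      push_cast
      ring
    · rw [if_neg h, Multiset.count_cons_of_ne (Ne.symm h), zero_add]

lemma incl_injective {m d : ℕ} [NeZero m] (hd : 0 < d) : Function.Injective (incl m d) := by
  intro a b h
  have h1 := incl_val hd a
  have h2 := incl_val hd b
  rw [h] at h1
  have h3 : a.val = b.val := Nat.eq_of_mul_eq_mul_left hd (h1.symm.trans h2)
  exact ZMod.val_injective m h3

theorem partner {q m' p : ℕ} [NeZero q] [NeZero m'] (hq1 : 1 < q)
    (hbern : ∀ ψ : DirichletCharacter ℂ q, ψ.Odd → ψ (p : ZMod q) = 1 →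
      ∑ x : ZMod q, ψ x * (x.val : ℂ) ≠ 0)
    (hc : Nat.Coprime q m') (hp : Nat.Coprime p (q * m'))
    (γ : Multiset (ZMod (q * m')))
    (hγ : ∀ x ∈ γ, (∃ a : (ZMod q)ˣ, x = incl q m' a) ∨
      (∃ i : ℕ, ((p : ZMod (q * m')) ^ i + 1) * (m' : ZMod (q * m')) * x = 0) ∨
      (∀ t : (ZMod (q * m'))ˣ,
        PT p (q * m') (Nat.totient (q * m')) ((t : ZMod (q * m')) * x) = 0))
    (hs : ∀ t : (ZMod (q * m'))ˣ,
      (γ.map (fun x => PT p (q * m') (Nat.totient (q * m'))
        ((t : ZMod (q * m')) * x))).sum = 0)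
    (b : (ZMod q)ˣ) (hb : incl q m' b ∈ γ) :
    ∃ i : ℕ, -((p : ZMod (q * m')) ^ i * incl q m' b) ∈ γ := by
  classical
  set T := Nat.totient (q * m') with hT
  have hm' : 0 < m' := Nat.pos_of_ne_zero (NeZero.ne m')
  have hTpos : 0 < T := Nat.totient_pos.2 (Nat.mul_pos (by omega) hm')
  have : Fact (1 < q) := ⟨hq1⟩
  have hpq : Nat.Coprime p q := Nat.Coprime.coprime_dvd_right (dvd_mul_right q m') hp
  have hpm' : Nat.Coprime p m' := Nat.Coprime.coprime_dvd_right (dvd_mul_left m' q) hp
  have hpu : IsUnit (p : ZMod q) := (ZMod.isUnit_iff_coprime p q).2 hpq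
  let e := ZMod.chineseRemainder hc
  have he1 : ∀ z : ZMod (q * m'), (z.val : ZMod q) = (e z).1 := by
    intro z
    conv_rhs => rw [← ZMod.natCast_zmod_val z, map_natCast]
    rfl
  let u : (ZMod q)ˣ → (ZMod m')ˣ → (ZMod (q * m'))ˣ := fun a b =>
    Units.map (e.symm : (ZMod q × ZMod m') →* ZMod (q * m')) (MulEquiv.prodUnits.symm (a, b))
  have hu : ∀ a b, e (u a b : ZMod (q * m')) = ((a : ZMod q), (b : ZMod m')) := by
    intro a b
    simp [u]
    rfl
  set P' : (ZMod m')ˣ := ZMod.unitOfCoprime p hpm' with hP'def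
  have hP' : (P' : ZMod m') = p := ZMod.coe_unitOfCoprime p hpm'
  have hpT : (p : ZMod (q * m')) ^ T = 1 := pow_totient' hp
  have hkey : ∀ t' : (ZMod q)ˣ, ∑ a : (ZMod q)ˣ, (γ.count (incl q m' a) : ℤ) *
      PT p q T ((t' : ZMod q) * (a : ZMod q)) = 0 := by
    intro t'
    have hG : ∀ x ∈ γ, (∑ s : (ZMod m')ˣ, PT p (q * m') T ((u t' s : ZMod (q * m')) * x))
        - (∑ s : (ZMod m')ˣ, PT p (q * m') T ((u (-t') s : ZMod (q * m')) * x))
        = ∑ a : (ZMod q)ˣ, (if x = incl q m' a then
            (Fintype.card (ZMod m')ˣ : ℤ) * (2 * (m' : ℤ)) *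
              PT p q T ((t' : ZMod q) * (a : ZMod q)) else 0) := by
      intro x hx
      by_cases hxa : ∃ a : (ZMod q)ˣ, x = incl q m' a
      · obtain ⟨a, rfl⟩ := hxa
        rw [Finset.sum_eq_single a]
        · rw [if_pos rfl]
          have hne : (t' : ZMod q) * (a : ZMod q) ≠ 0 := by
            rw [← Units.val_mul]
            exact (t' * a).ne_zero
          have h1 : ∀ s : (ZMod m')ˣ, PT p (q * m') T ((u t' s : ZMod (q * m')) *
              incl q m' (a : ZMod q)) = m' * PT p q T ((t' : ZMod q) * (a : ZMod q)) := by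
            intro s
            rw [mul_incl, he1, hu]
            simp only
            rw [PT_incl hm']
          have h2 : ∀ s : (ZMod m')ˣ, PT p (q * m') T ((u (-t') s : ZMod (q * m')) *
              incl q m' (a : ZMod q)) = -(m' * PT p q T ((t' : ZMod q) * (a : ZMod q))) := by
            intro s
            rw [mul_incl, he1, hu]
            simp only
            rw [Units.val_neg, neg_mul, PT_incl hm', PT_neg hpu hne]
            ring
          rw [Finset.sum_congr rfl (fun s _ => h1 s), Finset.sum_congr rfl (fun s _ => h2 s),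
            Finset.sum_const, Finset.sum_const, Finset.card_univ, nsmul_eq_mul, nsmul_eq_mul]
          ring
        · intro a' _ ha'
          rw [if_neg]
          intro h
          exact ha' (Units.ext (incl_injective hm' h.symm))
        · intro h
          exact absurd (Finset.mem_univ _) h
      · have h0 : ∑ a : (ZMod q)ˣ, (if x = incl q m' a then
            (Fintype.card (ZMod m')ˣ : ℤ) * (2 * (m' : ℤ)) *
              PT p q T ((t' : ZMod q) * (a : ZMod q)) else 0) = 0 := by
          refine Finset.sum_eq_zero fun a _ => ?_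
          rw [if_neg]
          exact fun h => hxa ⟨a, h⟩
        rw [h0, sub_eq_zero]
        rcases hγ x hx with h | ⟨i, h⟩ | h
        · exact absurd h hxa
        · have h1 : ∀ s : (ZMod m')ˣ, (u (-t') s : ZMod (q * m')) * x
              = (p : ZMod (q * m')) ^ i * ((u t' ((P' ^ i)⁻¹ * s) : ZMod (q * m')) * x) := by
            intro s
            have hmq : IsUnit (m' : ZMod q) := (ZMod.isUnit_iff_coprime m' q).2 hc.symm
            obtain ⟨v, hv⟩ := hmq
            set w : ZMod (q * m') := e.symm (-(((v⁻¹ : (ZMod q)ˣ) : ZMod q) * t'), 0) with hw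
            have hew : e w = (-(((v⁻¹ : (ZMod q)ˣ) : ZMod q) * t'), 0) := by
              rw [hw, RingEquiv.apply_symm_apply]
            have h2 : (u (-t') s : ZMod (q * m'))
                - (p : ZMod (q * m')) ^ i * (u t' ((P' ^ i)⁻¹ * s) : ZMod (q * m'))
                = ((p : ZMod (q * m')) ^ i + 1) * (m' : ZMod (q * m')) * w := by
              apply e.injective
              rw [map_sub, map_mul, map_mul, map_mul, map_add, map_pow, map_natCast, map_natCast,
                map_one, hu, hu, hew]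
              ext
              · simp only [Prod.fst_sub, Prod.fst_mul, Prod.fst_add, Prod.pow_fst,
                  Prod.fst_natCast, Prod.fst_one, Units.val_neg]
                have hv1 : (m' : ZMod q) * ((v⁻¹ : (ZMod q)ˣ) : ZMod q) = 1 := by
                  rw [← hv, Units.mul_inv]
                linear_combination (((p : ZMod q) ^ i + 1) * (t' : ZMod q)) * hv1
              · simp only [Prod.snd_sub, Prod.snd_mul, Prod.snd_add, Prod.pow_snd,
                  Prod.snd_natCast, Prod.snd_one, Units.val_mul]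
                rw [← mul_assoc, ← hP', ← Units.val_pow_eq_pow_val, Units.mul_inv, one_mul,
                  sub_self, mul_zero]
            have h3 : ((u (-t') s : ZMod (q * m'))
                - (p : ZMod (q * m')) ^ i * (u t' ((P' ^ i)⁻¹ * s) : ZMod (q * m'))) * x = 0 := by
              rw [h2, mul_right_comm, h, zero_mul]
            rw [sub_mul, sub_eq_zero, mul_assoc] at h3
            exact h3
          have h4 : ∀ s : (ZMod m')ˣ, PT p (q * m') T ((u (-t') s : ZMod (q * m')) * x)
              = (fun s' : (ZMod m')ˣ => PT p (q * m') T ((u t' s' : ZMod (q * m')) * x))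
                ((P' ^ i)⁻¹ * s) := by
            intro s
            rw [h1 s, PT_mul_p_pow hpT]
          rw [Finset.sum_congr rfl (fun s _ => h4 s)]
          exact (Equiv.sum_comp (Equiv.mulLeft ((P' ^ i)⁻¹)) _).symm
        · rw [Finset.sum_congr rfl (fun s _ => h (u t' s)),
            Finset.sum_congr rfl (fun s _ => h (u (-t') s))]
    have hsum : ∀ t : (ZMod q)ˣ, (γ.map (fun x =>
        ∑ s : (ZMod m')ˣ, PT p (q * m') T ((u t s : ZMod (q * m')) * x))).sum = 0 := by
      intro t
      have h2 : (γ.map (fun x =>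
          ∑ s : (ZMod m')ˣ, PT p (q * m') T ((u t s : ZMod (q * m')) * x))).sum
          = ∑ s : (ZMod m')ˣ, (γ.map (fun x =>
            PT p (q * m') T ((u t s : ZMod (q * m')) * x))).sum :=
        Multiset.sum_map_sum_map γ (Finset.univ : Finset (ZMod m')ˣ).val
      rw [h2]
      exact Finset.sum_eq_zero fun s _ => hs (u t s)
    have h1 : (γ.map (fun x => (∑ s : (ZMod m')ˣ, PT p (q * m') T ((u t' s : ZMod (q * m')) * x))
        - (∑ s : (ZMod m')ˣ, PT p (q * m') T ((u (-t') s : ZMod (q * m')) * x)))).sum = 0 := by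
      rw [Multiset.sum_map_sub, hsum, hsum, sub_zero]
    rw [Multiset.map_congr rfl hG] at h1
    have h2 : (γ.map (fun x => ∑ a : (ZMod q)ˣ, (if x = incl q m' a then
            (Fintype.card (ZMod m')ˣ : ℤ) * (2 * (m' : ℤ)) *
              PT p q T ((t' : ZMod q) * (a : ZMod q)) else 0))).sum
        = ∑ a : (ZMod q)ˣ, (γ.map (fun x => (if x = incl q m' a then
            (Fintype.card (ZMod m')ˣ : ℤ) * (2 * (m' : ℤ)) *
              PT p q T ((t' : ZMod q) * (a : ZMod q)) else 0))).sum :=
      Multiset.sum_map_sum_map γ (Finset.univ : Finset (ZMod q)ˣ).val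
    rw [h2] at h1
    simp only [sum_map_ite] at h1
    have h3 : ∑ a : (ZMod q)ˣ, (γ.count (incl q m' a) : ℤ) *
        ((Fintype.card (ZMod m')ˣ : ℤ) * (2 * (m' : ℤ)) *
          PT p q T ((t' : ZMod q) * (a : ZMod q)))
        = ((Fintype.card (ZMod m')ˣ : ℤ) * (2 * (m' : ℤ))) *
          ∑ a : (ZMod q)ˣ, (γ.count (incl q m' a) : ℤ) *
        PT p q T ((t' : ZMod q) * (a : ZMod q)) := by
      rw [Finset.mul_sum]
      refine Finset.sum_congr rfl fun a _ => ?_
      ring
    rw [h3] at h1
    refine (mul_eq_zero.1 h1).resolve_left ?_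
    have hcard : 0 < Fintype.card (ZMod m')ˣ := Fintype.card_pos
    positivity
  have hPT : (ZMod.unitOfCoprime p hpq) ^ T = 1 := by
    obtain ⟨c, hc'⟩ : Nat.totient q ∣ T := Nat.totient_dvd_of_dvd (dvd_mul_right q m')
    rw [hc', pow_mul, ZMod.pow_totient, one_pow]
  have hP : ((ZMod.unitOfCoprime p hpq : (ZMod q)ˣ) : ZMod q) = p := ZMod.coe_unitOfCoprime p hpq
  have hmain := fourier_even (p := p) hTpos
    (ZMod.unitOfCoprime p hpq) (by rw [hP]; exact hbern) hP hPT
    (fun a => (γ.count (incl q m' a) : ℤ)) hkey b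
  have hpos : 0 < ∑ j ∈ range T,
      (γ.count (incl q m' (((ZMod.unitOfCoprime p hpq) ^ j * b : (ZMod q)ˣ))) : ℤ) := by
    refine Finset.sum_pos' (fun j _ => by positivity) ⟨0, Finset.mem_range.2 hTpos, ?_⟩
    rw [pow_zero, one_mul]
    exact_mod_cast Multiset.count_pos.2 hb
  rw [hmain] at hpos
  obtain ⟨j, _, hj⟩ := Finset.exists_ne_zero_of_sum_ne_zero hpos.ne'
  refine ⟨j, ?_⟩
  have h1 : incl q m' ((-((ZMod.unitOfCoprime p hpq) ^ j * b) : (ZMod q)ˣ)) ∈ γ := by
    rw [← Multiset.count_pos]
    have : γ.count (incl q m' ((-((ZMod.unitOfCoprime p hpq) ^ j * b) : (ZMod q)ˣ))) ≠ 0 := by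
      intro h
      apply hj
      exact_mod_cast h
    omega
  have h2 : incl q m' ((-((ZMod.unitOfCoprime p hpq) ^ j * b) : (ZMod q)ˣ))
      = -((p : ZMod (q * m')) ^ j * incl q m' b) := by
    rw [Units.val_neg, incl_neg, Units.val_mul, Units.val_pow_eq_pow_val, hP]
    have := natCast_mul_incl (d := m') (p ^ j) (b : ZMod q)
    push_cast at this
    rw [this]
  rwa [h2] at h1

end Pool.Agent.Lib.MP_021685_ag.Fermat
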