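import Pool.Agent.Lib.MP_021685_ag.Fermat6

/-!
Pairing of balanced multisets of elements of full order.
-/

namespace Pool.Agent.Lib.MP_021685_ag.Fermat

open Finset

/-- `x` has order `q`, the divisor of `m` prime to `m / q` whose set of primes is `T`. -/
def Full (m : ℕ) (T : Finset ℕ) (x : ZMod m) : Prop :=
  ∃ q m' : ℕ, m = q * m' ∧ Nat.Coprime q m' ∧ 1 < q ∧ q.primeFactors = T ∧
    ∃ c : ℕ, Nat.Coprime c q ∧ x = ((m' * c : ℕ) : ZMod m)

/-- All signed Stickelberger sums of `x` vanish. -/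
def Pure (p m : ℕ) (x : ZMod m) : Prop :=
  ∀ t : (ZMod m)ˣ, PT p m (Nat.totient m) ((t : ZMod m) * x) = 0

lemma Full.ne_zero {m : ℕ} {T : Finset ℕ} [NeZero m] {x : ZMod m} (h : Full m T x) : x ≠ 0 := by
  obtain ⟨q, m', hm, hc, hq, hT, c, hcq, rfl⟩ := h
  intro h0
  rw [ZMod.natCast_eq_zero_iff] at h0
  have hm' : 0 < m' := by
    rcases Nat.eq_zero_or_pos m' with h | h
    · rw [h, mul_zero] at hm
      exact absurd hm (NeZero.ne m)
    · exact h
  rw [hm, mul_comm q m'] at h0
  have h1 : q ∣ c := (Nat.mul_dvd_mul_iff_left hm').1 h0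
  have h2 := Nat.Coprime.eq_one_of_dvd hcq.symm h1
  omega

lemma coprime_of_primeFactors_eq {q q' n : ℕ} (h0 : q ≠ 0) (h0' : q' ≠ 0) (hn : n ≠ 0)
    (h : q.primeFactors = q'.primeFactors) (hc : Nat.Coprime q' n) : Nat.Coprime q n := by
  rw [← Nat.disjoint_primeFactors h0 hn, h, Nat.disjoint_primeFactors h0' hn]
  exact hc

lemma exists_partner {p m : ℕ} [NeZero m] {𝒯 : Set (Finset ℕ)} (hp : Nat.Coprime p m)
    (hsep : Separated p m 𝒯) (γ : Multiset (ZMod m))
    (hγ : ∀ x ∈ γ, Pure p m x ∨ ∃ T ∈ 𝒯, Full m T x)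
    (hs : ∀ t : (ZMod m)ˣ,
      (γ.map (fun x => PT p m (Nat.totient m) ((t : ZMod m) * x))).sum = 0)
    {b : ZMod m} (hb : b ∈ γ) {T : Finset ℕ} (hT : T ∈ 𝒯) (hbl : Full m T b) :
    ∃ i : ℕ, -((p : ZMod m) ^ i * b) ∈ γ := by
  obtain ⟨q, m', hm, hc, hq1, hqT, c, hcq, hbc⟩ := hbl
  subst hm
  have hq0 : NeZero q := ⟨by omega⟩
  have hm'0 : NeZero m' := ⟨fun h => NeZero.ne (q * m') (by rw [h, mul_zero])⟩
  have hpq : Nat.Coprime p q := Nat.Coprime.coprime_dvd_right (dvd_mul_right q m') hp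
  have hfree : Free p q := by
    intro l hl hlq d hd hld
    refine hsep.1 T hT l ?_ d (hd.trans (dvd_mul_right q m')) ?_
    · rw [← hqT]
      exact Nat.mem_primeFactors.2 ⟨hl, hlq, NeZero.ne q⟩
    · intro x hx
      rw [Finset.mem_erase]
      refine ⟨?_, ?_⟩
      · rintro rfl
        exact hld (Nat.dvd_of_mem_primeFactors hx)
      · rw [← hqT]
        exact Nat.primeFactors_mono hd (NeZero.ne q) hx
  have hbern : ∀ ψ : DirichletCharacter ℂ q, ψ.Odd → ψ (p : ZMod q) = 1 →
      ∑ x : ZMod q, ψ x * (x.val : ℂ) ≠ 0 :=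
    fun ψ hψ hψp => sum_odd_ne_zero hpq hfree ψ hψ hψp
  have hb' : b = incl q m' ((ZMod.unitOfCoprime c hcq : (ZMod q)ˣ) : ZMod q) := by
    rw [ZMod.coe_unitOfCoprime, incl_natCast, hbc]
  rw [hb'] at hb ⊢
  refine partner hq1 hbern hc hp γ ?_ hs _ hb
  intro x hx
  rcases hγ x hx with h | ⟨T', hT', q', m'', hm'', hc', hq1', hqT', c', hcq', hxc⟩
  · exact Or.inr (Or.inr h)
  · have hm''0 : m'' ≠ 0 := by
      rintro rfl
      rw [mul_zero] at hm''
      exact NeZero.ne (q * m') hm''
    by_cases hTT : T' = T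
    · left
      have h5 : q.primeFactors = q'.primeFactors := by rw [hqT, hqT', hTT]
      have h1 : q ∣ q' := by
        have : q ∣ q' * m'' := ⟨m', hm''.symm⟩
        exact Nat.Coprime.dvd_of_dvd_mul_right
          (coprime_of_primeFactors_eq (by omega) (by omega) hm''0 h5 hc') this
      have h2 : q' ∣ q := by
        have : q' ∣ q * m' := ⟨m'', hm''⟩
        exact Nat.Coprime.dvd_of_dvd_mul_right
          (coprime_of_primeFactors_eq (by omega) (by omega) (NeZero.ne m') h5.symm hc) this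
      have h3 : q = q' := Nat.dvd_antisymm h1 h2
      have h4 : m' = m'' := by
        rw [← h3] at hm''
        exact Nat.eq_of_mul_eq_mul_left (by omega) hm''
      have hcq'' : Nat.Coprime c' q := h3 ▸ hcq'
      refine ⟨ZMod.unitOfCoprime c' hcq'', ?_⟩
      rw [ZMod.coe_unitOfCoprime, incl_natCast, hxc, h4]
    · right
      left
      obtain ⟨i, hi⟩ := hsep.2 T hT T' hT' (Ne.symm hTT) (Nat.gcd q q')
        ((Nat.gcd_dvd_left q q').trans (dvd_mul_right q m')) (by
          intro x hx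
          rw [Finset.mem_inter]
          exact ⟨hqT ▸ Nat.primeFactors_mono (Nat.gcd_dvd_left q q') (by omega) hx,
            hqT' ▸ Nat.primeFactors_mono (Nat.gcd_dvd_right q q') (by omega) hx⟩)
      refine ⟨i, ?_⟩
      have h1 : Nat.gcd q q' ∣ p ^ i + 1 := by
        rw [← ZMod.natCast_eq_zero_iff]
        push_cast at hi ⊢
        rw [hi]
        ring
      have h2 : q ∣ Nat.gcd q q' * m'' := by
        rw [← Nat.gcd_mul_right]
        exact Nat.dvd_gcd (dvd_mul_right q m'') ⟨m', hm''.symm⟩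
      have h3 : q ∣ (p ^ i + 1) * m'' := h2.trans (Nat.mul_dvd_mul_right h1 m'')
      have h4 : q * m' ∣ (p ^ i + 1) * m' * (m'' * c') := by
        obtain ⟨s, hs'⟩ := h3
        refine ⟨s * c', ?_⟩
        calc (p ^ i + 1) * m' * (m'' * c') = ((p ^ i + 1) * m'') * m' * c' := by ring
          _ = q * s * m' * c' := by rw [hs']
          _ = q * m' * (s * c') := by ring
      rw [← ZMod.natCast_eq_zero_iff] at h4
      rw [hxc]
      push_cast at h4 ⊢
      exact h4

lemma pair_isElem {p m : ℕ} {Q : ℕ → Prop} {a b : ZMod m} (ha : a ≠ 0) (hb : b ≠ 0)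
    (h : ∀ t : (ZMod m)ˣ, PT p m (Nat.totient m) ((t : ZMod m) * a)
      + PT p m (Nat.totient m) ((t : ZMod m) * b) = 0) : IsElem p m Q {a, b} := by
  refine Or.inl ⟨?_, rfl⟩
  rw [isBalanced_iff]
  refine ⟨?_, ⟨1, rfl⟩, ?_⟩
  · intro h0
    simp only [Multiset.insert_eq_cons, Multiset.mem_cons, Multiset.mem_singleton] at h0
    rcases h0 with h0 | h0
    · exact ha h0.symm
    · exact hb h0.symm
  · intro t
    simp only [Multiset.insert_eq_cons, Multiset.map_cons, Multiset.map_singleton,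
      Multiset.sum_cons, Multiset.sum_singleton]
    exact h t

theorem pair_up {p m : ℕ} [NeZero m] {Q : ℕ → Prop} {𝒯 : Set (Finset ℕ)} (hp : Nat.Coprime p m)
    (hsep : Separated p m 𝒯) :
    ∀ (n : ℕ) (γ : Multiset (ZMod m)), Multiset.card γ = n → Even n → (0 : ZMod m) ∉ γ →
      (∀ x ∈ γ, Pure p m x ∨ ∃ T ∈ 𝒯, Full m T x) →
      (∀ t : (ZMod m)ˣ,
        (γ.map (fun x => PT p m (Nat.totient m) ((t : ZMod m) * x))).sum = 0) →
      Eqv {δ | IsElem p m Q δ} γ 0 := by
  classical
  intro n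
  induction n using Nat.strong_induction_on with
  | _ n ih =>
    intro γ hn hev h0 hγ hs
    have hpu : IsUnit (p : ZMod m) := (ZMod.isUnit_iff_coprime p m).2 hp
    -- removal of a balanced pair
    have key : ∀ (a b : ZMod m) (γ' : Multiset (ZMod m)), γ = a ::ₘ b ::ₘ γ' →
        (∀ t : (ZMod m)ˣ, PT p m (Nat.totient m) ((t : ZMod m) * a)
          + PT p m (Nat.totient m) ((t : ZMod m) * b) = 0) →
        Eqv {δ | IsElem p m Q δ} γ 0 := by
      intro a b γ' hγ' hab
      have ha : a ≠ 0 := by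
        rintro rfl
        exact h0 (by rw [hγ']; exact Multiset.mem_cons_self _ _)
      have hb : b ≠ 0 := by
        rintro rfl
        exact h0 (by rw [hγ']; exact Multiset.mem_cons_of_mem (Multiset.mem_cons_self _ _))
      have hcard : Multiset.card γ' + 2 = n := by
        rw [← hn, hγ', Multiset.card_cons, Multiset.card_cons]
      have hsub : ∀ x ∈ γ', x ∈ γ := fun x hx => by
        rw [hγ']
        exact Multiset.mem_cons_of_mem (Multiset.mem_cons_of_mem hx)
      have h1 : Eqv {δ | IsElem p m Q δ} γ' 0 := by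
        refine ih (Multiset.card γ') (by omega) γ' rfl ?_ (fun h => h0 (hsub _ h))
          (fun x hx => hγ x (hsub x hx)) ?_
        · obtain ⟨r, hr⟩ := hev
          exact ⟨r - 1, by omega⟩
        · intro t
          have h2 := hs t
          rw [hγ', Multiset.map_cons, Multiset.map_cons, Multiset.sum_cons, Multiset.sum_cons] at h2
          have h3 := hab t
          linarith
      have h2 : Eqv {δ | IsElem p m Q δ} ({a, b} : Multiset (ZMod m)) 0 :=
        Eqv.of_mem (pair_isElem ha hb hab)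
      have h3 := h2.add h1
      rw [add_zero] at h3
      have h4 : γ = ({a, b} : Multiset (ZMod m)) + γ' := by
        rw [hγ', Multiset.insert_eq_cons, Multiset.cons_add, Multiset.singleton_add]
      rw [h4]
      exact h3
    by_cases hall : ∀ x ∈ γ, Pure p m x
    · -- all pure
      rcases Multiset.empty_or_exists_mem γ with h | ⟨a, ha⟩
      · rw [h]
        exact Eqv.refl _ _
      · obtain ⟨γ1, hγ1⟩ := Multiset.exists_cons_of_mem ha
        rcases Multiset.empty_or_exists_mem γ1 with h | ⟨b, hb⟩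
        · exfalso
          rw [hγ1, h] at hn
          simp only [Multiset.cons_zero, Multiset.card_singleton] at hn
          rw [← hn] at hev
          exact absurd hev (by decide)
        · obtain ⟨γ2, hγ2⟩ := Multiset.exists_cons_of_mem hb
          refine key a b γ2 (by rw [hγ1, hγ2]) ?_
          intro t
          rw [hall a ha t, hall b (by rw [hγ1]; exact Multiset.mem_cons_of_mem hb) t, add_zero]
    · push Not at hall
      obtain ⟨b, hb, hbp⟩ := hall
      obtain ⟨T, hT, hbl⟩ := (hγ b hb).resolve_left hbp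
      obtain ⟨i, hi⟩ := exists_partner hp hsep γ hγ hs hb hT hbl
      have hneg : ∀ t : (ZMod m)ˣ, PT p m (Nat.totient m) ((t : ZMod m) * b)
          + PT p m (Nat.totient m) ((t : ZMod m) * (-((p : ZMod m) ^ i * b))) = 0 := by
        intro t
        have hne : (t : ZMod m) * b ≠ 0 := fun h =>
          hbl.ne_zero (t.isUnit.mul_left_cancel (by rw [h, mul_zero]))
        have h1 : (t : ZMod m) * (-((p : ZMod m) ^ i * b))
            = (p : ZMod m) ^ i * (-((t : ZMod m) * b)) := by ring
        rw [h1, PT_mul_p_pow (pow_totient' hp), PT_neg hpu hne]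
        ring
      have hcb : -((p : ZMod m) ^ i * b) ≠ b := by
        intro h
        apply hbp
        intro t
        have := hneg t
        rw [h] at this
        linarith
      obtain ⟨γ1, hγ1⟩ := Multiset.exists_cons_of_mem hb
      have hi' : -((p : ZMod m) ^ i * b) ∈ γ1 := by
        rw [hγ1] at hi
        exact (Multiset.mem_cons.1 hi).resolve_left hcb
      obtain ⟨γ2, hγ2⟩ := Multiset.exists_cons_of_mem hi'
      exact key b _ γ2 (by rw [hγ1, hγ2]) hneg

end Pool.Agent.Lib.MP_021685_ag.Fermat
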