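import Pool.Agent.Lib.MP_021685_ag.Fermat7

/-!
Reduction to elements of full order, and the main theorem.
-/

namespace Pool.Agent.Lib.MP_021685_ag.Fermat

open Finset

/-- `x` is nonzero and either pure or of full order. -/
def Basic (p m : ℕ) (𝒯 : Set (Finset ℕ)) (x : ZMod m) : Prop :=
  x ≠ 0 ∧ (Pure p m x ∨ ∃ T ∈ 𝒯, Full m T x)

lemma Eqv.of_add {A : Type*} {G : Set (Multiset A)} {a b w : Multiset A}
    (h1 : Eqv G (a + w) 0) (h2 : Eqv G (w + b) 0) : Eqv G a b := by
  have h3 := h2.add_left a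
  have h4 := h1.add_right b
  rw [← add_assoc, add_zero] at h3
  rw [zero_add] at h4
  exact h3.symm.trans h4

lemma pure_of_two_torsion {p m : ℕ} [NeZero m] (hp : Nat.Coprime p m) {x : ZMod m} (hx : x ≠ 0)
    (h2 : 2 * x = 0) : Pure p m x := by
  intro t
  refine PT_two_torsion ((ZMod.isUnit_iff_coprime p m).2 hp)
    (fun h => hx (t.isUnit.mul_left_cancel (by rw [h, mul_zero]))) ?_
  rw [mul_left_comm, h2, mul_zero]

lemma neg_pair {p m : ℕ} [NeZero m] {Q : ℕ → Prop} (hp : Nat.Coprime p m) {x : ZMod m}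
    (hx : x ≠ 0) : Eqv {δ | IsElem p m Q δ} ({-x} + {x}) 0 := by
  have h : IsElem p m Q ({-x, x} : Multiset (ZMod m)) := by
    refine pair_isElem (neg_ne_zero.2 hx) hx fun t => ?_
    rw [mul_neg, PT_neg ((ZMod.isUnit_iff_coprime p m).2 hp)
      (fun h => hx (t.isUnit.mul_left_cancel (by rw [h, mul_zero])))]
    ring
  exact Eqv.of_mem (G := {δ | IsElem p m Q δ}) h

lemma exists_family {p m : ℕ} {Q : ℕ → Prop} {𝒯 : Set (Finset ℕ)} (W : Multiset (ZMod m))
    (h : ∀ u ∈ W, ∃ U : Multiset (ZMod m), (∀ v ∈ U, Basic p m 𝒯 v) ∧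
      Eqv {δ | IsElem p m Q δ} {u} U) :
    ∃ U : Multiset (ZMod m), (∀ v ∈ U, Basic p m 𝒯 v) ∧ Eqv {δ | IsElem p m Q δ} W U := by
  induction W using Multiset.induction_on with
  | empty => exact ⟨0, by simp, Eqv.refl _ _⟩
  | cons a s ih =>
    obtain ⟨U, hU, hE⟩ := ih (fun u hu => h u (Multiset.mem_cons_of_mem hu))
    obtain ⟨V, hV, hF⟩ := h a (Multiset.mem_cons_self a s)
    refine ⟨V + U, ?_, ?_⟩
    · intro v hv
      rcases Multiset.mem_add.1 hv with hv | hv
      · exact hV v hv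
      · exact hU v hv
    · rw [← Multiset.singleton_add]
      exact hF.add hE

/-- `x` has order `r` (as an explicit multiple). -/
def Lv (m r : ℕ) (x : ZMod m) : Prop :=
  r ∣ m ∧ ∃ c : ℕ, Nat.Coprime c r ∧ x = ((m / r * c : ℕ) : ZMod m)

lemma Lv.ne_zero {m r : ℕ} [NeZero m] (hr : 1 < r) {x : ZMod m}
    (h : Lv m r x) : x ≠ 0 := by
  obtain ⟨⟨e, he⟩, c, hc, rfl⟩ := h
  intro h0
  rw [ZMod.natCast_eq_zero_iff] at h0
  have he0 : 0 < e := by
    rcases Nat.eq_zero_or_pos e with h | h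
    · rw [h, mul_zero] at he
      exact absurd he (NeZero.ne m)
    · exact h
  have h1 : m / r = e := by rw [he, Nat.mul_div_cancel_left _ (by omega)]
  rw [h1, he, mul_comm r e] at h0
  have h2 : r ∣ c := (Nat.mul_dvd_mul_iff_left he0).1 h0
  have h3 := Nat.Coprime.eq_one_of_dvd hc.symm h2
  omega

lemma Lv.full {m r : ℕ} [NeZero m] (hr : 1 < r) {x : ZMod m}
    (h : Lv m r x) (hmax : Nat.Coprime r (m / r)) : Full m r.primeFactors x := by
  obtain ⟨hd, c, hc, hx⟩ := h
  exact ⟨r, m / r, (Nat.mul_div_cancel' hd).symm, hmax, hr, rfl, c, hc, hx⟩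

/-- One step up in the tower of levels. -/
lemma Lv.up {p m r l : ℕ} [NeZero m] {Q : ℕ → Prop} (hp : Nat.Coprime p m)
    (hQ : ∀ l, l.Prime → l ^ 2 ∣ m → Q l) (hr : 1 < r) {x : ZMod m}
    (h : Lv m r x) (hl : l.Prime) (hlr : l ∣ r) (hup : l * r ∣ m) :
    ∃ U : Multiset (ZMod m), (∀ u ∈ U, Lv m (l * r) u ∨ (u ≠ 0 ∧ Pure p m u)) ∧
      Eqv {δ | IsElem p m Q δ} {x} U := by
  have hx0 := h.ne_zero hr
  obtain ⟨_, c, hc, hx⟩ := h
  obtain ⟨e, he⟩ := hup
  have hd1 : m / (l * r) = e := by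
    conv_lhs => rw [he]
    rw [Nat.mul_div_cancel_left _ (Nat.mul_pos hl.pos (by omega))]
  have hd2 : m / r = l * e := by
    conv_lhs => rw [he, mul_comm l r, mul_assoc]
    rw [Nat.mul_div_cancel_left _ (by omega)]
  have hd3 : m / l = r * e := by
    conv_lhs => rw [he, mul_assoc]
    rw [Nat.mul_div_cancel_left _ hl.pos]
  have hlm : l ∣ m := ⟨r * e, by rw [he]; ring⟩
  set y : ZMod m := ((e * c : ℕ) : ZMod m) with hy
  have hly : (l : ZMod m) * y = x := by
    rw [hx, hd2, hy]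
    push_cast
    ring
  have hfib : ∀ i : ℕ, Lv m (l * r) (y + ((i * (m / l) : ℕ) : ZMod m)) := by
    intro i
    refine ⟨⟨e, he⟩, c + i * r, ?_, ?_⟩
    · have h1 : Nat.Coprime (c + i * r) r := (Nat.coprime_add_mul_right_left c r i).2 hc
      exact Nat.Coprime.mul_right (Nat.Coprime.coprime_dvd_right hlr h1) h1
    · rw [hd1, hd3, hy]
      push_cast
      ring
  by_cases hl2 : l = 2
  · subst hl2
    have h2y : 2 * y = x := by
      have := hly
      push_cast at this
      exact this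
    obtain ⟨hh, hh0⟩ := half_facts hlm
    refine ⟨{y, y + ((m / 2 : ℕ) : ZMod m), ((m / 2 : ℕ) : ZMod m)}, ?_, ?_⟩
    · intro u hu
      simp only [Multiset.insert_eq_cons, Multiset.mem_cons, Multiset.mem_singleton] at hu
      rcases hu with rfl | rfl | rfl
      · left
        have := hfib 0
        simpa using this
      · left
        have := hfib 1
        simpa using this
      · right
        exact ⟨hh0, pure_of_two_torsion hp hh0 hh⟩
    · have h1 : IsElem p m Q (std2 m y) := Or.inr (Or.inr ⟨y, hlm, by rw [h2y]; exact hx0, rfl⟩)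
      have h2 : Eqv {δ | IsElem p m Q δ}
          (({y, y + ((m / 2 : ℕ) : ZMod m), ((m / 2 : ℕ) : ZMod m)} : Multiset (ZMod m))
            + {-x}) 0 := by
        have h3 : (({y, y + ((m / 2 : ℕ) : ZMod m), ((m / 2 : ℕ) : ZMod m)} : Multiset (ZMod m))
            + {-x}) = std2 m y := by
          unfold std2
          rw [h2y]
          simp only [Multiset.insert_eq_cons, Multiset.cons_add, Multiset.singleton_add]
          exact congrArg _ (congrArg _ (Multiset.pair_comm _ _))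
        rw [h3]
        exact Eqv.of_mem (G := {δ | IsElem p m Q δ}) h1
      exact (Eqv.of_add h2 (neg_pair hp hx0)).symm
  · have h1 : IsElem p m Q (std m l y) := by
      refine Or.inr (Or.inl ⟨l, y, hl, hl2, hlm, hQ l hl ?_, by rw [hly]; exact hx0, rfl⟩)
      obtain ⟨s, hs⟩ := hlr
      exact ⟨s * e, by rw [he, hs]; ring⟩
    refine ⟨(Multiset.range l).map (fun i => y + ((i * (m / l) : ℕ) : ZMod m)), ?_, ?_⟩
    · intro u hu
      obtain ⟨i, _, rfl⟩ := Multiset.mem_map.1 hu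
      exact Or.inl (hfib i)
    · have h2 : Eqv {δ | IsElem p m Q δ}
          ((Multiset.range l).map (fun i => y + ((i * (m / l) : ℕ) : ZMod m)) + {-x}) 0 := by
        have h3 : ((Multiset.range l).map (fun i => y + ((i * (m / l) : ℕ) : ZMod m)) + {-x})
            = std m l y := by
          unfold std
          rw [hly]
        rw [h3]
        exact Eqv.of_mem (G := {δ | IsElem p m Q δ}) h1
      exact (Eqv.of_add h2 (neg_pair hp hx0)).symm

lemma Lv.reduce {p m : ℕ} [NeZero m] {Q : ℕ → Prop} {𝒯 : Set (Finset ℕ)} (hp : Nat.Coprime p m)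
    (hQ : ∀ l, l.Prime → l ^ 2 ∣ m → Q l) :
    ∀ (n r : ℕ) (x : ZMod m), m / r = n → 1 < r → r.primeFactors ∈ 𝒯 → Lv m r x →
      ∃ U : Multiset (ZMod m), (∀ v ∈ U, Basic p m 𝒯 v) ∧ Eqv {δ | IsElem p m Q δ} {x} U := by
  intro n
  induction n using Nat.strong_induction_on with
  | _ n ih =>
    intro r x hn hr hT hx
    by_cases hmax : Nat.Coprime r (m / r)
    · refine ⟨{x}, ?_, Eqv.refl _ _⟩
      intro v hv
      rw [Multiset.mem_singleton.1 hv]
      exact ⟨hx.ne_zero hr, Or.inr ⟨_, hT, hx.full hr hmax⟩⟩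
    · obtain ⟨l, hl, hlr, hlm⟩ := Nat.Prime.not_coprime_iff_dvd.1 hmax
      have hrm := hx.1
      have hup : l * r ∣ m := by
        obtain ⟨s, hs⟩ := hlm
        exact ⟨s, by rw [← Nat.mul_div_cancel' hrm, hs]; ring⟩
      obtain ⟨U, hU, hE⟩ := hx.up hp hQ hr hl hlr hup
      have hpf : (l * r).primeFactors = r.primeFactors := by
        rw [Nat.primeFactors_mul hl.ne_zero (by omega), hl.primeFactors]
        exact Finset.union_eq_right.2 (Finset.singleton_subset_iff.2
          (Nat.mem_primeFactors.2 ⟨hl, hlr, by omega⟩))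
      have hlt : m / (l * r) < n := by
        obtain ⟨e, he⟩ := hup
        have hm0 := Nat.pos_of_ne_zero (NeZero.ne m)
        have he0 : 0 < e := by
          rcases Nat.eq_zero_or_pos e with h | h
          · rw [h, mul_zero] at he
            omega
          · exact h
        have h1 : m / (l * r) = e := by
          conv_lhs => rw [he]
          rw [Nat.mul_div_cancel_left _ (Nat.mul_pos hl.pos (by omega))]
        have h2 : m / r = l * e := by
          conv_lhs => rw [he, mul_comm l r, mul_assoc]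
          rw [Nat.mul_div_cancel_left _ (by omega)]
        rw [h1, ← hn, h2]
        exact (Nat.lt_mul_iff_one_lt_left he0).2 hl.one_lt
      obtain ⟨V, hV, hF⟩ := exists_family (p := p) (Q := Q) (𝒯 := 𝒯) U (by
        intro u hu
        rcases hU u hu with h | ⟨h0, h⟩
        · refine ih (m / (l * r)) hlt (l * r) u rfl ?_ ?_ h
          · exact hr.trans_le (Nat.le_mul_of_pos_left r hl.pos)
          · rw [hpf]
            exact hT
        · refine ⟨{u}, ?_, Eqv.refl _ _⟩
          intro v hv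
          rw [Multiset.mem_singleton.1 hv]
          exact ⟨h0, Or.inl h⟩)
      exact ⟨V, hV, hE.trans hF⟩

lemma Lv.neg {m r : ℕ} [NeZero m] (hr : 0 < r) {x : ZMod m} (h : Lv m r x) : Lv m r (-x) := by
  obtain ⟨hd, c, hc, hx⟩ := h
  refine ⟨hd, (r - 1) * c, ?_, ?_⟩
  · refine Nat.Coprime.mul_left ?_ hc
    have h1 : Nat.Coprime (r - 1) (r - 1 + 1) := by simp
    rwa [Nat.sub_add_cancel hr] at h1
  · rw [hx]
    have h1 : ((m / r * ((r - 1) * c) : ℕ) : ZMod m) + ((m / r * c : ℕ) : ZMod m) = 0 := by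
      have h2 : m / r * ((r - 1) * c) + m / r * c = m * c := by
        have h3 : m / r * ((r - 1) * c) + m / r * c = m / r * ((r - 1) + 1) * c := by ring
        rw [h3, Nat.sub_add_cancel hr, Nat.div_mul_cancel hd]
      have h4 : ((m / r * ((r - 1) * c) + m / r * c : ℕ) : ZMod m) = 0 := by
        rw [h2, Nat.cast_mul, ZMod.natCast_self, zero_mul]
      rw [Nat.cast_add] at h4
      exact h4
    exact (eq_neg_of_add_eq_zero_left h1).symm

/-- Elements in terms of their order. -/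
lemma order_rep {m : ℕ} [NeZero m] (b : ZMod m) : Lv m (addOrderOf b) b := by
  have hm : 0 < m := Nat.pos_of_ne_zero (NeZero.ne m)
  have h1 : addOrderOf b = m / m.gcd b.val := by
    have := ZMod.addOrderOf_coe b.val (NeZero.ne m)
    rwa [ZMod.natCast_zmod_val] at this
  have hg : 0 < m.gcd b.val := Nat.gcd_pos_of_pos_left _ hm
  have hgm : m.gcd b.val ∣ m := Nat.gcd_dvd_left _ _
  have h2 : m / (m / m.gcd b.val) = m.gcd b.val := Nat.div_div_self hgm hm.ne'
  refine ⟨by rw [h1]; exact Nat.div_dvd_of_dvd hgm, b.val / m.gcd b.val, ?_, ?_⟩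
  · rw [h1]
    exact (Nat.coprime_div_gcd_div_gcd hg).symm
  · rw [h1, h2, Nat.mul_div_cancel' (Nat.gcd_dvd_right _ _), ZMod.natCast_zmod_val]

lemma reduce_order {p m r : ℕ} [NeZero m] {Q : ℕ → Prop} {𝒯 : Set (Finset ℕ)}
    (hp : Nat.Coprime p m) (hQ : ∀ l, l.Prime → l ^ 2 ∣ m → Q l) (hT : r.primeFactors ∈ 𝒯)
    {b : ZMod m} (hb0 : b ≠ 0) (hb : addOrderOf b = r) :
    ∃ U : Multiset (ZMod m), (∀ v ∈ U, Basic p m 𝒯 v) ∧ Eqv {δ | IsElem p m Q δ} {b} U := by
  have h1 := order_rep b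
  rw [hb] at h1
  have hr : 1 < r := by
    have h2 : 0 < r := Nat.pos_of_dvd_of_pos h1.1 (Nat.pos_of_ne_zero (NeZero.ne m))
    have h3 : r ≠ 1 := by
      rintro rfl
      exact hb0 (AddMonoid.addOrderOf_eq_one_iff.1 hb)
    omega
  exact Lv.reduce hp hQ (m / r) r b rfl hr hT h1

lemma reduce_twice_order {p m r : ℕ} [NeZero m] {Q : ℕ → Prop} {𝒯 : Set (Finset ℕ)}
    (hp : Nat.Coprime p m) (hQ : ∀ l, l.Prime → l ^ 2 ∣ m → Q l) (hT : r.primeFactors ∈ 𝒯)
    {b : ZMod m} (hb0 : b ≠ 0) (hb : addOrderOf b = 2 * r) :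
    ∃ U : Multiset (ZMod m), (∀ v ∈ U, Basic p m 𝒯 v) ∧ Eqv {δ | IsElem p m Q δ} {b} U := by
  have hrep := order_rep b
  rw [hb] at hrep
  have hr0 : 0 < r := by
    rcases Nat.eq_zero_or_pos r with h | h
    · rw [h, mul_zero] at hrep
      exact absurd (Nat.eq_zero_of_zero_dvd hrep.1) (NeZero.ne m)
    · exact h
  by_cases hl2 : 2 ∣ r
  · refine reduce_order (r := 2 * r) hp hQ ?_ hb0 hb
    have hpf : (2 * r).primeFactors = r.primeFactors := by
      rw [Nat.primeFactors_mul (by norm_num) (by omega), Nat.prime_two.primeFactors]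
      exact Finset.union_eq_right.2 (Finset.singleton_subset_iff.2
        (Nat.mem_primeFactors.2 ⟨Nat.prime_two, hl2, by omega⟩))
    rw [hpf]
    exact hT
  by_cases hr1 : r = 1
  · refine ⟨{b}, ?_, Eqv.refl _ _⟩
    intro v hv
    rw [Multiset.mem_singleton.1 hv]
    refine ⟨hb0, Or.inl (pure_of_two_torsion hp hb0 ?_)⟩
    have := addOrderOf_nsmul_eq_zero b
    rw [hb, hr1, mul_one, nsmul_eq_mul] at this
    exact_mod_cast this
  have hr : 1 < r := by omega
  have hodd : Odd r := by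
    rw [← Nat.not_even_iff_odd, even_iff_two_dvd]
    exact hl2
  have hc2r : Nat.Coprime 2 r := Nat.coprime_two_left.2 hodd
  obtain ⟨hd, c, hc, hbc⟩ := hrep
  obtain ⟨e, he⟩ := hd
  have hd1 : m / (2 * r) = e := by
    conv_lhs => rw [he]
    rw [Nat.mul_div_cancel_left _ (by positivity)]
  have hd2 : m / r = 2 * e := by
    conv_lhs => rw [he, mul_comm 2 r, mul_assoc]
    rw [Nat.mul_div_cancel_left _ hr0]
  have hd3 : m / 2 = r * e := by
    conv_lhs => rw [he, mul_assoc]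
    rw [Nat.mul_div_cancel_left _ (by norm_num)]
  have h2m : 2 ∣ m := ⟨r * e, by rw [he]; ring⟩
  obtain ⟨hh, hh0⟩ := half_facts h2m
  have hcr : Nat.Coprime c r := Nat.Coprime.coprime_dvd_right (dvd_mul_left r 2) hc
  have hc2 : Odd c := by
    have h1 : Nat.Coprime c 2 := Nat.Coprime.coprime_dvd_right (dvd_mul_right 2 r) hc
    exact Nat.coprime_two_right.1 h1
  -- the odd part
  obtain ⟨c', hc'⟩ : ∃ c', c + r = 2 * c' := by
    obtain ⟨s, hs⟩ := hc2.add_odd hodd
    exact ⟨s, by rw [hs]; ring⟩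
  have hcr' : Nat.Coprime c' r := by
    have h1 : Nat.Coprime (2 * c') r := by
      rw [← hc']
      exact (Nat.coprime_add_self_left).2 hcr
    exact Nat.Coprime.coprime_dvd_left (dvd_mul_left c' 2) h1
  set y : ZMod m := ((2 * e * c' : ℕ) : ZMod m) with hy
  have hyb : y = b + ((m / 2 : ℕ) : ZMod m) := by
    rw [hbc, hd1, hd3, hy]
    have h1 : 2 * e * c' = e * c + r * e := by
      have : 2 * e * c' = e * (2 * c') := by ring
      rw [this, ← hc']
      ring
    rw [h1]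
    push_cast
    ring
  have hby : b = y + ((m / 2 : ℕ) : ZMod m) := by
    rw [hyb, add_assoc, ← two_mul, hh, add_zero]
  have hLvy : Lv m r y := ⟨⟨2 * e, by rw [he]; ring⟩, c', hcr', by rw [hd2, hy]⟩
  have hLv2y : Lv m r (2 * y) := by
    refine ⟨⟨2 * e, by rw [he]; ring⟩, 2 * c', Nat.Coprime.mul_left hc2r hcr', ?_⟩
    rw [hd2, hy]
    push_cast
    ring
  have hy0 := hLvy.ne_zero hr
  have h2y0 := hLv2y.ne_zero hr
  have hLvneg : Lv m r (-y) := hLvy.neg hr0
  have hE : Eqv {δ | IsElem p m Q δ} {b}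
      ({-y, 2 * y, ((m / 2 : ℕ) : ZMod m)} : Multiset (ZMod m)) := by
    have h1 : Eqv {δ | IsElem p m Q δ} (std2 m y) 0 :=
      Eqv.of_mem (G := {δ | IsElem p m Q δ}) (Or.inr (Or.inr ⟨y, h2m, h2y0, rfl⟩))
    have h2 : std2 m y = {b} + ({y, -(2 * y), ((m / 2 : ℕ) : ZMod m)} : Multiset (ZMod m)) := by
      unfold std2
      rw [← hby]
      simp only [Multiset.insert_eq_cons, Multiset.singleton_add]
      rw [Multiset.cons_swap]
    rw [h2] at h1
    refine Eqv.of_add h1 ?_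
    have h3 : ({y, -(2 * y), ((m / 2 : ℕ) : ZMod m)} : Multiset (ZMod m))
        + ({-y, 2 * y, ((m / 2 : ℕ) : ZMod m)} : Multiset (ZMod m))
        = ({-y} + {y}) + (({-(2 * y)} + {2 * y}) +
          ({-((m / 2 : ℕ) : ZMod m)} + {((m / 2 : ℕ) : ZMod m)})) := by
      have h4 : -((m / 2 : ℕ) : ZMod m) = ((m / 2 : ℕ) : ZMod m) := by
        refine neg_eq_of_add_eq_zero_left ?_
        rw [← two_mul]
        exact hh
      rw [h4]
      simp only [Multiset.insert_eq_cons, ← Multiset.singleton_add]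
      abel
    rw [h3]
    have h5 := (neg_pair (Q := Q) hp hy0).add
      ((neg_pair (Q := Q) hp h2y0).add (neg_pair (Q := Q) hp hh0))
    rwa [add_zero, add_zero] at h5
  obtain ⟨V, hV, hF⟩ := exists_family (p := p) (Q := Q) (𝒯 := 𝒯)
    ({-y, 2 * y, ((m / 2 : ℕ) : ZMod m)} : Multiset (ZMod m)) (by
      intro u hu
      simp only [Multiset.insert_eq_cons, Multiset.mem_cons, Multiset.mem_singleton] at hu
      rcases hu with rfl | rfl | rfl
      · exact Lv.reduce hp hQ _ r _ rfl hr hT hLvneg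
      · exact Lv.reduce hp hQ _ r _ rfl hr hT hLv2y
      · refine ⟨{((m / 2 : ℕ) : ZMod m)}, ?_, Eqv.refl _ _⟩
        intro v hv
        rw [Multiset.mem_singleton.1 hv]
        exact ⟨hh0, Or.inl (pure_of_two_torsion hp hh0 hh)⟩)
  exact ⟨V, hV, hE.trans hF⟩

/-! ### Transfer of balancedness -/

lemma isElem_balanced {p m : ℕ} [NeZero m] {Q : ℕ → Prop} (hp : Nat.Coprime p m)
    {γ : Multiset (ZMod m)} (h : IsElem p m Q γ) : IsBalanced p m γ := by
  have hpu : IsUnit (p : ZMod m) := (ZMod.isUnit_iff_coprime p m).2 hp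
  rcases h with ⟨hb, _⟩ | ⟨l, y, hl, hl2, hlm, _, hy, rfl⟩ | ⟨y, h2, hy, rfl⟩
  · exact hb
  · have : NeZero l := ⟨hl.ne_zero⟩
    exact std_balanced hpu hlm (hl.odd_of_ne_two hl2) hy
  · exact std2_balanced hpu h2 hy

lemma family_balanced {p m : ℕ} [NeZero m] {Q : ℕ → Prop} (hp : Nat.Coprime p m)
    (C : Multiset (Multiset (ZMod m))) (hC : ∀ γ ∈ C, IsElem p m Q γ) :
    Even (Multiset.card C.sum) ∧ ∀ t : (ZMod m)ˣ,
      (C.sum.map (fun x => PT p m (Nat.totient m) ((t : ZMod m) * x))).sum = 0 := by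
  induction C using Multiset.induction_on with
  | empty => simp
  | cons γ s ih =>
    obtain ⟨h1, h2⟩ := ih (fun δ hδ => hC δ (Multiset.mem_cons_of_mem hδ))
    have h3 := isElem_balanced hp (hC γ (Multiset.mem_cons_self γ s))
    rw [isBalanced_iff] at h3
    refine ⟨?_, ?_⟩
    · rw [Multiset.sum_cons, Multiset.card_add]
      exact h3.2.1.add h1
    · intro t
      rw [Multiset.sum_cons, Multiset.map_add, Multiset.sum_add, h3.2.2 t, h2 t, add_zero]

lemma eqv_transfer {p m : ℕ} [NeZero m] {Q : ℕ → Prop} (hp : Nat.Coprime p m)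
    {α γ : Multiset (ZMod m)} (h : Eqv {δ | IsElem p m Q δ} α γ) (hα : IsBalanced p m α) :
    Even (Multiset.card γ) ∧ ∀ t : (ZMod m)ˣ,
      (γ.map (fun x => PT p m (Nat.totient m) ((t : ZMod m) * x))).sum = 0 := by
  obtain ⟨C, D, hC, hD, h⟩ := h
  obtain ⟨c1, c2⟩ := family_balanced hp C hC
  obtain ⟨d1, d2⟩ := family_balanced hp D hD
  rw [isBalanced_iff] at hα
  refine ⟨?_, ?_⟩
  · have h1 := congrArg Multiset.card h
    rw [Multiset.card_add, Multiset.card_add] at h1
    have h2 : Even (Multiset.card γ + Multiset.card D.sum) := by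
      rw [← h1]
      exact hα.2.1.add c1
    exact (Nat.even_add.1 h2).2 d1
  · intro t
    have h1 := congrArg (fun z : Multiset (ZMod m) =>
      (z.map (fun x => PT p m (Nat.totient m) ((t : ZMod m) * x))).sum) h
    simp only [Multiset.map_add, Multiset.sum_add] at h1
    rw [hα.2.2 t, c2 t, d2 t] at h1
    linarith

lemma S_zero (p m : ℕ) : S p m 0 = 0 := by
  unfold S
  refine Finset.sum_eq_zero fun j _ => ?_
  rw [mul_zero, ZMod.val_zero]

lemma S_pos {p m : ℕ} [NeZero m] (hp : Nat.Coprime p m) {a : ZMod m} (ha : a ≠ 0) :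
    0 < S p m a := by
  unfold S
  refine Finset.sum_pos (fun j _ => ?_) ?_
  · refine Nat.pos_of_ne_zero fun h => ?_
    have h1 := (ZMod.val_eq_zero _).1 h
    exact ha ((((ZMod.isUnit_iff_coprime p m).2 hp).pow j).mul_left_cancel
      (by rw [h1, mul_zero]))
  · refine ⟨0, Finset.mem_range.2 (Nat.totient_pos.2 (Nat.pos_of_ne_zero (NeZero.ne m)))⟩

lemma Nice.reduce {p m : ℕ} [NeZero m] {Q : ℕ → Prop} {𝒯 : Set (Finset ℕ)}
    (hp : Nat.Coprime p m) (hQ : ∀ l, l.Prime → l ^ 2 ∣ m → Q l) {a : ZMod m} (ha0 : a ≠ 0)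
    (ha : Nice p m 𝒯 a) :
    ∃ U : Multiset (ZMod m), (∀ v ∈ U, Basic p m 𝒯 v) ∧ Eqv {δ | IsElem p m Q δ} {a} U := by
  rcases ha with h | ⟨b, r, hT, hord, hS⟩
  · refine ⟨{a}, ?_, Eqv.refl _ _⟩
    intro v hv
    rw [Multiset.mem_singleton.1 hv]
    refine ⟨ha0, Or.inl fun t => ?_⟩
    rw [PT_eq]
    have := h t
    have h2 : ((2 * S p m ((t : ZMod m) * a) : ℕ) : ℤ) = ((Nat.totient m * m : ℕ) : ℤ) := by
      rw [this]
    push_cast at h2
    linarith
  · have hb0 : b ≠ 0 := by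
      rintro rfl
      have h1 := hS 1
      rw [mul_zero, S_zero, Units.val_one, one_mul] at h1
      exact (S_pos hp ha0).ne' h1
    have h1 : ∃ U : Multiset (ZMod m), (∀ v ∈ U, Basic p m 𝒯 v) ∧
        Eqv {δ | IsElem p m Q δ} {b} U := by
      rcases hord with h | h
      · exact reduce_order hp hQ hT hb0 h
      · exact reduce_twice_order hp hQ hT hb0 h
    obtain ⟨U, hU, hE⟩ := h1
    refine ⟨U, hU, Eqv.trans ?_ hE⟩
    have h2 : Eqv {δ | IsElem p m Q δ} ({a} + {-b}) 0 := by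
      have h3 : IsElem p m Q ({a, -b} : Multiset (ZMod m)) := by
        refine pair_isElem ha0 (neg_ne_zero.2 hb0) fun t => ?_
        rw [mul_neg, PT_neg ((ZMod.isUnit_iff_coprime p m).2 hp)
          (fun h => hb0 (t.isUnit.mul_left_cancel (by rw [h, mul_zero]))), PT_eq, PT_eq, hS t]
        ring
      exact Eqv.of_mem (G := {δ | IsElem p m Q δ}) h3
    exact Eqv.of_add h2 (neg_pair hp hb0)

lemma zero_notMem_sum {p m : ℕ} [NeZero m] {Q : ℕ → Prop} (hp : Nat.Coprime p m)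
    (C : Multiset (Multiset (ZMod m))) (hC : ∀ γ ∈ C, IsElem p m Q γ) :
    (0 : ZMod m) ∉ C.sum := by
  induction C using Multiset.induction_on with
  | empty => simp
  | cons γ s ih =>
    intro h
    rw [Multiset.sum_cons, Multiset.mem_add] at h
    rcases h with h | h
    · exact (isElem_balanced hp (hC γ (Multiset.mem_cons_self γ s))).1 h
    · exact ih (fun δ hδ => hC δ (Multiset.mem_cons_of_mem hδ)) h

/-- **Main theorem.** -/
theorem generated_of_equivalent {p m N : ℕ} [NeZero m] {Q : ℕ → Prop} {𝒯 : Set (Finset ℕ)}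
    (hp : p.Prime) (hpm : Nat.Coprime p m) (hN : 0 < N) (hm : m ∣ p ^ N - 1)
    (hQ : ∀ l, l.Prime → l ^ 2 ∣ m → Q l) (hsep : Separated p m 𝒯) {α U : Multiset (ZMod m)}
    (hα : IsTate p m α) (hU : ∀ a ∈ U, Nice p m 𝒯 a) (hE : Eqv {γ | IsElem p m Q γ} α U) :
    Generated p m N Q α := by
  have h0 : (0 : ZMod m) ∉ α := hα.1.1
  have hU0 : (0 : ZMod m) ∉ U := by
    intro h
    obtain ⟨C, D, hC, hD, hCD⟩ := hE
    have h1 : (0 : ZMod m) ∈ α + C.sum := by
      rw [hCD]
      exact Multiset.mem_add.2 (Or.inl h)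
    rcases Multiset.mem_add.1 h1 with h2 | h2
    · exact h0 h2
    · exact zero_notMem_sum hpm C hC h2
  refine generated_of_eqv hp hpm hN hm h0 hα.2 ?_
  obtain ⟨V, hV, hF⟩ := exists_family (p := p) (Q := Q) (𝒯 := 𝒯) U (by
    intro a ha
    exact Nice.reduce hpm hQ (fun h1 => hU0 (h1 ▸ ha)) (hU a ha))
  have hG := hE.trans hF
  obtain ⟨hev, hs⟩ := eqv_transfer hpm hG hα.1
  exact hG.trans (pair_up hpm hsep _ V rfl hev (fun h1 => (hV 0 h1).1 rfl)
    (fun x hx => (hV x hx).2) hs)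

end Pool.Agent.Lib.MP_021685_ag.Fermat
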