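import Pool.Agent.Lib.MP_021685_ag.Fermat8

/-!
Consequences: degrees `l ^ k`, `2 * l ^ k`, and degrees with two odd primes modulo whose powers
`-1` is a power of `p`.
-/

namespace Pool.Agent.Lib.MP_021685_ag.Fermat

open Finset

lemma addOrderOf_dvd' {m : ℕ} (a : ZMod m) : addOrderOf a ∣ m := by
  rw [addOrderOf_dvd_iff_nsmul_eq_zero, nsmul_eq_mul, ZMod.natCast_self, zero_mul]

/-- The singletons are separated. -/
lemma separated_singletons (p m : ℕ) (hm : 0 < m) :
    Separated p m {T | ∃ l : ℕ, l.Prime ∧ T = {l}} := by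
  have key : ∀ d : ℕ, d ∣ m → d.primeFactors ⊆ (∅ : Finset ℕ) → d = 1 := by
    intro d hd h
    have h0 : d ≠ 0 := by
      rintro rfl
      have := Nat.eq_zero_of_zero_dvd hd
      omega
    have h1 := Nat.primeFactors_eq_empty.1 (Finset.subset_empty.1 h)
    omega
  refine ⟨?_, ?_⟩
  · rintro T ⟨l, hl, rfl⟩ l' hl' d hd h
    rw [Finset.mem_singleton] at hl'
    subst hl'
    rw [Finset.erase_singleton] at h
    have := key d hd h
    subst this
    exact ⟨0, 0, Subsingleton.elim _ _⟩
  · rintro T ⟨l, hl, rfl⟩ T' ⟨l', hl', rfl⟩ hne d hd h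
    have h1 : ({l} : Finset ℕ) ∩ {l'} = ∅ := by
      rw [← Finset.disjoint_iff_inter_eq_empty, Finset.disjoint_singleton]
      rintro rfl
      exact hne rfl
    rw [h1] at h
    have := key d hd h
    subst this
    exact ⟨0, Subsingleton.elim _ _⟩

/-- Every Tate character of degree `l ^ k` or `2 * l ^ k` is generated. -/
theorem generated_prime_power {p m N l k : ℕ} (hp : p.Prime) (hpm : ¬ p ∣ m) (hN : 0 < N)
    (hmN : m ∣ p ^ N - 1) (hl : l.Prime) (hm : m = l ^ k ∨ m = 2 * l ^ k)
    {α : Multiset (ZMod m)} (hα : IsTate p m α) :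
    Generated p m N (fun l => l ^ 2 ∣ m) α := by
  have hm0 : 0 < m := by
    have := Nat.pow_pos (n := k) hl.pos
    rcases hm with hm | hm <;> omega
  have : NeZero m := ⟨by omega⟩
  have hpm' : Nat.Coprime p m := (Nat.Prime.coprime_iff_not_dvd hp).2 hpm
  refine generated_of_equivalent hp hpm' hN hmN (fun l _ h => h)
    (separated_singletons p m hm0) hα (U := α) ?_ (Eqv.refl _ _)
  intro a ha
  have ha0 : a ≠ 0 := fun h => hα.1.1 (h ▸ ha)
  have h1 := addOrderOf_dvd' a
  have hne1 : addOrderOf a ≠ 1 := fun h => ha0 (AddMonoid.addOrderOf_eq_one_iff.1 h)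
  have h2 : ∀ d : ℕ, d ∣ l ^ k → d ≠ 1 → d.primeFactors = {l} := by
    intro d hd h
    obtain ⟨j, _, hj⟩ := (Nat.dvd_prime_pow hl).1 hd
    have hj0 : j ≠ 0 := by
      rintro rfl
      exact h (by rw [hj, pow_zero])
    rw [hj, Nat.primeFactors_prime_pow hj0 hl]
  rcases hm with hm | hm
  · exact Or.inr ⟨a, addOrderOf a, ⟨l, hl, h2 _ (h1.trans (dvd_of_eq hm)) hne1⟩, Or.inl rfl,
      fun t => rfl⟩
  · by_cases h3 : Nat.Coprime 2 (addOrderOf a)
    · exact Or.inr ⟨a, addOrderOf a, ⟨l, hl, h2 _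
        (Nat.Coprime.dvd_of_dvd_mul_left h3.symm (h1.trans (dvd_of_eq hm))) hne1⟩, Or.inl rfl,
        fun t => rfl⟩
    · obtain ⟨r, hr⟩ : 2 ∣ addOrderOf a := by
        by_contra h
        exact h3 ((Nat.Prime.coprime_iff_not_dvd Nat.prime_two).2 h)
      have h4 : r ∣ l ^ k := by
        have h5 : 2 * r ∣ 2 * l ^ k := by
          rw [← hr]
          exact h1.trans (dvd_of_eq hm)
        exact (Nat.mul_dvd_mul_iff_left (by norm_num)).1 h5
      by_cases hr1 : r = 1
      · -- an element of order 2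
        left
        intro t
        have h6 : 2 * ((t : ZMod m) * a) = 0 := by
          have := addOrderOf_nsmul_eq_zero a
          rw [hr, hr1, mul_one, nsmul_eq_mul] at this
          push_cast at this
          rw [mul_left_comm, this, mul_zero]
        have h7 := PT_two_torsion (T := Nat.totient m) ((ZMod.isUnit_iff_coprime p m).2 hpm')
          (fun h => ha0 (t.isUnit.mul_left_cancel (by rw [h, mul_zero]))) h6
        rw [PT_eq] at h7
        have h8 : (2 * S p m ((t : ZMod m) * a) : ℤ) = (Nat.totient m * m : ℤ) := by linarith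
        exact_mod_cast h8
      · exact Or.inr ⟨a, r, ⟨l, hl, h2 r h4 hr1⟩, Or.inr hr, fun t => rfl⟩

/-- An element killed by `p ^ i + 1` has constant Stickelberger sums. -/
lemma constant_of_pow {p m i : ℕ} [NeZero m] (hpm : Nat.Coprime p m) {a : ZMod m} (ha0 : a ≠ 0)
    (h : addOrderOf a ∣ p ^ i + 1) (t : (ZMod m)ˣ) :
    2 * S p m ((t : ZMod m) * a) = Nat.totient m * m := by
  have h1 : ((p : ZMod m) ^ i + 1) * a = 0 := by
    have := addOrderOf_dvd_iff_nsmul_eq_zero.1 h
    rw [nsmul_eq_mul] at this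
    push_cast at this
    exact this
  have hne : (t : ZMod m) * a ≠ 0 :=
    fun h => ha0 (t.isUnit.mul_left_cancel (by rw [h, mul_zero]))
  have h2 : (p : ZMod m) ^ i * ((t : ZMod m) * a) = -((t : ZMod m) * a) := by
    linear_combination (t : ZMod m) * h1
  have h3 := PT_mul_p_pow (pow_totient' hpm) i ((t : ZMod m) * a)
  rw [h2, PT_neg ((ZMod.isUnit_iff_coprime p m).2 hpm) hne, PT_eq] at h3
  have h8 : (2 * S p m ((t : ZMod m) * a) : ℤ) = (Nat.totient m * m : ℤ) := by linarith
  exact_mod_cast h8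

/-- Two odd primes modulo whose powers `-1` is a power of `p`. -/
theorem generated_two_primes {p m N l k l' k' i i' : ℕ} (hp : p.Prime) (hpm : ¬ p ∣ m)
    (hN : 0 < N) (hmN : m ∣ p ^ N - 1) (hl : l.Prime) (hl' : l'.Prime) (hll : l ≠ l')
    (h2 : l ≠ 2) (h2' : l' ≠ 2)
    (hm : m = l ^ k * l' ^ k' ∨ m = 2 * (l ^ k * l' ^ k'))
    (hi : l ^ k ∣ p ^ i + 1) (hi' : l' ^ k' ∣ p ^ i' + 1)
    {α : Multiset (ZMod m)} (hα : IsTate p m α) :
    Generated p m N (fun l => l ^ 2 ∣ m) α := by
  have hlk : 0 < l ^ k := Nat.pow_pos hl.pos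
  have hlk' : 0 < l' ^ k' := Nat.pow_pos hl'.pos
  have hm0 : 0 < m := by
    rcases hm with hm | hm <;> rw [hm] <;> positivity
  have : NeZero m := ⟨by omega⟩
  have hpm' : Nat.Coprime p m := (Nat.Prime.coprime_iff_not_dvd hp).2 hpm
  have hcop : Nat.Coprime (l ^ k) (l' ^ k') :=
    Nat.Coprime.pow k k' ((Nat.coprime_primes hl hl').2 hll)
  have hm2 : m ∣ 2 * (l ^ k * l' ^ k') := by
    rcases hm with hm | hm
    · exact hm ▸ dvd_mul_left _ _
    · exact dvd_of_eq hm
  -- divisors of `m` prime to `l'`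
  have hdiv : ∀ (x y : ℕ), x.Prime → y.Prime → x ≠ y → x ≠ 2 → ∀ (c c' j : ℕ),
      m ∣ 2 * (x ^ c * y ^ c') → x ^ c ∣ p ^ j + 1 → ∀ d : ℕ, d ∣ m → ¬ y ∣ d →
      d ∣ p ^ j + 1 := by
    intro x y hx hy hxy hx2 c c' j hm2 hj d hd hyd
    have h3 : d ∣ 2 * x ^ c := by
      have h4 : d ∣ 2 * x ^ c * y ^ c' := by
        rw [mul_assoc]
        exact hd.trans hm2
      exact Nat.Coprime.dvd_of_dvd_mul_right
        (Nat.Coprime.pow_right c' ((Nat.Prime.coprime_iff_not_dvd hy).2 hyd).symm) h4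
    by_cases h2d : 2 ∣ d
    · have hp2 : Odd p := by
        rcases hp.eq_two_or_odd' with h | h
        · exact absurd ((h ▸ h2d : p ∣ d).trans hd) hpm
        · exact h
      have h5 : 2 ∣ p ^ j + 1 := by
        have h6 : Even (p ^ j + 1) := (hp2.pow).add_one
        exact even_iff_two_dvd.1 h6
      exact h3.trans (Nat.Coprime.mul_dvd_of_dvd_of_dvd
        (Nat.Coprime.pow_right c ((Nat.coprime_primes Nat.prime_two hx).2 (Ne.symm hx2))) h5 hj)
    · exact (Nat.Coprime.dvd_of_dvd_mul_left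
        ((Nat.Prime.coprime_iff_not_dvd Nat.prime_two).2 h2d).symm h3).trans hj
  have hA := hdiv l l' hl hl' hll h2 k k' i hm2 hi
  have hB := hdiv l' l hl' hl (Ne.symm hll) h2' k' k i' (by rwa [mul_comm (l' ^ k')]) hi'
  have hmem : ∀ d : ℕ, d ≠ 0 → ∀ x : ℕ, x.Prime → x ∉ d.primeFactors → ¬ x ∣ d := by
    intro d hd x hx h hxd
    exact h (Nat.mem_primeFactors.2 ⟨hx, hxd, hd⟩)
  have hsep : Separated p m {({l, l'} : Finset ℕ)} := by
    refine ⟨?_, ?_⟩
    · intro T hT x hx d hd h
      rw [Set.mem_singleton_iff] at hT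
      subst hT
      have hd0 : d ≠ 0 := by
        rintro rfl
        have := Nat.eq_zero_of_zero_dvd hd
        omega
      rw [Finset.mem_insert, Finset.mem_singleton] at hx
      have hnot : ¬ x ∣ d := by
        have hxp : x.Prime := by
          rcases hx with rfl | rfl
          · exact hl
          · exact hl'
        refine hmem d hd0 x hxp fun h' => ?_
        exact (Finset.mem_erase.1 (h h')).1 rfl
      rcases hx with rfl | rfl
      · refine ⟨i', 0, ?_⟩
        have h5 := hB d hd hnot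
        rw [← ZMod.natCast_eq_zero_iff] at h5
        push_cast at h5 ⊢
        rw [pow_zero, mul_one]
        exact eq_neg_of_add_eq_zero_left h5
      · refine ⟨i, 0, ?_⟩
        have h5 := hA d hd hnot
        rw [← ZMod.natCast_eq_zero_iff] at h5
        push_cast at h5 ⊢
        rw [pow_zero, mul_one]
        exact eq_neg_of_add_eq_zero_left h5
    · intro T hT T' hT' hne
      rw [Set.mem_singleton_iff] at hT hT'
      exact absurd (hT.trans hT'.symm) hne
  refine generated_of_equivalent hp hpm' hN hmN (fun l _ h => h) hsep hα (U := α) ?_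
    (Eqv.refl _ _)
  intro a ha
  have ha0 : a ≠ 0 := fun h => hα.1.1 (h ▸ ha)
  have h1 := addOrderOf_dvd' a
  by_cases hd1 : l' ∣ addOrderOf a
  · by_cases hd2 : l ∣ addOrderOf a
    · -- full support
      right
      have hpf : ∀ r : ℕ, r ≠ 0 → r ∣ l ^ k * l' ^ k' → l ∣ r → l' ∣ r →
          r.primeFactors ∈ ({({l, l'} : Finset ℕ)} : Set (Finset ℕ)) := by
        intro r hr0 hr h5 h6
        rw [Set.mem_singleton_iff]
        ext x
        rw [Finset.mem_insert, Finset.mem_singleton, Nat.mem_primeFactors]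
        constructor
        · rintro ⟨hx, hxr, _⟩
          rcases (Nat.Prime.dvd_mul hx).1 (hxr.trans hr) with h | h
          · exact Or.inl ((Nat.prime_dvd_prime_iff_eq hx hl).1 (hx.dvd_of_dvd_pow h))
          · exact Or.inr ((Nat.prime_dvd_prime_iff_eq hx hl').1 (hx.dvd_of_dvd_pow h))
        · rintro (rfl | rfl)
          · exact ⟨hl, h5, hr0⟩
          · exact ⟨hl', h6, hr0⟩
      have hao : addOrderOf a ≠ 0 := by
        intro h
        rw [h] at h1
        have := Nat.eq_zero_of_zero_dvd h1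
        omega
      by_cases h3 : 2 ∣ addOrderOf a
      · obtain ⟨r, hr⟩ := h3
        have h4 : r ∣ l ^ k * l' ^ k' := by
          have h5 : 2 * r ∣ 2 * (l ^ k * l' ^ k') := by
            rw [← hr]
            exact h1.trans hm2
          exact (Nat.mul_dvd_mul_iff_left (by norm_num)).1 h5
        refine ⟨a, r, hpf r ?_ h4 ?_ ?_, Or.inr hr, fun t => rfl⟩
        · rintro rfl
          exact hao (by rw [hr])
        · rw [hr] at hd2
          exact Nat.Coprime.dvd_of_dvd_mul_left ((Nat.coprime_primes hl Nat.prime_two).2 h2) hd2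
        · rw [hr] at hd1
          exact Nat.Coprime.dvd_of_dvd_mul_left ((Nat.coprime_primes hl' Nat.prime_two).2 h2') hd1
      · refine ⟨a, addOrderOf a, hpf _ hao ?_ hd2 hd1, Or.inl rfl, fun t => rfl⟩
        exact Nat.Coprime.dvd_of_dvd_mul_left
          ((Nat.Prime.coprime_iff_not_dvd Nat.prime_two).2 h3).symm (h1.trans hm2)
    · left
      exact constant_of_pow hpm' ha0 (hB _ h1 hd2)
  · left
    exact constant_of_pow hpm' ha0 (hA _ h1 hd1)

end Pool.Agent.Lib.MP_021685_ag.Fermat
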