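import Mathlib

/-!
Definitions for the Fermat variety theorem (MP_021685_ag).
-/

namespace Pool.Agent.Lib.MP_021685_ag.Fermat

/-- The Stickelberger sum of `a : ZMod M` over the powers of `p`. -/
def S (p M : ℕ) (a : ZMod M) : ℕ :=
  ∑ j ∈ Finset.range (Nat.totient M), ((p : ZMod M) ^ j * a).val

/-- `0 ∉ β`, `β` has even cardinality `c` and, for every unit `t`, the average over the powers
`h` of `p` of `∑_{a ∈ β} ⟨h t a / M⟩` is `c / 2`. -/
def IsBalanced (p M : ℕ) (β : Multiset (ZMod M)) : Prop :=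
  (0 : ZMod M) ∉ β ∧ Even (Multiset.card β) ∧
    ∀ t : (ZMod M)ˣ,
      2 * (β.map (fun a => S p M ((t : ZMod M) * a))).sum
        = Nat.totient M * Multiset.card β * M

/-- The characters of the Fermat variety of degree `M` and even dimension `card β - 2` in
characteristic `p` whose eigenspaces consist of Tate classes (Shioda's set `𝔅_M^n(p)`). -/
def IsTate (p M : ℕ) (β : Multiset (ZMod M)) : Prop :=
  IsBalanced p M β ∧ β.sum = 0

/-- The Davenport–Hasse (standard) multiset of an odd prime `l ∣ M`. -/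
def std (M l : ℕ) (y : ZMod M) : Multiset (ZMod M) :=
  (Multiset.range l).map (fun i => y + ((i * (M / l) : ℕ) : ZMod M)) + {-((l : ZMod M) * y)}

/-- The Davenport–Hasse (standard) quadruple for the prime `2`. -/
def std2 (M : ℕ) (y : ZMod M) : Multiset (ZMod M) :=
  {y, y + ((M / 2 : ℕ) : ZMod M), -(2 * y), ((M / 2 : ℕ) : ZMod M)}

/-- Balanced pairs (no condition on the sum) and standard multisets for the primes in `Q`. -/
def IsElem (p m : ℕ) (Q : ℕ → Prop) (γ : Multiset (ZMod m)) : Prop :=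
  (IsBalanced p m γ ∧ Multiset.card γ = 2) ∨
  (∃ (l : ℕ) (y : ZMod m), l.Prime ∧ l ≠ 2 ∧ l ∣ m ∧ Q l ∧ (l : ZMod m) * y ≠ 0 ∧ γ = std m l y) ∨
  (∃ y : ZMod m, 2 ∣ m ∧ 2 * y ≠ 0 ∧ γ = std2 m y)

/-- The Tate characters of degree `M` allowed as generators: those of Fermat varieties of
dimension `0` and `2`, and the Davenport–Hasse characters for the primes `l ≥ 5` in `Q`. -/
def IsGood (p M : ℕ) (Q : ℕ → Prop) (β : Multiset (ZMod M)) : Prop :=
  IsTate p M β ∧ (Multiset.card β = 2 ∨ Multiset.card β = 4 ∨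
    ∃ (l : ℕ) (y : ZMod M), l.Prime ∧ 5 ≤ l ∧ l ∣ M ∧ Q l ∧ β = std M l y)

/-- Independence of the sets of primes in `𝒯`: for `l ∈ T ∈ 𝒯`, `-1` is in the group generated
by `p` and `l` modulo the divisors of `m` with primes in `T.erase l`; and for `T ≠ T'` in `𝒯`, `-1`
is a power of `p` modulo the divisors of `m` with primes in `T ∩ T'`. -/
def Separated (p m : ℕ) (𝒯 : Set (Finset ℕ)) : Prop :=
  (∀ T ∈ 𝒯, ∀ l ∈ T, ∀ d : ℕ, d ∣ m → d.primeFactors ⊆ T.erase l →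
    ∃ i j : ℕ, ((p ^ i * l ^ j : ℕ) : ZMod d) = -1) ∧
  (∀ T ∈ 𝒯, ∀ T' ∈ 𝒯, T ≠ T' → ∀ d : ℕ, d ∣ m → d.primeFactors ⊆ T ∩ T' →
    ∃ i : ℕ, ((p ^ i : ℕ) : ZMod d) = -1)

/-- `a` has constant Stickelberger sums, or the same ones as an element `b` of order `r` or
`2 * r`, where the set of primes dividing `r` is in `𝒯`. -/
def Nice (p m : ℕ) (𝒯 : Set (Finset ℕ)) (a : ZMod m) : Prop :=
  (∀ t : (ZMod m)ˣ, 2 * S p m ((t : ZMod m) * a) = Nat.totient m * m) ∨
  ∃ (b : ZMod m) (r : ℕ), r.primeFactors ∈ 𝒯 ∧ (addOrderOf b = r ∨ addOrderOf b = 2 * r) ∧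
    ∀ t : (ZMod m)ˣ, S p m ((t : ZMod m) * a) = S p m ((t : ZMod m) * b)

/-- The inclusion `ZMod m → ZMod (m * d)`, `a ↦ d * a`. -/
def incl (m d : ℕ) (a : ZMod m) : ZMod (m * d) := ((d * a.val : ℕ) : ZMod (m * d))

/-- `α`, lifted to the degree `M = m (p ^ N - 1)`, is a difference of sums of good characters. -/
def Generated (p m N : ℕ) (Q : ℕ → Prop) (α : Multiset (ZMod m)) : Prop :=
  ∃ A B : Multiset (Multiset (ZMod (m * (p ^ N - 1)))),
    (∀ β ∈ A, IsGood p (m * (p ^ N - 1)) Q β) ∧ (∀ β ∈ B, IsGood p (m * (p ^ N - 1)) Q β) ∧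
    α.map (incl m (p ^ N - 1)) + A.sum = B.sum

end Pool.Agent.Lib.MP_021685_ag.Fermat
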