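import Mathlib

/-!
# Tate forms in several variables and their products
-/

set_option autoImplicit false

namespace Pool.Agent.Lib.MP_021685_ag

variable {K H : Type*} [Field K] [AddCommGroup H] [Module K H]

/-- A form in `n` variables is a Tate form if it is invariant under some positive power of `F`. -/
def IsTateForm (F : Module.End K H) {n : ℕ} (B : (Fin n → H) → K) : Prop :=
  ∃ m : ℕ, 0 < m ∧ ∀ v : Fin n → H, B (fun i => (F ^ m) (v i)) = B v

/-- A product of Tate forms of degree one and two: the `n` variables are grouped by an involution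
`σ` into single variables `v i` (where `σ i = i`) and pairs `v i, v (σ i)`; the form is the product
of linear forms, each invariant under a positive power of `F`, in the single variables, and of
bilinear forms invariant under `F` in the pairs. -/
def IsTateProduct (F : Module.End K H) {n : ℕ} (D : (Fin n → H) → K) : Prop :=
  ∃ (σ : Fin n → Fin n) (l : Fin n → H →ₗ[K] K) (β : Fin n → H →ₗ[K] H →ₗ[K] K),
    (∀ i, σ (σ i) = i) ∧
    (∀ i, ∃ m : ℕ, 0 < m ∧ ∀ v, l i ((F ^ m) v) = l i v) ∧
    (∀ i v w, β i (F v) (F w) = β i v w) ∧
    ∀ v, D v = ∏ i ∈ Finset.univ.filter (fun i => i ≤ σ i),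
      if σ i = i then l i (v i) else β i (v i) (v (σ i))

end Pool.Agent.Lib.MP_021685_ag
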