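import Mathlib
import Pool.Agent.Lib.MP_021685_ag.Ext
import Pool.Agent.Lib.MP_021685_ag.K3Defs

/-!
# Invariant multilinear forms are sums of products
-/

set_option autoImplicit false

open Polynomial

namespace Pool.Agent.Lib.MP_021685_ag

section pairing

/-- Balanced labels can be matched by an involution. -/
theorem exists_matching {ι Ω : Type*} [Fintype ι] [Fintype Ω] {bar : Ω → Ω}
    (hbar : ∀ x, bar (bar x) = x) (hfix : ∀ x, bar x ≠ x) (f : ι → Option Ω)
    (hf : ∀ x, Nat.card {i // f i = some x} = Nat.card {i // f i = some (bar x)}) :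
    ∃ σ : ι → ι, (∀ i, σ (σ i) = i) ∧ (∀ i, f i = none → σ i = i) ∧
      (∀ i x, f i = some x → f (σ i) = some (bar x)) := by
  classical
  let e := Fintype.equivFin Ω
  have h1 : ∀ x : Ω, Nonempty ({i // f i = some x} ≃ {i // f i = some (bar x)}) := fun x =>
    Finite.card_eq.1 (hf x)
  have E : ∀ x : Ω, {i // f i = some x} ≃ {i // f i = some (bar x)} := fun x => (h1 x).some
  -- match `x` with `bar x`, using `E x` when `e x < e (bar x)`
  let g : Ω → ι → ι := fun x i =>
    if h : f i = some x then
      (if e x < e (bar x) then (E x ⟨i, h⟩ : ι)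
        else ((E (bar x)).symm ⟨i, by rw [hbar]; exact h⟩ : ι))
    else i
  let σ : ι → ι := fun i => (f i).elim i (fun x => g x i)
  have hσnone : ∀ i, f i = none → σ i = i := fun i hi => by simp only [σ, hi, Option.elim_none]
  have hσsome : ∀ i x, f i = some x → σ i = g x i := fun i x hi => by
    simp only [σ, hi, Option.elim_some]
  have hg1 : ∀ i x (h : f i = some x), e x < e (bar x) → σ i = (E x ⟨i, h⟩ : ι) := by
    intro i x h hlt
    rw [hσsome i x h]
    simp only [g, dif_pos h, if_pos hlt]
  have hg2 : ∀ i x (h : f i = some x), ¬ e x < e (bar x) →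
      σ i = ((E (bar x)).symm ⟨i, by rw [hbar]; exact h⟩ : ι) := by
    intro i x h hlt
    rw [hσsome i x h]
    simp only [g, dif_pos h, if_neg hlt]
  have hlt' : ∀ x, ¬ e x < e (bar x) → e (bar x) < e (bar (bar x)) := by
    intro x hx
    rw [hbar]
    exact lt_of_le_of_ne (not_lt.1 hx) fun h => hfix x (e.injective h)
  have hbarσ : ∀ i x, f i = some x → f (σ i) = some (bar x) := by
    intro i x hi
    by_cases hlt : e x < e (bar x)
    · rw [hg1 i x hi hlt]
      exact (E x ⟨i, hi⟩).2
    · rw [hg2 i x hi hlt]
      exact ((E (bar x)).symm ⟨i, by rw [hbar]; exact hi⟩).2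
  refine ⟨σ, ?_, hσnone, hbarσ⟩
  intro i
  rcases hi : f i with _ | x
  · rw [hσnone i hi, hσnone i hi]
  · by_cases hlt : e x < e (bar x)
    · have h2 := hbarσ i x hi
      have h3 : ¬ e (bar x) < e (bar (bar x)) := by
        rw [hbar]; exact not_lt.2 hlt.le
      rw [hg2 (σ i) (bar x) h2 h3]
      have h4 : ∀ (y : Ω) (hy : y = x) (j : ι) (hj : f j = some (bar y)),
          (j = (E x ⟨i, hi⟩ : ι)) → ((E y).symm ⟨j, hj⟩ : ι) = i := by
        rintro y rfl j hj rfl
        have : (⟨(E y ⟨i, hi⟩ : ι), hj⟩ : {i // f i = some (bar y)}) = E y ⟨i, hi⟩ := rfl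
        rw [this, Equiv.symm_apply_apply]
      exact h4 _ (hbar x) _ _ (hg1 i x hi hlt)
    · have h2 := hbarσ i x hi
      have h3 := hlt' x hlt
      rw [hg1 (σ i) (bar x) h2 h3]
      have h4 : ∀ (j : ι) (hj : f j = some (bar x)),
          (j = ((E (bar x)).symm ⟨i, by rw [hbar]; exact hi⟩ : ι)) →
          (E (bar x) ⟨j, hj⟩ : ι) = i := by
        rintro j hj rfl
        rw [Subtype.coe_eta, Equiv.apply_symm_apply]
      exact h4 _ _ (hg2 i x hi hlt)

/-- Grouping a product along an involution. -/
theorem prod_involution {n : ℕ} {A : Type*} [CommMonoid A] (σ : Fin n → Fin n)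
    (hσ : ∀ i, σ (σ i) = i) (g : Fin n → A) :
    ∏ i, g i = ∏ i ∈ Finset.univ.filter (fun i => i ≤ σ i),
      if σ i = i then g i else g i * g (σ i) := by
  have h1 : ∀ i, (if σ i = i then g i else g i * g (σ i)) =
      g i * (if σ i = i then 1 else g (σ i)) := by
    intro i
    by_cases h : σ i = i <;> simp [h]
  rw [Finset.prod_congr rfl (fun i _ => h1 i), Finset.prod_mul_distrib,
    ← Finset.prod_filter_mul_prod_filter_not Finset.univ (fun i => i ≤ σ i) g]
  congr 1
  have h2 : ∏ i ∈ Finset.univ.filter (fun i => i ≤ σ i), (if σ i = i then 1 else g (σ i)) =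
      ∏ i ∈ Finset.univ.filter (fun i => i < σ i), g (σ i) := by
    rw [← Finset.prod_filter_mul_prod_filter_not (Finset.univ.filter fun i => i ≤ σ i)
      (fun i => σ i = i)]
    rw [Finset.prod_eq_one (s := (Finset.univ.filter fun i => i ≤ σ i).filter fun i => σ i = i) (by
      intro i hi
      rw [Finset.mem_filter] at hi
      rw [if_pos hi.2]), one_mul]
    refine Finset.prod_congr ?_ ?_
    · ext i
      simp only [Finset.mem_filter, Finset.mem_univ, true_and]
      constructor
      · rintro ⟨h3, h4⟩
        exact lt_of_le_of_ne h3 fun h => h4 h.symm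
      · intro h3
        exact ⟨h3.le, h3.ne'⟩
    · intro i hi
      simp only [Finset.mem_filter, Finset.mem_univ, true_and] at hi
      rw [if_neg hi.ne']
  rw [h2]
  refine Finset.prod_nbij' σ σ ?_ ?_ ?_ ?_ ?_
  · intro i hi
    simp only [Finset.mem_filter, Finset.mem_univ, true_and, not_le] at hi ⊢
    rwa [hσ]
  · intro i hi
    simp only [Finset.mem_filter, Finset.mem_univ, true_and, not_le] at hi ⊢
    rwa [hσ]
  · intro i _; exact hσ i
  · intro i _; exact hσ i
  · intro i _; rw [hσ]

end pairing

section multilinear

/-- A multilinear map at vectors of a span. -/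
theorem map_mem_span_of_span {K' D V : Type*} [Field K'] [AddCommGroup D] [Module K' D]
    [AddCommGroup V] [Module K' V] {n : ℕ} (G : MultilinearMap K' (fun _ : Fin n => D) V)
    (E : Set D) (x : Fin n → D) (hx : ∀ i, x i ∈ Submodule.span K' E) :
    G x ∈ Submodule.span K' {z | ∃ y : Fin n → D, (∀ i, y i ∈ E) ∧ G y = z} := by
  classical
  suffices H : ∀ (t : Finset (Fin n)) (x : Fin n → D), (∀ i, x i ∈ Submodule.span K' E) →
      (∀ i, i ∉ t → x i ∈ E) →
      G x ∈ Submodule.span K' {z | ∃ y : Fin n → D, (∀ i, y i ∈ E) ∧ G y = z} from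
    H Finset.univ x hx (fun i hi => absurd (Finset.mem_univ i) hi)
  intro t
  induction t using Finset.induction_on with
  | empty =>
    intro x _ h
    exact Submodule.subset_span ⟨x, fun i => h i (Finset.notMem_empty i), rfl⟩
  | insert j t hj ih =>
    intro x hx h
    have key : ∀ u ∈ Submodule.span K' E, G (Function.update x j u) ∈
        Submodule.span K' {z | ∃ y : Fin n → D, (∀ i, y i ∈ E) ∧ G y = z} := by
      intro u hu
      induction hu using Submodule.span_induction with
      | mem u hu =>
        apply ih
        · intro i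
          by_cases hij : i = j
          · subst hij
            rw [Function.update_self]
            exact Submodule.subset_span hu
          · rw [Function.update_of_ne hij]
            exact hx i
        · intro i hi
          by_cases hij : i = j
          · subst hij
            rw [Function.update_self]
            exact hu
          · rw [Function.update_of_ne hij]
            exact h i (fun h' => (Finset.mem_insert.1 h').elim hij hi)
      | zero => rw [MultilinearMap.map_update_zero]; exact Submodule.zero_mem _
      | add a b _ _ ha hb => rw [MultilinearMap.map_update_add]; exact Submodule.add_mem _ ha hb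
      | smul c a _ ha => rw [MultilinearMap.map_update_smul]; exact Submodule.smul_mem _ _ ha
    have := key (x j) (hx j)
    rwa [Function.update_eq_self] at this

variable {K K' H : Type*} [Field K] [Field K'] [Algebra K K'] [AddCommGroup H] [Module K H]

/-- The product of `K'`-valued linear forms, as a multilinear map of the forms. -/
noncomputable def prodForms (K K' H : Type*) [Field K] [Field K'] [Algebra K K'] [AddCommGroup H]
    [Module K H] (n : ℕ) :
    MultilinearMap K' (fun _ : Fin n => (H →ₗ[K] K')) ((Fin n → H) → K') :=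
  MultilinearMap.pi fun v : Fin n → H =>
    (MultilinearMap.mkPiAlgebra K' (Fin n) K').compLinearMap fun i =>
      { toFun := fun l : H →ₗ[K] K' => l (v i)
        map_add' := fun _ _ => rfl
        map_smul' := fun _ _ => rfl }

@[simp] theorem prodForms_apply (n : ℕ) (l : Fin n → (H →ₗ[K] K')) (v : Fin n → H) :
    prodForms K K' H n l v = ∏ i, l i (v i) := by
  simp [prodForms]

/-- A multilinear form is a combination of products of linear forms. -/
theorem form_mem_span_prod [FiniteDimensional K H] {n : ℕ}
    (B : MultilinearMap K (fun _ : Fin n => H) K) :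
    (fun v => algebraMap K K' (B v)) ∈ Submodule.span K'
      (Set.range fun l : Fin n → (H →ₗ[K] K') => prodForms K K' H n l) := by
  classical
  let b := Module.finBasis K H
  have h1 : (fun v => algebraMap K K' (B v)) =
      ∑ f : Fin n → Fin (Module.finrank K H), algebraMap K K' (B fun i => b (f i)) •
        prodForms K K' H n (fun i => (Algebra.linearMap K K') ∘ₗ b.coord (f i)) := by
    funext v
    have h2 : B v = ∑ f : Fin n → Fin (Module.finrank K H),
        (∏ i, b.coord (f i) (v i)) • B fun i => b (f i) := by
      conv_lhs => rw [show v = fun i => ∑ j, b.coord j (v i) • b j from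
        funext fun i => (b.sum_repr (v i)).symm]
      rw [MultilinearMap.map_sum]
      refine Finset.sum_congr rfl fun f _ => ?_
      rw [MultilinearMap.map_smul_univ]
    rw [h2, map_sum, Finset.sum_apply]
    refine Finset.sum_congr rfl fun f _ => ?_
    rw [Pi.smul_apply, prodForms_apply, smul_eq_mul, smul_eq_mul, map_mul, map_prod, mul_comm]
    rfl
  rw [h1]
  apply Submodule.sum_mem
  intro f _
  apply Submodule.smul_mem
  exact Submodule.subset_span ⟨_, rfl⟩

/-- Precomposition with `F` on `K'`-valued linear forms. -/
def preComp (K' : Type*) [Field K'] [Algebra K K'] (F : Module.End K H) :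
    Module.End K' (H →ₗ[K] K') where
  toFun l := l ∘ₗ F
  map_add' _ _ := rfl
  map_smul' _ _ := rfl

theorem aeval_preComp (F : Module.End K H) (p : K[X]) (l : H →ₗ[K] K') :
    aeval (preComp K' F) (p.map (algebraMap K K')) l = l ∘ₗ (aeval F p) := by
  induction p using Polynomial.induction_on' with
  | add p q hp hq =>
    rw [Polynomial.map_add, map_add, LinearMap.add_apply, hp, hq, map_add, LinearMap.comp_add]
  | monomial m a =>
    rw [Polynomial.map_monomial, aeval_monomial, aeval_monomial]
    have h1 : ∀ m : ℕ, (preComp K' F ^ m) l = l ∘ₗ (F ^ m) := by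
      intro m
      induction m with
      | zero => rfl
      | succ m ih =>
        rw [pow_succ', Module.End.mul_apply, ih, pow_succ]
        rfl
    rw [Module.End.mul_apply, h1]
    apply LinearMap.ext
    intro v
    simp [Algebra.smul_def]

/-- Precomposition of forms in `n` variables with a power of `F`. -/
def preCompN (K' : Type*) [Field K'] (F : Module.End K H) (n N : ℕ) :
    Module.End K' ((Fin n → H) → K') where
  toFun g := fun v => g fun i => (F ^ N) (v i)
  map_add' _ _ := rfl
  map_smul' _ _ := rfl

end multilinear

end Pool.Agent.Lib.MP_021685_ag
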