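import Mathlib
import Pool.Agent.Lib.MP_021685_ag.Comb
import Pool.Agent.Lib.MP_021685_ag.Defs

/-!
# Multiplicative relations between the roots of a Weil polynomial
-/

set_option autoImplicit false

open Polynomial

namespace Pool.Agent.Lib.MP_021685_ag

section slope

variable {L : Type*} [Field L] (w : AddValuation L (WithTop ℚ))

theorem coe_slope {α : L} (h : α ≠ 0) : (slope w α : WithTop ℚ) = w α := by
  have h1 : w α ≠ ⊤ := fun h2 => h ((AddValuation.top_iff w).1 h2)
  obtain ⟨a, ha⟩ := WithTop.ne_top_iff_exists.1 h1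
  rw [slope, ← ha]; rfl

theorem slope_mul {α β : L} (hα : α ≠ 0) (hβ : β ≠ 0) :
    slope w (α * β) = slope w α + slope w β := by
  have h : (slope w (α * β) : WithTop ℚ) = ((slope w α + slope w β : ℚ) : WithTop ℚ) := by
    rw [coe_slope w (mul_ne_zero hα hβ), WithTop.coe_add, coe_slope w hα, coe_slope w hβ]
    exact AddValuation.map_mul w α β
  exact_mod_cast h

theorem slope_one : slope w 1 = 0 := by
  rw [slope, AddValuation.map_one]; rfl

theorem slope_pow {α : L} (hα : α ≠ 0) (n : ℕ) : slope w (α ^ n) = n * slope w α := by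
  induction n with
  | zero => simp [slope_one]
  | succ n ih =>
    rw [pow_succ, slope_mul w (pow_ne_zero n hα) hα, ih]
    push_cast; ring

theorem slope_prod {ι : Type*} (s : Finset ι) (f : ι → L) (hf : ∀ i ∈ s, f i ≠ 0) :
    slope w (∏ i ∈ s, f i) = ∑ i ∈ s, slope w (f i) := by
  classical
  induction s using Finset.induction_on with
  | empty => simp [slope_one]
  | insert a s ha ih =>
    rw [Finset.prod_insert ha, Finset.sum_insert ha,
      slope_mul w (hf a (Finset.mem_insert_self _ _)) (Finset.prod_ne_zero_iff.2 fun i hi =>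
        hf i (Finset.mem_insert_of_mem hi)), ih fun i hi => hf i (Finset.mem_insert_of_mem hi)]

end slope

section bar

variable {q : ℕ} {P : ℚ[X]} {S : Type*} [Field S] [Algebra ℚ S]

theorem root_ne_zero (hq : q ≠ 0) (hW : ∀ z : ℂ, aeval z P = 0 → ‖z‖ ^ 2 = q)
    (i : S →ₐ[ℚ] ℂ) {x : S} (hx : x ∈ P.rootSet S) : x ≠ 0 := by
  rintro rfl
  have h1 : aeval (i 0) P = 0 := by
    rw [aeval_algHom_apply, aeval_eq_zero_of_mem_rootSet hx, map_zero]
  have h2 := hW _ h1
  rw [map_zero, norm_zero] at h2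
  apply hq
  have : (q : ℝ) = 0 := by rw [← h2]; norm_num
  exact_mod_cast this

/-- The Weil involution preserves the set of roots. -/
theorem div_mem_rootSet (hP : P ≠ 0) (hq : q ≠ 0) (hW : ∀ z : ℂ, aeval z P = 0 → ‖z‖ ^ 2 = q)
    (i : S →ₐ[ℚ] ℂ) {x : S} (hx : x ∈ P.rootSet S) : (q : S) / x ∈ P.rootSet S := by
  have h0 := root_ne_zero hq hW i hx
  have h1 : aeval (i x) P = 0 := by
    rw [aeval_algHom_apply, aeval_eq_zero_of_mem_rootSet hx, map_zero]
  have h2 := hW _ h1
  have hz : i x ≠ 0 := by rwa [Ne, map_eq_zero]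
  have h3 : i ((q : S) / x) = (starRingEnd ℂ) (i x) := by
    rw [map_div₀, map_natCast, div_eq_iff hz, mul_comm, Complex.mul_conj, Complex.normSq_eq_norm_sq,
      h2]
    norm_cast
  rw [mem_rootSet_of_ne hP]
  apply i.toRingHom.injective
  change i _ = i _
  rw [← aeval_algHom_apply, h3, map_zero]
  have h4 : aeval ((Complex.conjAe.toAlgHom.restrictScalars ℚ) (i x)) P = 0 := by
    rw [aeval_algHom_apply, h1, map_zero]
  exact h4

end bar

section setup

variable {q : ℕ} {P : ℚ[X]} {S : Type*} [Field S] [Algebra ℚ S]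

/-- The Weil involution on the roots in a Galois extension. -/
theorem exists_bar (hP : P ≠ 0) (hq : q ≠ 0) (hW : ∀ z : ℂ, aeval z P = 0 → ‖z‖ ^ 2 = q)
    (i : S →ₐ[ℚ] ℂ) : ∃ bar : P.rootSet S → P.rootSet S, (∀ x, bar (bar x) = x) ∧
      (∀ x : P.rootSet S, (x : S) * (bar x : S) = q) ∧
      (∀ (g : S ≃ₐ[ℚ] S) (x : P.rootSet S), g • bar x = bar (g • x)) := by
  have hne : ∀ x : P.rootSet S, (x : S) ≠ 0 := fun x => root_ne_zero hq hW i x.2
  have hsmul : ∀ (g : S ≃ₐ[ℚ] S) (x : P.rootSet S), ((g • x : P.rootSet S) : S) = g x :=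
    fun g x => rfl
  by_cases hempty : IsEmpty (P.rootSet S)
  · exact ⟨id, fun x => (hempty.false x).elim, fun x => (hempty.false x).elim,
      fun _ x => (hempty.false x).elim⟩
  rw [not_isEmpty_iff] at hempty
  obtain ⟨x₀⟩ := hempty
  have hqS : (q : S) ≠ 0 := by
    have h1 : (x₀ : S) * ((q : S) / x₀) = q := mul_div_cancel₀ _ (hne x₀)
    rw [← h1]
    exact mul_ne_zero (hne x₀) (root_ne_zero hq hW i (div_mem_rootSet hP hq hW i x₀.2))
  refine ⟨fun x => ⟨(q : S) / x, div_mem_rootSet hP hq hW i x.2⟩, ?_, ?_, ?_⟩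
  · intro x
    apply Subtype.ext
    change (q : S) / ((q : S) / x) = x
    field_simp [hne x]
  · intro x
    change (x : S) * ((q : S) / x) = q
    field_simp [hne x]
  · intro g x
    apply Subtype.ext
    rw [hsmul]
    change g ((q : S) / x) = (q : S) / (g • x : P.rootSet S)
    rw [map_div₀, map_natCast, hsmul]

theorem rootSet_pretransitive [Normal ℚ S] (hP : Irreducible P) :
    MulAction.IsPretransitive (S ≃ₐ[ℚ] S) (P.rootSet S) := by
  refine ⟨fun x y => ?_⟩
  have hx := minpoly.eq_of_irreducible hP (mem_rootSet.mp x.2).2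
  have hy := minpoly.eq_of_irreducible hP (mem_rootSet.mp y.2).2
  obtain ⟨g, hg⟩ := (Normal.minpoly_eq_iff_mem_orbit S).mp (hy.symm.trans hx)
  exact ⟨g, Subtype.ext hg⟩

theorem all_sq_of_bar_fixed [Normal ℚ S] (hP : Irreducible P)
    {bar : P.rootSet S → P.rootSet S} (hmul : ∀ x : P.rootSet S, (x : S) * (bar x : S) = q)
    {x : P.rootSet S} (hx : bar x = x) (y : P.rootSet S) : (y : S) ^ 2 = q := by
  have := rootSet_pretransitive (S := S) hP
  obtain ⟨g, hg⟩ := MulAction.exists_smul_eq (S ≃ₐ[ℚ] S) x y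
  have h1 : (x : S) ^ 2 = q := by
    have := hmul x
    rw [hx] at this
    rw [pow_two, this]
  rw [← hg]
  change g (x : S) ^ 2 = q
  rw [← map_pow, h1, map_natCast]

theorem bar_ne_of_card [Normal ℚ S] (hP : Irreducible P)
    {bar : P.rootSet S → P.rootSet S} (hmul : ∀ x : P.rootSet S, (x : S) * (bar x : S) = q)
    (hcard : 2 < Nat.card (P.rootSet S)) (x : P.rootSet S) : bar x ≠ x := by
  intro hx
  have hx2 := all_sq_of_bar_fixed hP hmul hx
  have h5 : (P.rootSet S).ncard ≤ ({(x : S), - (x : S)} : Set S).ncard := by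
    apply Set.ncard_le_ncard _ (Set.toFinite _)
    intro y hy
    have h3 : (y : S) ^ 2 = (x : S) ^ 2 := by rw [hx2 ⟨y, hy⟩, hx2 x]
    rcases sq_eq_sq_iff_eq_or_eq_neg.1 h3 with h4 | h4
    · left; exact h4
    · right; exact h4
  have h6 : ({(x : S), - (x : S)} : Set S).ncard ≤ 2 := by
    refine (Set.ncard_insert_le _ _).trans ?_
    rw [Set.ncard_singleton]
  have h7 : (P.rootSet S).ncard = Nat.card (P.rootSet S) := by
    rw [← Nat.card_coe_set_eq]
  omega

variable {L : Type*} [Field L] [Algebra ℚ L] (iL : S →ₐ[ℚ] L) (w : AddValuation L (WithTop ℚ))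

theorem slope_q (hw : w (q : L) = 1) : slope w (q : L) = 1 := by
  rw [slope, hw]; rfl

theorem slope_bar (hne : ∀ x : P.rootSet S, (x : S) ≠ 0) (hw : w (q : L) = 1)
    {bar : P.rootSet S → P.rootSet S} (hmul : ∀ x : P.rootSet S, (x : S) * (bar x : S) = q)
    (x : P.rootSet S) :
    2 * slope w (iL (bar x : S)) - 1 = - (2 * slope w (iL (x : S)) - 1) := by
  have hiL0 : ∀ x : P.rootSet S, iL (x : S) ≠ 0 := fun x => by
    rw [Ne, map_eq_zero]; exact hne x
  have h1 : slope w (iL x) + slope w (iL (bar x)) = 1 := by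
    rw [← slope_mul w (hiL0 x) (hiL0 _), ← map_mul, hmul, map_natCast, slope_q w hw]
  linarith

/-- A multiplicative relation gives linear relations between the slopes, one for each
automorphism. -/
theorem slope_relation (hq : (q : L) ≠ 0) (hne : ∀ x : P.rootSet S, (x : S) ≠ 0)
    (hw : w (q : L) = 1) (d : P.rootSet S → ℕ) (m j : ℕ) (hm : m ≠ 0) (hd : ∑ x, d x = 2 * j)
    (hrel : (∏ x : P.rootSet S, (x : S) ^ (d x)) ^ m = (q : S) ^ (m * j)) (g : S ≃ₐ[ℚ] S) :
    ∑ x : P.rootSet S, (d x : ℚ) * (2 * slope w (iL ((g • x : P.rootSet S) : S)) - 1) = 0 := by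
  have hiL0 : ∀ x : P.rootSet S, iL (x : S) ≠ 0 := fun x => by
    rw [Ne, map_eq_zero]; exact hne x
  have h1 : (∏ x : P.rootSet S, (iL ((g • x : P.rootSet S) : S)) ^ (d x)) ^ m
      = (q : L) ^ (m * j) := by
    have h2 := congrArg (fun z => iL (g z)) hrel
    simp only [map_pow, map_prod, map_natCast] at h2
    exact h2
  have h3 := congrArg (slope w) h1
  rw [slope_pow w (Finset.prod_ne_zero_iff.2 fun x _ => pow_ne_zero _ (hiL0 _)),
    slope_pow w hq, slope_prod w _ _ (fun x _ => pow_ne_zero _ (hiL0 _)), slope_q w hw,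
    mul_one] at h3
  simp only [slope_pow w (hiL0 _)] at h3
  have hm' : (m : ℚ) ≠ 0 := by exact_mod_cast hm
  have h4 : ∑ x, (d x : ℚ) * slope w (iL ((g • x : P.rootSet S) : S)) = j := by
    push_cast at h3
    exact mul_left_cancel₀ hm' h3
  have h5 : ∑ x, (d x : ℚ) = 2 * j := by exact_mod_cast hd
  simp only [mul_sub, mul_one, Finset.sum_sub_distrib]
  rw [h5]
  have h6 : ∑ x, (d x : ℚ) * (2 * slope w (iL ((g • x : P.rootSet S) : S))) = 2 * j := by
    rw [← h4, Finset.mul_sum]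
    refine Finset.sum_congr rfl fun x _ => ?_
    ring
  rw [h6, sub_self]

/-- The Weil involution has no fixed point when some slope differs from `1 / 2`. -/
theorem bar_ne_of_slope [Normal ℚ S] (hP : Irreducible P)
    (hne : ∀ x : P.rootSet S, (x : S) ≠ 0) (hw : w (q : L) = 1)
    {bar : P.rootSet S → P.rootSet S} (hmul : ∀ x : P.rootSet S, (x : S) * (bar x : S) = q)
    {y : P.rootSet S} (hy : 2 * slope w (iL (y : S)) - 1 ≠ 0) (x : P.rootSet S) : bar x ≠ x := by
  intro hx
  apply hy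
  have h1 := all_sq_of_bar_fixed hP hmul hx y
  have h2 : slope w (iL (y : S)) + slope w (iL (y : S)) = 1 := by
    have h3 : iL (y : S) ≠ 0 := by
      rw [Ne, map_eq_zero]; exact hne y
    rw [← slope_mul w h3 h3, ← map_mul, ← pow_two, h1, map_natCast, slope_q w hw]
  linarith

end setup

section relation

variable {q r k : ℕ} [hr : Fact r.Prime] {P : ℚ[X]}

theorem rootSet_balanced (hP : Irreducible P) (hdeg : P.natDegree = 2 * r ^ k)
    {S : Type*} [Field S] [Algebra ℚ S] [FiniteDimensional ℚ S] [Normal ℚ S]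
    (hS : (P.map (algebraMap ℚ S)).Splits) (hne : ∀ x : P.rootSet S, (x : S) ≠ 0)
    {bar : P.rootSet S → P.rootSet S} (hbar : ∀ x, bar (bar x) = x) (hfix : ∀ x, bar x ≠ x)
    (hmul : ∀ x : P.rootSet S, (x : S) * (bar x : S) = q)
    (hcomm : ∀ (g : S ≃ₐ[ℚ] S) (x : P.rootSet S), g • bar x = bar (g • x))
    {L : Type*} [Field L] [Algebra ℚ L] (iL : S →ₐ[ℚ] L)
    (w : AddValuation L (WithTop ℚ)) (hw : w (q : L) = 1) (Q : Sylow r (S ≃ₐ[ℚ] S))
    (H1 : ∀ x : P.rootSet S, ¬ r ∣ (2 * slope w (iL (x : S)) - 1).den)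
    (H2 : ∀ Φ : Finset (P.rootSet S), IsHalf bar Φ →
      (r ≠ 2 → ∀ g : Q, ∀ x ∈ Φ, g • x ∈ Φ) →
      ¬ (r : ℤ) ∣ (∑ x ∈ Φ, (2 * slope w (iL (x : S)) - 1)).num)
    (d : P.rootSet S → ℕ) (m j : ℕ) (hm : m ≠ 0) (hd : ∑ x, d x = 2 * j)
    (hrel : (∏ x : P.rootSet S, (x : S) ^ (d x)) ^ m = (q : S) ^ (m * j)) (x : P.rootSet S) :
    d x = d (bar x) := by
  classical
  have hr' : r.Prime := hr.out
  have htrans : MulAction.IsPretransitive (S ≃ₐ[ℚ] S) (P.rootSet S) := rootSet_pretransitive hP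
  have hcard : Nat.card (P.rootSet S) = 2 * r ^ k := by
    rw [Nat.card_eq_fintype_card, ← hdeg]
    exact card_rootSet_eq_natDegree hP.separable hS
  have hqL : (q : L) ≠ 0 := by
    intro h0
    rw [h0, AddValuation.map_zero] at hw
    exact absurd hw (by simp)
  -- the slopes
  let e : P.rootSet S → ℚ := fun x => 2 * slope w (iL x) - 1
  have he : ∀ x, e (bar x) = - e x := slope_bar iL w hne hw hmul
  have hrelE : ∀ g : S ≃ₐ[ℚ] S, ∑ x, (d x : ℚ) * e (g • x) = 0 :=
    slope_relation iL w hqL hne hw d m j hm hd hrel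
  -- clear denominators
  let D : ℕ := ∏ x, (e x).den
  have hD : ¬ r ∣ D := by
    intro h
    obtain ⟨x, _, hx⟩ := (Prime.dvd_finsetProd_iff hr'.prime _).1 h
    exact H1 x hx
  have hE : ∀ x, ∃ n : ℤ, (n : ℚ) = D * e x := by
    intro x
    obtain ⟨c, hc⟩ : (e x).den ∣ D := Finset.dvd_prod_of_mem _ (Finset.mem_univ x)
    refine ⟨c * (e x).num, ?_⟩
    rw [hc]
    push_cast
    have := Rat.den_mul_eq_num (e x)
    rw [← this]; ring
  choose E hE using hE
  have h9 : (d x : ℤ) = d (bar x) := by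
    refine relation_trivial (G := S ≃ₐ[ℚ] S) (r := r) hcard hbar hfix hcomm Q E ?_ ?_
      (fun x => (d x : ℤ)) ?_ x
    · intro x
      have : (E (bar x) : ℚ) = ((- E x : ℤ) : ℚ) := by
        push_cast
        rw [hE, hE, he]; ring
      exact_mod_cast this
    · intro Φ hΦ hΦs hdvd
      apply H2 Φ hΦ hΦs
      set s : ℚ := ∑ x ∈ Φ, (2 * slope w (iL (x : S)) - 1) with hs
      have h13 : ((∑ x ∈ Φ, E x : ℤ) : ℚ) = D * s := by
        push_cast
        rw [hs, Finset.mul_sum]
        exact Finset.sum_congr rfl fun x _ => hE x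
      have h14 : (∑ x ∈ Φ, E x) * s.den = D * s.num := by
        have : (((∑ x ∈ Φ, E x) * s.den : ℤ) : ℚ) = ((D * s.num : ℤ) : ℚ) := by
          rw [Int.cast_mul, h13]
          push_cast
          rw [mul_assoc, Rat.mul_den_eq_num]
        exact_mod_cast this
      have h15 : (r : ℤ) ∣ D * s.num := by
        rw [← h14]
        exact Dvd.dvd.mul_right hdvd _
      rcases (Nat.prime_iff_prime_int.1 hr').dvd_or_dvd h15 with h16 | h16
      · exact absurd (by exact_mod_cast h16) hD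
      · exact h16
    · intro g
      have : ((∑ x, (d x : ℤ) * E (g • x) : ℤ) : ℚ) = D * ∑ x, (d x : ℚ) * e (g • x) := by
        push_cast
        rw [Finset.mul_sum]
        refine Finset.sum_congr rfl fun x _ => ?_
        rw [hE]; ring
      rw [hrelE g, mul_zero] at this
      exact_mod_cast this
  exact_mod_cast h9

end relation

end Pool.Agent.Lib.MP_021685_ag
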