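import Mathlib
import Pool.Agent.Lib.MP_021685_ag.Weil

/-!
# Multiplicative relations between Frobenius eigenvalues of K3 type
-/

set_option autoImplicit false

open Polynomial

namespace Pool.Agent.Lib.MP_021685_ag

section half

variable {Ω : Type*} [Fintype Ω] [DecidableEq Ω] {bar : Ω → Ω}

theorem half_abs_sum (hbar : ∀ x, bar (bar x) = x) (E : Ω → ℤ) (hE : ∀ x, E (bar x) = - E x)
    (hE1 : ∀ x, E x = 1 ∨ E x = 0 ∨ E x = -1) {Φ : Finset Ω} (hΦ : IsHalf bar Φ) :
    ∑ x ∈ Φ, |E x| = ((Finset.univ.filter fun x => E x = 1).card : ℤ) := by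
  have h1 := sum_univ_eq_half hbar (fun x => if E x = 1 then (1 : ℤ) else 0) hΦ
  rw [Finset.sum_boole] at h1
  rw [h1]
  refine Finset.sum_congr rfl fun x _ => ?_
  rw [hE]
  rcases hE1 x with h | h | h <;> simp [h]

theorem half_sum_not_dvd (hbar : ∀ x, bar (bar x) = x) (E : Ω → ℤ)
    (hE : ∀ x, E (bar x) = - E x)
    (hE1 : ∀ x, E x = 1 ∨ E x = 0 ∨ E x = -1) {Φ : Finset Ω} (hΦ : IsHalf bar Φ) {r a : ℕ}
    (ha : (Finset.univ.filter fun x => E x = 1).card = a)
    (hodd : Odd a) (h : r = 2 ∨ a < r) :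
    ¬ (r : ℤ) ∣ ∑ x ∈ Φ, E x := by
  have h0 := half_abs_sum hbar E hE hE1 hΦ
  rw [ha] at h0
  have h1 : |∑ x ∈ Φ, E x| ≤ a := by
    rw [← h0]
    exact Finset.abs_sum_le_sum_abs _ _
  have h2 : Even (∑ x ∈ Φ, (|E x| - E x)) := by
    apply Finset.even_sum
    intro x _
    rcases hE1 x with h | h | h <;> simp [h]
  rw [Finset.sum_sub_distrib, h0] at h2
  rcases h with rfl | har
  · intro hdvd
    have h3 : Even (∑ x ∈ Φ, E x) := by
      rw [even_iff_two_dvd]
      exact_mod_cast hdvd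
    have h4 : Even (a : ℤ) := by
      have := h2.add h3
      rwa [sub_add_cancel] at this
    rw [Int.even_coe_nat] at h4
    exact (Nat.not_even_iff_odd.2 hodd) h4
  · have hne : ∑ x ∈ Φ, E x ≠ 0 := by
      intro h3
      rw [h3, sub_zero, Int.even_coe_nat] at h2
      exact (Nat.not_even_iff_odd.2 hodd) h2
    intro hdvd
    have h3 := Int.le_of_dvd (abs_pos.2 hne) ((dvd_abs _ _).2 hdvd)
    have h4 : (r : ℤ) ≤ a := h3.trans h1
    have : r ≤ a := by exact_mod_cast h4
    omega

end half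

section relation

variable {Q : ℚ[X]} {S : Type*} [Field S] [Algebra ℚ S]

omit [Algebra ℚ S] in
theorem slope_inv_pair (w : AddValuation S (WithTop ℚ)) {x y : S} (hx : x ≠ 0) (hy : y ≠ 0)
    (h : x * y = 1) : slope w y = - slope w x := by
  have h1 := slope_mul w hx hy
  rw [h, slope_one] at h1
  linarith

theorem slope_relation_one (w : AddValuation S (WithTop ℚ))
    (hne : ∀ x : Q.rootSet S, (x : S) ≠ 0) (d : Q.rootSet S → ℕ) (m : ℕ) (hm : m ≠ 0)
    (hrel : (∏ x : Q.rootSet S, (x : S) ^ (d x)) ^ m = 1) (g : S ≃ₐ[ℚ] S) :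
    ∑ x : Q.rootSet S, (d x : ℚ) * slope w ((g • x : Q.rootSet S) : S) = 0 := by
  have h1 : (∏ x : Q.rootSet S, ((g • x : Q.rootSet S) : S) ^ (d x)) ^ m = 1 := by
    have h2 := congrArg (fun z => g z) hrel
    simp only [map_pow, map_prod, map_one] at h2
    exact h2
  have h3 := congrArg (slope w) h1
  rw [slope_pow w (Finset.prod_ne_zero_iff.2 fun x _ => pow_ne_zero _ (hne _)),
    slope_prod w _ _ (fun x _ => pow_ne_zero _ (hne _)), slope_one] at h3
  simp only [slope_pow w (hne _)] at h3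
  have hm' : (m : ℚ) ≠ 0 := by exact_mod_cast hm
  exact (mul_eq_zero.1 h3).resolve_left hm'

/-- All multiplicative relations between the roots of `Q` are trivial. -/
theorem k3_balanced {r k a : ℕ} (hr : r.Prime) (hQ : Irreducible Q)
    (hdeg : Q.natDegree = 2 * r ^ k) [IsSplittingField ℚ S Q]
    (w : AddValuation S (WithTop ℚ)) (s : ℚ) (hs : 0 < s)
    (hslope : ∀ x ∈ Q.rootSet S, w x = s ∨ w x = 0 ∨ w x = ((-s : ℚ) : WithTop ℚ))
    (ha : {x ∈ Q.rootSet S | w x = s}.ncard = a)
    (h : (Odd a ∧ (r = 2 ∨ a < r)) ∨ (r ≠ 2 ∧ ∃ P : Sylow r (S ≃ₐ[ℚ] S), ∃ x ∈ Q.rootSet S,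
      ∃ N : ℤ, ∑ᶠ y ∈ MulAction.orbit P x, slope w y = s * N ∧ ¬ (r : ℤ) ∣ N))
    (hne : ∀ x : Q.rootSet S, (x : S) ≠ 0)
    {bar : Q.rootSet S → Q.rootSet S} (hbar : ∀ x, bar (bar x) = x)
    (hmul : ∀ x : Q.rootSet S, (x : S) * (bar x : S) = 1)
    (hcomm : ∀ (g : S ≃ₐ[ℚ] S) (x : Q.rootSet S), g • bar x = bar (g • x)) :
    (∀ x, bar x ≠ x) ∧ (∀ (d : Q.rootSet S → ℕ) (m : ℕ), m ≠ 0 →
      (∏ x : Q.rootSet S, (x : S) ^ (d x)) ^ m = 1 → ∀ x, d x = d (bar x)) := by
  classical
  have hfr : Fact r.Prime := ⟨hr⟩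
  have hfin : FiniteDimensional ℚ S := IsSplittingField.finiteDimensional S Q
  have hnormal : Normal ℚ S := Normal.of_isSplittingField Q
  have hS := IsSplittingField.splits S Q
  have hcardF : Fintype.card (Q.rootSet S) = 2 * r ^ k := by
    rw [card_rootSet_eq_natDegree hQ.separable hS, hdeg]
  have hcard : Nat.card (Q.rootSet S) = 2 * r ^ k := by
    rw [Nat.card_eq_fintype_card, hcardF]
  have htrans : MulAction.IsPretransitive (S ≃ₐ[ℚ] S) (Q.rootSet S) := rootSet_pretransitive hQ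
  -- integer slopes
  have hslope' : ∀ x : Q.rootSet S, ∃ e : ℤ, (e = 1 ∨ e = 0 ∨ e = -1) ∧ slope w (x : S) = s * e := by
    intro x
    rcases hslope x x.2 with hx | hx | hx
    · exact ⟨1, Or.inl rfl, by rw [slope, hx]; simp⟩
    · exact ⟨0, Or.inr (Or.inl rfl), by rw [slope, hx]; simp⟩
    · exact ⟨-1, Or.inr (Or.inr rfl), by rw [slope, hx, WithTop.untopD_coe]; simp⟩
  choose E hE1 hEs using hslope'
  have hE : ∀ x, E (bar x) = - E x := by
    intro x
    have h1 := slope_inv_pair w (hne x) (hne (bar x)) (hmul x)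
    rw [hEs, hEs] at h1
    have h2 : s * ((E (bar x) : ℚ) + E x) = 0 := by linear_combination h1
    have h3 : ((E (bar x) + E x : ℤ) : ℚ) = 0 := by
      push_cast
      exact (mul_eq_zero.1 h2).resolve_left hs.ne'
    have h4 : E (bar x) + E x = 0 := by exact_mod_cast h3
    omega
  have hEw : ∀ x : Q.rootSet S, E x = 1 ↔ w (x : S) = s := by
    intro x
    have h1 := coe_slope w (hne x)
    rw [← h1, hEs]
    constructor
    · intro h2; rw [h2]; simp
    · intro h2
      have h3 : s * (E x : ℚ) = s := by exact_mod_cast h2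
      have h4 : (E x : ℚ) = 1 := by
        have h5 : s * ((E x : ℚ) - 1) = 0 := by linear_combination h3
        have := (mul_eq_zero.1 h5).resolve_left hs.ne'
        linarith
      exact_mod_cast h4
  have haE : (Finset.univ.filter fun x => E x = 1).card = a := by
    rw [← ha, ← Set.ncard_coe_finset]
    refine (Set.ncard_congr (fun (x : Q.rootSet S) _ => (x : S)) ?_ ?_ ?_)
    · intro x hx
      rw [Finset.mem_coe, Finset.mem_filter] at hx
      exact ⟨x.2, (hEw x).1 hx.2⟩
    · intro x y _ _ hxy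
      exact Subtype.ext hxy
    · rintro x ⟨hx, hx2⟩
      refine ⟨⟨x, hx⟩, ?_, rfl⟩
      rw [Finset.mem_coe, Finset.mem_filter]
      exact ⟨Finset.mem_univ _, (hEw ⟨x, hx⟩).2 hx2⟩
  -- some slope is nonzero
  have hex : ∃ x, E x ≠ 0 := by
    by_contra hcon
    push Not at hcon
    have h0 : a = 0 := by
      rw [← haE, Finset.card_eq_zero, Finset.filter_eq_empty_iff]
      intro x _
      rw [hcon x]; norm_num
    rcases h with ⟨hodd, _⟩ | ⟨_, P, x, hx, N, hsum, hN⟩
    · rw [h0] at hodd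
      exact absurd hodd (by decide)
    · apply hN
      have h2 : ∑ᶠ y ∈ MulAction.orbit P x, slope w y = 0 := by
        apply finsum_mem_of_eqOn_zero
        rintro _ ⟨g, rfl⟩
        have h1 := hEs (g • (⟨x, hx⟩ : Q.rootSet S))
        rw [hcon, Int.cast_zero, mul_zero] at h1
        exact h1
      rw [h2] at hsum
      have h3 : (N : ℚ) = 0 := (mul_eq_zero.1 hsum.symm).resolve_left hs.ne'
      have h4 : N = 0 := by exact_mod_cast h3
      rw [h4]
      exact dvd_zero _
  have hfix : ∀ x, bar x ≠ x := by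
    intro x hx
    obtain ⟨y, hy⟩ := hex
    obtain ⟨g, hg⟩ := MulAction.exists_smul_eq (S ≃ₐ[ℚ] S) x y
    have h1 : bar y = y := by rw [← hg, ← hcomm, hx]
    have h2 := hE y
    rw [h1] at h2
    omega
  refine ⟨hfix, fun d m hm hrel x => ?_⟩
  -- a Sylow subgroup with the required property
  obtain ⟨P, hP⟩ : ∃ P : Sylow r (S ≃ₐ[ℚ] S), ∀ Φ : Finset (Q.rootSet S), IsHalf bar Φ →
      (r ≠ 2 → ∀ g : P, ∀ x ∈ Φ, g • x ∈ Φ) → ¬ (r : ℤ) ∣ ∑ x ∈ Φ, E x := by
    by_cases hA : Odd a ∧ (r = 2 ∨ a < r)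
    · exact ⟨default, fun Φ hΦ _ => half_sum_not_dvd hbar E hE hE1 hΦ haE hA.1 hA.2⟩
    · obtain ⟨hr2, P, x₀, hx₀, N, hsum, hN⟩ := h.resolve_left hA
      refine ⟨P, fun Φ hΦ hΦs => ?_⟩
      let b : Q.rootSet S := ⟨x₀, hx₀⟩
      let O : Finset (Q.rootSet S) := (MulAction.orbit P b).toFinset
      have hOmem : ∀ x, x ∈ O ↔ ∃ g : P, g • b = x := by
        intro x
        rw [Set.mem_toFinset]
        rfl
      have hsum' : ∑ᶠ y ∈ MulAction.orbit P x₀, slope w y = s * ((∑ x ∈ O, E x : ℤ) : ℚ) := by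
        have h3 : MulAction.orbit P x₀ =
            ((O.map (Function.Embedding.subtype _) : Finset S) : Set S) := by
          ext β
          rw [Finset.mem_coe, Finset.mem_map]
          constructor
          · rintro ⟨g, rfl⟩
            exact ⟨g • b, (hOmem _).2 ⟨g, rfl⟩, rfl⟩
          · rintro ⟨x, hx, rfl⟩
            obtain ⟨g, rfl⟩ := (hOmem _).1 hx
            exact ⟨g, rfl⟩
        rw [h3, finsum_mem_coe_finset, Finset.sum_map]
        push_cast
        rw [Finset.mul_sum]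
        exact Finset.sum_congr rfl fun x _ => hEs x
      have hOne : ¬ (r : ℤ) ∣ ∑ x ∈ O, E x := by
        have h0 : s * (((∑ x ∈ O, E x : ℤ) : ℚ) - N) = 0 := by
          rw [mul_sub, ← hsum', hsum, sub_self]
        have h1 : ((∑ x ∈ O, E x : ℤ) : ℚ) = N :=
          sub_eq_zero.1 ((mul_eq_zero.1 h0).resolve_left hs.ne')
        have h2 : ∑ x ∈ O, E x = N := by exact_mod_cast h1
        rw [h2]
        exact hN
      have hOcard : r ^ k ≤ O.card := by
        have h3 := pow_dvd_card_sylow_orbit (G := S ≃ₐ[ℚ] S) two_ne_zero hcard P b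
        have h4 : O.card = Nat.card (MulAction.orbit P b) := by
          rw [Set.toFinset_card, Nat.card_eq_fintype_card]
        rw [h4]
        have hne : Nonempty (MulAction.orbit P b) := ⟨⟨b, MulAction.mem_orbit_self b⟩⟩
        exact Nat.le_of_dvd Nat.card_pos h3
      have hΦcard : Φ.card = r ^ k := by
        have h3 := sum_univ_eq_half hbar (fun _ : Q.rootSet S => 1) hΦ
        simp only [Finset.sum_const, Finset.card_univ, smul_eq_mul, hcardF] at h3
        omega
      by_cases hb : b ∈ Φ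
      · have h3 : O ⊆ Φ := by
          intro x hx
          obtain ⟨g, rfl⟩ := (hOmem _).1 hx
          exact hΦs hr2 g b hb
        have h4 : O = Φ := Finset.eq_of_subset_of_card_le h3 (by rw [hΦcard]; exact hOcard)
        rw [← h4]
        exact hOne
      · have hba : bar b ∈ Φ := by
          by_contra h
          exact hb ((hΦ b).2 h)
        have hinj : Function.Injective bar := fun x z h => by rw [← hbar x, h, hbar]
        have h3 : O.image bar ⊆ Φ := by
          intro x hx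
          obtain ⟨z, hz, rfl⟩ := Finset.mem_image.1 hx
          obtain ⟨g, rfl⟩ := (hOmem _).1 hz
          have h4 : bar (g • b) = g • bar b := (hcomm (g : S ≃ₐ[ℚ] S) b).symm
          rw [h4]
          exact hΦs hr2 g _ hba
        have h4 : O.image bar = Φ := Finset.eq_of_subset_of_card_le h3 (by
          rw [hΦcard, Finset.card_image_of_injective _ hinj]; exact hOcard)
        rw [← h4, Finset.sum_image (fun x _ z _ h => hinj h)]
        have h6 : ∑ x ∈ O, E (bar x) = - ∑ x ∈ O, E x := by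
          rw [← Finset.sum_neg_distrib]
          exact Finset.sum_congr rfl fun x _ => hE x
        rw [h6, dvd_neg]
        exact hOne
  have h9 : (d x : ℤ) = d (bar x) := by
    refine relation_trivial (G := S ≃ₐ[ℚ] S) (r := r) hcard hbar hfix hcomm P E hE hP
      (fun x => (d x : ℤ)) ?_ x
    intro g
    have h1 := slope_relation_one w hne d m hm hrel g
    have h2 : ∑ x : Q.rootSet S, (d x : ℚ) * slope w ((g • x : Q.rootSet S) : S) =
        s * ((∑ x, (d x : ℤ) * E (g • x) : ℤ) : ℚ) := by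
      push_cast
      rw [Finset.mul_sum]
      refine Finset.sum_congr rfl fun x _ => ?_
      rw [hEs]; ring
    rw [h2] at h1
    have h3 := (mul_eq_zero.1 h1).resolve_left hs.ne'
    exact_mod_cast h3
  exact_mod_cast h9

end relation

end Pool.Agent.Lib.MP_021685_ag
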