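import Mathlib
import Pool.Agent.Lib.MP_021685_ag.K3Forms
import Pool.Agent.Lib.MP_021685_ag.K3Rel

/-!
# Tate classes on powers of K3 surfaces, from multiplicative relations
-/

set_option autoImplicit false

open Polynomial

namespace Pool.Agent.Lib.MP_021685_ag

section descent

variable {K K' H : Type*} [Field K] [Field K'] [Algebra K K'] [AddCommGroup H] [Module K H]

/-- `K'`-valued functions all of whose coordinates lie in a given `K`-space. -/
def coordSub (K' : Type*) [Field K'] [Algebra K K'] {X : Type*} (W : Submodule K (X → K)) :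
    Submodule K' (X → K') where
  carrier := {g | ∀ τ : K' →ₗ[K] K, (fun v => τ (g v)) ∈ W}
  zero_mem' := by
    intro τ
    have : (fun v : X => τ ((0 : X → K') v)) = 0 := by funext v; simp
    rw [this]; exact W.zero_mem
  add_mem' := by
    intro a b ha hb τ
    have : (fun v : X => τ ((a + b) v)) = (fun v => τ (a v)) + (fun v => τ (b v)) := by
      funext v; simp
    rw [this]; exact W.add_mem (ha τ) (hb τ)
  smul_mem' := by
    intro c a ha τ
    exact ha (τ ∘ₗ (LinearMap.mulLeft K c))

theorem mem_of_algebraMap_mem_coordSub {X : Type*} (W : Submodule K (X → K)) (g : X → K)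
    (hg : (fun v => algebraMap K K' (g v)) ∈ coordSub K' W) : g ∈ W := by
  obtain ⟨τ, hτ⟩ := LinearMap.exists_leftInverse_of_injective (Algebra.linearMap K K') (by
    rw [LinearMap.ker_eq_bot]
    exact (algebraMap K K').injective)
  have h1 := hg τ
  have h2 : (fun v => τ (algebraMap K K' (g v))) = g := by
    funext v
    have := congrArg (fun f : K →ₗ[K] K => f (g v)) hτ
    simpa using this
  rwa [h2] at h1

/-- A balanced product of eigenforms has coordinates in the span of the Tate products. -/
theorem balanced_product_mem [FiniteDimensional K K'] (F : Module.End K H) {n : ℕ} (M : ℕ)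
    (hM : 0 < M) (l : Fin n → (H →ₗ[K] K')) (μ : Fin n → K') (hl : ∀ i v, l i (F v) = μ i * l i v)
    (σ : Fin n → Fin n) (hσ : ∀ i, σ (σ i) = i) (h1 : ∀ i, σ i = i → μ i ^ M = 1)
    (h2 : ∀ i, σ i ≠ i → μ i * μ (σ i) = 1) :
    (prodForms K K' H n l) ∈ coordSub K'
      (Submodule.span K {D : (Fin n → H) → K | IsTateProduct F D}) := by
  classical
  intro τ
  let e := Module.finBasis K K'
  let I₀ : Finset (Fin n) := Finset.univ.filter fun i => i ≤ σ i
  let φ : Fin n → (Fin n → H) → K' := fun i v =>
    if σ i = i then l i (v i) else l i (v i) * l (σ i) (v (σ i))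
  have hpow : ∀ i (m : ℕ) v, l i ((F ^ m) v) = μ i ^ m * l i v := by
    intro i m
    induction m with
    | zero => intro v; simp
    | succ m ih =>
      intro v
      rw [pow_succ, Module.End.mul_apply, ih, hl, pow_succ, mul_assoc]
  have hprod : ∀ v, prodForms K K' H n l v = ∏ i ∈ I₀, φ i v := by
    intro v
    rw [prodForms_apply, prod_involution σ hσ (fun i => l i (v i))]
  have hexp : ∀ v, ∏ i ∈ I₀, φ i v =
      ∑ p ∈ I₀.pi (fun _ => (Finset.univ : Finset (Fin (Module.finrank K K')))),
        (∏ x ∈ I₀.attach, e.coord (p x.1 x.2) (φ x.1 v)) • ∏ x ∈ I₀.attach, e (p x.1 x.2) := by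
    intro v
    have h3 : ∀ i, φ i v = ∑ a, e.coord a (φ i v) • e a := fun i => (e.sum_repr (φ i v)).symm
    conv_lhs => rw [Finset.prod_congr rfl (fun i _ => h3 i)]
    rw [Finset.prod_sum]
    refine Finset.sum_congr rfl fun p _ => ?_
    rw [Finset.prod_smul]
  have hfun : (fun v => τ (prodForms K K' H n l v)) =
      ∑ p ∈ I₀.pi (fun _ => (Finset.univ : Finset (Fin (Module.finrank K K')))),
        τ (∏ x ∈ I₀.attach, e (p x.1 x.2)) •
          (fun v => ∏ x ∈ I₀.attach, e.coord (p x.1 x.2) (φ x.1 v)) := by
    funext v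
    rw [hprod, hexp, map_sum, Finset.sum_apply]
    refine Finset.sum_congr rfl fun p _ => ?_
    rw [map_smul, Pi.smul_apply, smul_eq_mul, smul_eq_mul, mul_comm]
  rw [hfun]
  apply Submodule.sum_mem
  intro p _
  apply Submodule.smul_mem
  apply Submodule.subset_span
  refine ⟨σ, fun i => if h : i ∈ I₀ then
      (if σ i = i then (e.coord (p i h)) ∘ₗ (l i) else 0) else 0,
    fun i => if h : i ∈ I₀ then
      (if σ i = i then 0 else ((LinearMap.mul K K').compl₁₂ (l i) (l (σ i))).compr₂
        (e.coord (p i h))) else 0, hσ, ?_, ?_, ?_⟩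
  · intro i
    refine ⟨M, hM, fun v => ?_⟩
    by_cases h : i ∈ I₀
    · by_cases h' : σ i = i
      · simp only [dif_pos h, if_pos h', LinearMap.comp_apply]
        rw [hpow, h1 i h', one_mul]
      · simp [h']
    · simp [h]
  · intro i v w
    by_cases h : i ∈ I₀
    · by_cases h' : σ i = i
      · simp [h']
      · simp only [dif_pos h, if_neg h', LinearMap.compr₂_apply, LinearMap.compl₁₂_apply,
          LinearMap.mul_apply']
        rw [hl, hl]
        congr 1
        rw [mul_mul_mul_comm, h2 i h', one_mul]
    · simp [h]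
  · intro v
    rw [← Finset.prod_attach]
    refine Finset.prod_congr rfl fun x _ => ?_
    have hx : (x : Fin n) ∈ I₀ := x.2
    by_cases h' : σ x = x
    · simp only [φ, if_pos h', dif_pos hx, LinearMap.comp_apply]
    · simp only [φ, if_neg h', dif_pos hx, LinearMap.compr₂_apply, LinearMap.compl₁₂_apply,
        LinearMap.mul_apply']

end descent

section main

variable {Q : ℚ[X]} {S : Type*} [Field S] [Algebra ℚ S] [IsSplittingField ℚ S Q]

/-- If all multiplicative relations between the roots of `Q` are trivial, then Tate forms are sums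
of products of Tate forms of degree one and two. -/
theorem tateForm_mem_span (hQ : Irreducible Q) {M : ℕ} (hM : 0 < M)
    {bar : Q.rootSet S → Q.rootSet S} (hbar : ∀ x, bar (bar x) = x) (hfix : ∀ x, bar x ≠ x)
    (hmul : ∀ x : Q.rootSet S, (x : S) * (bar x : S) = 1)
    (hrel : ∀ (d : Q.rootSet S → ℕ) (m : ℕ), m ≠ 0 →
      (∏ x : Q.rootSet S, (x : S) ^ (d x)) ^ m = 1 → ∀ x, d x = d (bar x))
    {K : Type*} [Field K] [CharZero K] {H : Type*} [AddCommGroup H] [Module K H]
    [FiniteDimensional K H] (F : Module.End K H)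
    (hF : aeval F (((X ^ M - 1) * Q).map (algebraMap ℚ K)) = 0) {n : ℕ}
    (B : MultilinearMap K (fun _ : Fin n => H) K) (hB : IsTateForm F fun v => B v) :
    (fun v => B v) ∈ Submodule.span K {D : (Fin n → H) → K | IsTateProduct F D} := by
  classical
  have hS := IsSplittingField.splits S Q
  -- a root
  obtain ⟨x₀⟩ : Nonempty (Q.rootSet S) := by
    have h1 : 0 < Fintype.card (Q.rootSet S) := by
      rw [card_rootSet_eq_natDegree hQ.separable hS]
      exact hQ.natDegree_pos
    exact Fintype.card_pos_iff.1 h1
  -- no root of `Q` is a root of unity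
  have hcop : IsCoprime (X ^ M - 1 : ℚ[X]) Q := by
    apply IsCoprime.symm
    rw [hQ.coprime_iff_not_dvd]
    intro hdvd
    have h2 : (x₀ : S) ^ M = 1 := by
      have h3 : aeval (x₀ : S) (X ^ M - 1 : ℚ[X]) = 0 := by
        obtain ⟨c, hc⟩ := hdvd
        rw [hc, map_mul, aeval_eq_zero_of_mem_rootSet x₀.2, zero_mul]
      rw [map_sub, map_pow, aeval_X, map_one] at h3
      exact sub_eq_zero.1 h3
    have h4 := hrel (fun x => if x = x₀ then 1 else 0) M hM.ne' (by
      rw [Finset.prod_eq_single x₀]
      · simpa using h2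
      · intro y _ hy; simp [hy]
      · intro h; exact absurd (Finset.mem_univ _) h) x₀
    rw [if_pos rfl, if_neg (hfix x₀)] at h4
    exact one_ne_zero h4
  have hsepM : (X ^ M - 1 : ℚ[X]).Separable := by
    have := Polynomial.separable_X_pow_sub_C (n := M) (1 : ℚ) (by exact_mod_cast hM.ne')
      one_ne_zero
    simpa using this
  have hsep : ((X ^ M - 1) * Q : ℚ[X]).Separable := hsepM.mul hQ.separable hcop
  set P : K[X] := ((X ^ M - 1) * Q : ℚ[X]).map (algebraMap ℚ K) with hPdef
  obtain ⟨K', hK'1, hK'2, hK'3, hsplit⟩ : ∃ (K' : Type _) (_ : Field K') (_ : Algebra K K')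
      (_ : FiniteDimensional K K'), (P.map (algebraMap K K')).Splits :=
    ⟨P.SplittingField, inferInstance, inferInstance, inferInstance, SplittingField.splits _⟩
  have hchar : CharZero K' := charZero_of_injective_algebraMap (algebraMap K K').injective
  have hmap : P.map (algebraMap K K') = ((X ^ M - 1) * Q : ℚ[X]).map (algebraMap ℚ K') := by
    rw [hPdef, Polynomial.map_map]
    congr 1
    exact Subsingleton.elim _ _
  have hP'0 : P.map (algebraMap K K') ≠ 0 := by
    rw [hmap]
    exact (Polynomial.map_ne_zero_iff (algebraMap ℚ K').injective).2 hsep.ne_zero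
  have hsplitQ : (Q.map (algebraMap ℚ K')).Splits := by
    have h1 : Q.map (algebraMap ℚ K') ∣ P.map (algebraMap K K') := by
      rw [hmap, Polynomial.map_mul]
      exact dvd_mul_left _ _
    exact Polynomial.Splits.of_dvd hsplit hP'0 h1
  let i : S →ₐ[ℚ] K' := IsSplittingField.lift S Q hsplitQ
  -- eigenforms span
  have hspan : ∀ l : H →ₗ[K] K', l ∈ Submodule.span K' {u : H →ₗ[K] K' |
      ∃ x ∈ (P.map (algebraMap K K')).roots, preComp K' F u = x • u} := by
    intro l
    refine span_eigenvectors (preComp K' F) (P.map (algebraMap K K')) hsplit ?_ ?_ l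
    · rw [hmap]; exact hsep.map
    · apply LinearMap.ext
      intro u
      rw [aeval_preComp, hF, LinearMap.comp_zero]
      rfl
  -- classification of the eigenvalues
  have hroot : ∀ x ∈ (P.map (algebraMap K K')).roots, x ^ M = 1 ∨ ∃ y : Q.rootSet S, i y = x := by
    intro x hx
    rw [hmap, mem_roots (by rw [← hmap]; exact hP'0), IsRoot.def, eval_map_algebraMap, map_mul,
      mul_eq_zero] at hx
    rcases hx with hx | hx
    · left
      rw [map_sub, map_pow, aeval_X, map_one] at hx
      exact sub_eq_zero.1 hx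
    · right
      have hx2 : x ∈ Q.rootSet K' := by
        rw [mem_rootSet_of_ne hQ.ne_zero]; exact hx
      rw [← hS.image_rootSet i] at hx2
      obtain ⟨y, hy, rfl⟩ := hx2
      exact ⟨⟨y, hy⟩, rfl⟩
  apply mem_of_algebraMap_mem_coordSub (K' := K')
  -- reduce to eigenforms
  let I := {l : Fin n → (H →ₗ[K] K') // ∀ j, ∃ x ∈ (P.map (algebraMap K K')).roots,
    preComp K' F (l j) = x • l j}
  let μ : I → Fin n → K' := fun l j => (l.2 j).choose
  have hμ1 : ∀ (l : I) j, μ l j ∈ (P.map (algebraMap K K')).roots := fun l j =>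
    (l.2 j).choose_spec.1
  have hμ2 : ∀ (l : I) j v, l.1 j (F v) = μ l j * l.1 j v := by
    intro l j v
    have := congrArg (fun g : H →ₗ[K] K' => g v) (l.2 j).choose_spec.2
    exact this
  have hin : (fun v => algebraMap K K' (B v)) ∈ Submodule.span K'
      (Set.range fun l : I => prodForms K K' H n l.1) := by
    have h1 := form_mem_span_prod (K' := K') B
    have h2 : Submodule.span K' (Set.range fun l : Fin n → (H →ₗ[K] K') =>
        prodForms K K' H n l) ≤ Submodule.span K' (Set.range fun l : I =>
          prodForms K K' H n l.1) := by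
      rw [Submodule.span_le]
      rintro _ ⟨l, rfl⟩
      have h3 := map_mem_span_of_span (prodForms K K' H n) _ l (fun j => hspan (l j))
      refine Submodule.span_mono ?_ h3
      rintro _ ⟨y, hy, rfl⟩
      exact ⟨⟨y, hy⟩, rfl⟩
    exact h2 h1
  obtain ⟨N, hN, hBN⟩ := hB
  have hpow : ∀ (l : I) j (m : ℕ) v, l.1 j ((F ^ m) v) = μ l j ^ m * l.1 j v := by
    intro l j m
    induction m with
    | zero => intro v; simp
    | succ m ih =>
      intro v
      rw [pow_succ, Module.End.mul_apply, ih, hμ2, pow_succ, mul_assoc]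
  have h2 := mem_span_eigen (preCompN (K := K) K' F n N)
    (fun l : I => prodForms K K' H n l.1) (fun l => (∏ j, μ l j) ^ N) (by
      intro l
      funext v
      change prodForms K K' H n l.1 (fun j => (F ^ N) (v j)) = (∏ j, μ l j) ^ N •
        prodForms K K' H n l.1 v
      rw [prodForms_apply, prodForms_apply, Finset.prod_congr rfl (fun j _ => hpow l j N (v j)),
        Finset.prod_mul_distrib, Finset.prod_pow, smul_eq_mul]) 1 hin (by
      rw [one_smul]
      funext v
      exact congrArg (algebraMap K K') (hBN v))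
  refine (Submodule.span_le.2 ?_) h2
  rintro _ ⟨l, hl, rfl⟩
  change (∏ j, μ l j) ^ N = 1 at hl
  -- labels
  let f : Fin n → Option (Q.rootSet S) := fun j =>
    if h : ∃ y : Q.rootSet S, i y = μ l j then some h.choose else none
  have hf1 : ∀ j y, f j = some y → i y = μ l j := by
    intro j y hy
    by_cases h : ∃ y : Q.rootSet S, i y = μ l j
    · simp only [f, dif_pos h, Option.some.injEq] at hy
      rw [← hy]; exact h.choose_spec
    · simp only [f, dif_neg h] at hy
      exact absurd hy (by simp)
  have hf2 : ∀ j, f j = none → μ l j ^ M = 1 := by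
    intro j hj
    rcases hroot _ (hμ1 l j) with h | h
    · exact h
    · simp only [f, dif_pos h] at hj
      exact absurd hj (by simp)
  have hcount : ∀ x : Q.rootSet S, Nat.card {j // f j = some x} =
      Nat.card {j // f j = some (bar x)} := by
    refine hrel (fun x => Nat.card {j // f j = some x}) (N * M) (Nat.mul_pos hN hM).ne' ?_
    apply i.injective
    have h3 : ∀ j, μ l j ^ (N * M) = (f j).elim 1 (fun x => i x ^ (N * M)) := by
      intro j
      rcases hj : f j with _ | x
      · rw [Option.elim_none, mul_comm, pow_mul, hf2 j hj, one_pow]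
      · rw [Option.elim_some, hf1 j x hj]
    have h4 : ∏ j, μ l j ^ (N * M) = 1 := by
      rw [Finset.prod_pow, pow_mul, hl, one_pow]
    rw [Finset.prod_congr rfl (fun j _ => h3 j)] at h4
    have h5 : ∀ j, (f j).elim (1 : K') (fun x => i x ^ (N * M)) =
        ∏ x : Q.rootSet S, if f j = some x then i x ^ (N * M) else 1 := by
      intro j
      rcases hj : f j with _ | x
      · simp
      · rw [Option.elim_some, Finset.prod_eq_single x]
        · simp
        · intro y _ hy
          rw [if_neg]
          intro h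
          exact hy (Option.some.inj h).symm
        · intro h; exact absurd (Finset.mem_univ _) h
    rw [Finset.prod_congr rfl (fun j _ => h5 j), Finset.prod_comm] at h4
    rw [map_pow, map_prod, map_one, ← Finset.prod_pow, ← h4]
    refine Finset.prod_congr rfl fun x _ => ?_
    rw [Finset.prod_ite, Finset.prod_const_one, mul_one, Finset.prod_const, map_pow, ← pow_mul,
      ← pow_mul, mul_comm (N * M)]
    congr 2
    rw [Nat.card_eq_fintype_card, Fintype.card_subtype]
  obtain ⟨σ, hσ, hσ1, hσ2⟩ := exists_matching hbar hfix f hcount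
  refine balanced_product_mem F M hM l.1 (μ l) (hμ2 l) σ hσ ?_ ?_
  · intro j hj
    apply hf2
    by_contra hne
    obtain ⟨x, hx⟩ := Option.ne_none_iff_exists'.1 hne
    have h3 := hσ2 j x hx
    rw [hj, hx] at h3
    exact hfix x (Option.some.inj h3).symm
  · intro j hj
    rcases hfj : f j with _ | x
    · exact absurd (hσ1 j hfj) hj
    · rw [← hf1 j x hfj, ← hf1 (σ j) (bar x) (hσ2 j x hfj), ← map_mul, hmul, map_one]

end main

end Pool.Agent.Lib.MP_021685_ag
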