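import Mathlib
import Pool.Agent.Lib.MP_021685_ag.Ext

/-!
# Base change of the exterior algebra
-/

set_option autoImplicit false

open Polynomial

open scoped TensorProduct

namespace Pool.Agent.Lib.MP_021685_ag

variable (K K' : Type*) [Field K] [Field K'] [Algebra K K'] {H : Type*} [AddCommGroup H]
  [Module K H]

/-- The inclusion of `K' ⊗ H` in `K' ⊗ ⋀ H`. -/
noncomputable def iot (H : Type*) [AddCommGroup H] [Module K H] :
    K' ⊗[K] H →ₗ[K'] K' ⊗[K] ExteriorAlgebra K H :=
  (ExteriorAlgebra.ι K).baseChange K'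

@[simp] theorem iot_tmul (a : K') (h : H) :
    iot K K' H (a ⊗ₜ h) = a ⊗ₜ ExteriorAlgebra.ι K h := rfl

/-- The action of an endomorphism of `H` on `K' ⊗ ⋀ H`. -/
noncomputable def extMap (F : Module.End K H) :
    K' ⊗[K] ExteriorAlgebra K H →ₐ[K'] K' ⊗[K] ExteriorAlgebra K H :=
  Algebra.TensorProduct.map (AlgHom.id K' K') (ExteriorAlgebra.map F)

@[simp] theorem extMap_tmul (F : Module.End K H) (a : K') (x : ExteriorAlgebra K H) :
    extMap K K' F (a ⊗ₜ x) = a ⊗ₜ ExteriorAlgebra.map F x := rfl

theorem extMap_iot (F : Module.End K H) (v : K' ⊗[K] H) :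
    extMap K K' F (iot K K' H v) = iot K K' H (F.baseChange K' v) := by
  induction v using TensorProduct.induction_on with
  | zero => simp
  | tmul a h => simp [ExteriorAlgebra.map_apply_ι]
  | add x y hx hy => rw [map_add, map_add, map_add, map_add, hx, hy]

theorem iot_anticomm (v w : K' ⊗[K] H) :
    iot K K' H v * iot K K' H w = - (iot K K' H w * iot K K' H v) := by
  induction v using TensorProduct.induction_on with
  | zero => simp
  | add x y hx hy => rw [map_add, add_mul, mul_add, hx, hy, neg_add]
  | tmul a h =>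
    induction w using TensorProduct.induction_on with
    | zero => simp
    | add x y hx hy => rw [map_add, add_mul, mul_add, hx, hy, neg_add]
    | tmul b h' =>
      rw [iot_tmul, iot_tmul, Algebra.TensorProduct.tmul_mul_tmul,
        Algebra.TensorProduct.tmul_mul_tmul, mul_comm b a, ← TensorProduct.tmul_neg]
      congr 1
      exact eq_neg_of_add_eq_zero_left (ExteriorAlgebra.ι_add_mul_swap h h')

/-- Contraction with a functional on `K'`. -/
noncomputable def contr (τ : K' →ₗ[K] K) :
    K' ⊗[K] ExteriorAlgebra K H →ₗ[K] ExteriorAlgebra K H :=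
  (TensorProduct.lid K (ExteriorAlgebra K H)).toLinearMap ∘ₗ
    LinearMap.rTensor (ExteriorAlgebra K H) τ

@[simp] theorem contr_tmul (τ : K' →ₗ[K] K) (a : K') (x : ExteriorAlgebra K H) :
    contr K K' τ (a ⊗ₜ x) = τ a • x := by
  simp [contr]

theorem contr_extMap (τ : K' →ₗ[K] K) (F : Module.End K H) (z : K' ⊗[K] ExteriorAlgebra K H) :
    contr K K' τ (extMap K K' F z) = ExteriorAlgebra.map F (contr K K' τ z) := by
  induction z using TensorProduct.induction_on with
  | zero => simp
  | tmul a h => simp
  | add x y hx hy => rw [map_add, map_add, map_add, map_add, hx, hy]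

theorem contr_iot_mul_iot (τ : K' →ₗ[K] K) (v w : K' ⊗[K] H) :
    contr K K' τ (iot K K' H v * iot K K' H w) ∈ ⋀[K]^2 H := by
  induction v using TensorProduct.induction_on with
  | zero => simp
  | add x y hx hy => rw [map_add, add_mul, map_add]; exact Submodule.add_mem _ hx hy
  | tmul a h =>
    induction w using TensorProduct.induction_on with
    | zero => simp
    | add x y hx hy => rw [map_add, mul_add, map_add]; exact Submodule.add_mem _ hx hy
    | tmul b h' =>
      rw [iot_tmul, iot_tmul, Algebra.TensorProduct.tmul_mul_tmul, contr_tmul]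
      apply Submodule.smul_mem
      rw [ExteriorAlgebra.exteriorPower, pow_two]
      exact Submodule.mul_mem_mul ⟨h, rfl⟩ ⟨h', rfl⟩

/-- The subalgebra of `K' ⊗ ⋀ H` spanned by a subalgebra of `⋀ H`. -/
noncomputable def bc (B : Subalgebra K (ExteriorAlgebra K H)) :
    Subalgebra K' (K' ⊗[K] ExteriorAlgebra K H) :=
  (Algebra.TensorProduct.map (AlgHom.id K' K') B.val).range

theorem contr_bc (B : Subalgebra K (ExteriorAlgebra K H)) (τ : K' →ₗ[K] K)
    {z : K' ⊗[K] ExteriorAlgebra K H} (hz : z ∈ bc K K' B) : contr K K' τ z ∈ B := by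
  obtain ⟨y, rfl⟩ := hz
  change contr K K' τ (Algebra.TensorProduct.map (AlgHom.id K' K') B.val y) ∈ B
  induction y using TensorProduct.induction_on with
  | zero => simp
  | tmul a h =>
    rw [Algebra.TensorProduct.map_tmul, contr_tmul]
    exact B.smul_mem h.2 _
  | add x y hx hy => rw [map_add, map_add]; exact B.add_mem hx hy

theorem mem_of_one_tmul_mem_bc (B : Subalgebra K (ExteriorAlgebra K H))
    {x : ExteriorAlgebra K H} (hx : (1 : K') ⊗ₜ[K] x ∈ bc K K' B) : x ∈ B := by
  obtain ⟨τ, hτ⟩ := LinearMap.exists_leftInverse_of_injective (Algebra.linearMap K K') (by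
    rw [LinearMap.ker_eq_bot]
    exact (algebraMap K K').injective)
  have h1 := contr_bc K K' B τ hx
  rw [contr_tmul] at h1
  have h2 : τ 1 = 1 := by
    have := congrArg (fun f : K →ₗ[K] K => f 1) hτ
    simpa using this
  rwa [h2, one_smul] at h1

theorem mem_bc_of_contr [FiniteDimensional K K'] (B : Subalgebra K (ExteriorAlgebra K H))
    {z : K' ⊗[K] ExteriorAlgebra K H} (hz : ∀ τ : K' →ₗ[K] K, contr K K' τ z ∈ B) :
    z ∈ bc K K' B := by
  let b := Module.finBasis K K'
  have h1 : z = ∑ i, (b i) ⊗ₜ[K] contr K K' (b.coord i) z := by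
    clear hz
    induction z using TensorProduct.induction_on with
    | zero => simp
    | tmul a h =>
      simp only [contr_tmul, TensorProduct.tmul_smul, TensorProduct.smul_tmul']
      rw [← TensorProduct.sum_tmul]
      congr 1
      exact (b.sum_repr a).symm
    | add x y hx hy =>
      simp only [map_add, TensorProduct.tmul_add, Finset.sum_add_distrib]
      rw [← hx, ← hy]
  rw [h1]
  apply Subalgebra.sum_mem
  intro i _
  exact ⟨(b i) ⊗ₜ[K] (⟨_, hz (b.coord i)⟩ : B), by
    change Algebra.TensorProduct.map (AlgHom.id K' K') B.val _ = _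
    rw [Algebra.TensorProduct.map_tmul]; rfl⟩

end Pool.Agent.Lib.MP_021685_ag
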