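import Mathlib
import Pool.Agent.Lib.MP_021685_ag.Tensor
import Pool.Agent.Lib.MP_021685_ag.Weil

/-!
# Tate classes on powers of an abelian variety, from multiplicative relations
-/

set_option autoImplicit false

open Polynomial

open scoped TensorProduct

namespace Pool.Agent.Lib.MP_021685_ag

theorem prod_list_fintype {Ω M : Type*} [Fintype Ω] [DecidableEq Ω] [CommMonoid M] (f : Ω → M)
    (l : List Ω) : (l.map f).prod = ∏ x, f x ^ (l.count x) := by
  rw [Finset.prod_list_map_count]
  apply Finset.prod_subset (Finset.subset_univ _)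
  intro x _ hx
  rw [List.mem_toFinset] at hx
  rw [List.count_eq_zero_of_not_mem hx, pow_zero]

theorem sum_count_fintype {Ω : Type*} [Fintype Ω] [DecidableEq Ω] 
    (l : List Ω) : l.length = ∑ x, l.count x := by
  have h5 := Multiset.sum_count_eq_card (s := Finset.univ)
    (m := (↑l : Multiset Ω)) (fun a _ => Finset.mem_univ a)
  simpa using h5.symm

section

variable {K K' : Type*} [Field K] [Field K'] [Algebra K K'] {H : Type*} [AddCommGroup H]
  [Module K H] {S : Type*} [Field S] {P : ℚ[X]} [Algebra ℚ S]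

/-- Eigenvectors of `F` in `K' ⊗ H`, seen in `K' ⊗ ⋀ H`, with eigenvalue the image of the
root `x`. -/
def eig (F : Module.End K H) (i : S →+* K') (x : P.rootSet S) :
    Set (K' ⊗[K] ExteriorAlgebra K H) :=
  {a | ∃ v : K' ⊗[K] H, F.baseChange K' v = i x • v ∧ iot K K' H v = a}

/-- Lists of eigenvectors of length `N`. -/
def EigList (F : Module.End K H) (P : ℚ[X]) (i : S →+* K') (N : ℕ) :
    Set (List ((K' ⊗[K] ExteriorAlgebra K H) × P.rootSet S)) :=
  {l | l.length = N ∧ ∀ p ∈ l, p.1 ∈ eig F i p.2}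

theorem baseChange_pow_eig (F : Module.End K H) {v : K' ⊗[K] H} {c : K'}
    (h : F.baseChange K' v = c • v) (m : ℕ) : (F ^ m).baseChange K' v = c ^ m • v := by
  induction m with
  | zero => simp
  | succ m ih =>
    rw [pow_succ, Module.End.mul_eq_comp, LinearMap.baseChange_comp, LinearMap.comp_apply, h,
      map_smul, ih, smul_smul, pow_succ, mul_comm]

theorem extMap_list (F : Module.End K H) (i : S →+* K') (m : ℕ)
    (l : List ((K' ⊗[K] ExteriorAlgebra K H) × P.rootSet S)) (hl : ∀ p ∈ l, p.1 ∈ eig F i p.2) :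
    extMap K K' (F ^ m) (l.map Prod.fst).prod =
      (i (l.map fun p => (p.2 : S)).prod) ^ m • (l.map Prod.fst).prod := by
  induction l with
  | nil => simp
  | cons a t ih =>
    obtain ⟨v, hv, hva⟩ := hl a List.mem_cons_self
    rw [List.map_cons, List.prod_cons, map_mul, ih fun p hp => hl p (List.mem_cons_of_mem _ hp),
      List.map_cons, List.prod_cons, ← hva, extMap_iot, baseChange_pow_eig F hv, map_smul,
      smul_mul_smul_comm, map_mul, mul_pow]

theorem one_tmul_mem_span (F : Module.End K H) (P : ℚ[X]) (i : S →+* K')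
    (hspan : ∀ v : K' ⊗[K] H, v ∈ Submodule.span K' {u : K' ⊗[K] H |
      ∃ x : P.rootSet S, F.baseChange K' u = i x • u}) (N : ℕ) :
    ∀ ω ∈ ⋀[K]^N H, (1 : K') ⊗ₜ[K] ω ∈ Submodule.span K'
      (Set.range fun l : EigList (K := K) (H := H) F P i N => (l.1.map Prod.fst).prod) := by
  induction N with
  | zero =>
    intro ω hω
    rw [ExteriorAlgebra.exteriorPower, pow_zero] at hω
    obtain ⟨c, rfl⟩ := Submodule.mem_one.1 hω
    have h1 : (1 : K') ⊗ₜ[K] (algebraMap K (ExteriorAlgebra K H) c) =
        (algebraMap K K' c) • (1 : K' ⊗[K] ExteriorAlgebra K H) := by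
      rw [Algebra.TensorProduct.one_def, TensorProduct.smul_tmul', smul_eq_mul, mul_one,
        Algebra.algebraMap_eq_smul_one, Algebra.algebraMap_eq_smul_one, TensorProduct.smul_tmul]
    change (1 : K') ⊗ₜ[K] (algebraMap K (ExteriorAlgebra K H) c) ∈ Submodule.span K'
      (Set.range fun l : EigList (K := K) (H := H) F P i 0 => (l.1.map Prod.fst).prod)
    rw [h1]
    apply Submodule.smul_mem
    exact Submodule.subset_span ⟨⟨[], rfl, by simp⟩, by simp⟩
  | succ N ih =>
    intro ω hω
    rw [ExteriorAlgebra.exteriorPower, pow_succ'] at hω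
    induction hω using Submodule.mul_induction_on' with
    | mem_mul_mem a ha b hb =>
      obtain ⟨h, rfl⟩ := ha
      have h1 := ih b hb
      have h2 : (1 : K') ⊗ₜ[K] (ExteriorAlgebra.ι K h * b) =
          iot K K' H (1 ⊗ₜ h) * ((1 : K') ⊗ₜ[K] b) := by
        rw [iot_tmul, Algebra.TensorProduct.tmul_mul_tmul, mul_one]
      change (1 : K') ⊗ₜ[K] (ExteriorAlgebra.ι K h * b) ∈ Submodule.span K'
        (Set.range fun l : EigList (K := K) (H := H) F P i (N + 1) => (l.1.map Prod.fst).prod)
      rw [h2]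
      have h3 : ∀ v : K' ⊗[K] H, ∀ z ∈ Submodule.span K'
          (Set.range fun l : EigList (K := K) (H := H) F P i N => (l.1.map Prod.fst).prod),
          iot K K' H v * z ∈ Submodule.span K' (Set.range fun l :
            EigList (K := K) (H := H) F P i (N + 1) => (l.1.map Prod.fst).prod) := by
        intro v z hz
        have hv := hspan v
        induction hv using Submodule.span_induction with
        | mem u hu =>
          obtain ⟨x, hx⟩ := hu
          induction hz using Submodule.span_induction with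
          | mem y hy =>
            obtain ⟨l, rfl⟩ := hy
            apply Submodule.subset_span
            refine ⟨⟨(iot K K' H u, x) :: l.1, ?_, ?_⟩, ?_⟩
            · rw [List.length_cons, l.2.1]
            · intro p hp
              rcases List.mem_cons.1 hp with rfl | hp
              · exact ⟨u, hx, rfl⟩
              · exact l.2.2 p hp
            · simp
          | zero => rw [mul_zero]; exact Submodule.zero_mem _
          | add y y' _ _ hy hy' => rw [mul_add]; exact Submodule.add_mem _ hy hy'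
          | smul c y _ hy => rw [mul_smul_comm]; exact Submodule.smul_mem _ _ hy
        | zero => rw [map_zero, zero_mul]; exact Submodule.zero_mem _
        | add u u' _ _ hu hu' => rw [map_add, add_mul]; exact Submodule.add_mem _ hu hu'
        | smul c u _ hu => rw [map_smul, smul_mul_assoc]; exact Submodule.smul_mem _ _ hu
      exact h3 _ _ h1
    | add a _ b _ ha hb => rw [TensorProduct.tmul_add]; exact Submodule.add_mem _ ha hb

/-- The general mechanism: if all multiplicative relations between the roots of `P` are trivial,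
the Tate classes are generated by those of degree two. -/
theorem tate_of_balanced [FiniteDimensional K K'] (F : Module.End K H) (q : ℕ)
    (i : S →+* K')
    (hspan : ∀ v : K' ⊗[K] H, v ∈ Submodule.span K' {u : K' ⊗[K] H |
      ∃ x : P.rootSet S, F.baseChange K' u = i x • u})
    (bar : P.rootSet S → P.rootSet S) (hbar : ∀ x, bar (bar x) = x) (hfix : ∀ x, bar x ≠ x)
    (hmul : ∀ x : P.rootSet S, (x : S) * (bar x : S) = q)
    (m j : ℕ)
    (hrel : ∀ d : P.rootSet S → ℕ, ∑ x, d x = 2 * j →
      (∏ x : P.rootSet S, (x : S) ^ (d x)) ^ m = (q : S) ^ (m * j) → ∀ x, d x = d (bar x))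
    (ω : ExteriorAlgebra K H) (hω : ω ∈ ⋀[K]^(2 * j) H)
    (hω2 : ExteriorAlgebra.map (F ^ m) ω = (q : K) ^ (m * j) • ω) :
    ω ∈ Algebra.adjoin K {η | η ∈ ⋀[K]^2 H ∧ ExteriorAlgebra.map F η = (q : K) • η} := by
  classical
  set B := Algebra.adjoin K {η : ExteriorAlgebra K H | η ∈ ⋀[K]^2 H ∧
    ExteriorAlgebra.map F η = (q : K) • η} with hB
  apply mem_of_one_tmul_mem_bc K K' B
  have h1 := one_tmul_mem_span F P i hspan (2 * j) ω hω
  have h2 := mem_span_eigen (extMap K K' (F ^ m)).toLinearMap
    (fun l : EigList (K := K) (H := H) F P i (2 * j) => (l.1.map Prod.fst).prod)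
    (fun l => (i (l.1.map fun p => (p.2 : S)).prod) ^ m) (fun l => extMap_list F i m l.1 l.2.2)
    ((q : K') ^ (m * j)) h1 (by
      change extMap K K' (F ^ m) (1 ⊗ₜ ω) = _
      rw [extMap_tmul, hω2, TensorProduct.tmul_smul, TensorProduct.smul_tmul',
        TensorProduct.smul_tmul', Algebra.smul_def, map_pow, map_natCast, smul_eq_mul])
  have h3 : Submodule.span K' ((fun l : EigList (K := K) (H := H) F P i (2 * j) =>
      (l.1.map Prod.fst).prod) '' {l | (i (l.1.map fun p => (p.2 : S)).prod) ^ m =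
        (q : K') ^ (m * j)}) ≤ Subalgebra.toSubmodule (bc K K' B) := by
    rw [Submodule.span_le]
    rintro _ ⟨⟨l, hl, hl2⟩, hlm, rfl⟩
    change i (l.map fun p => (p.2 : S)).prod ^ m = (q : K') ^ (m * j) at hlm
    change (l.map Prod.fst).prod ∈ bc K K' B
    refine balanced_prod_mem hfix hbar (bc K K' B) (eig F i) ?_ ?_ _ l rfl hl2 ?_
    · rintro x y _ ⟨v, _, rfl⟩ _ ⟨w, _, rfl⟩
      exact iot_anticomm K K' v w
    · rintro x _ ⟨v, hv, rfl⟩ _ ⟨w, hw, rfl⟩
      apply mem_bc_of_contr
      intro τ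
      apply Algebra.subset_adjoin
      refine ⟨contr_iot_mul_iot K K' τ v w, ?_⟩
      rw [← contr_extMap, map_mul, extMap_iot, extMap_iot, hv, hw, map_smul, map_smul,
        smul_mul_smul_comm, ← map_mul, hmul, map_natCast]
      have h4 : ((q : K') • (iot K K' H v * iot K K' H w)) =
          (q : K) • (iot K K' H v * iot K K' H w) := by
        rw [Nat.cast_smul_eq_nsmul, Nat.cast_smul_eq_nsmul]
      rw [h4, map_smul]
    · apply hrel
      · rw [← hl, ← sum_count_fintype, List.length_map]
      · apply i.injective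
        rw [map_pow, map_pow, map_natCast, ← hlm, ← prod_list_fintype, List.map_map]
        rfl
  exact h3 h2

end

theorem aeval_baseChange {K K' : Type*} [Field K] [Field K'] [Algebra K K'] {H : Type*}
    [AddCommGroup H] [Module K H] (F : Module.End K H) (p : K[X]) :
    aeval (F.baseChange K') (p.map (algebraMap K K')) = (aeval F p).baseChange K' := by
  induction p using Polynomial.induction_on' with
  | add p q hp hq => rw [Polynomial.map_add, map_add, hp, hq, map_add, LinearMap.baseChange_add]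
  | monomial n a =>
    rw [Polynomial.map_monomial, aeval_monomial, aeval_monomial]
    apply LinearMap.ext
    intro z
    rw [Module.End.mul_apply, Module.algebraMap_end_apply, ← LinearMap.baseChange_pow,
      Module.End.mul_eq_comp, LinearMap.baseChange_comp, LinearMap.comp_apply]
    generalize (F ^ n).baseChange K' z = y
    induction y using TensorProduct.induction_on with
    | zero => simp
    | tmul b h =>
      rw [LinearMap.baseChange_tmul, Module.algebraMap_end_apply, TensorProduct.tmul_smul,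
        algebraMap_smul]
    | add x y hx hy => rw [smul_add, map_add, hx, hy]

/-- The same for an irreducible polynomial over `ℚ`, with the auxiliary field supplied. -/
theorem tate_of_relations {P : ℚ[X]} (hP : Irreducible P) (q : ℕ)
    {S : Type*} [Field S] [Algebra ℚ S] [IsSplittingField ℚ S P]
    (bar : P.rootSet S → P.rootSet S)
    (hbar : ∀ x, bar (bar x) = x) (hfix : ∀ x, bar x ≠ x)
    (hmul : ∀ x : P.rootSet S, (x : S) * (bar x : S) = q)
    (m j : ℕ)
    (hrel : ∀ d : P.rootSet S → ℕ, ∑ x, d x = 2 * j →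
      (∏ x : P.rootSet S, (x : S) ^ (d x)) ^ m = (q : S) ^ (m * j) → ∀ x, d x = d (bar x))
    {K : Type*} [Field K] [CharZero K] {H : Type*} [AddCommGroup H] [Module K H]
    (F : Module.End K H) (hF : aeval F (P.map (algebraMap ℚ K)) = 0)
    (ω : ExteriorAlgebra K H) (hω : ω ∈ ⋀[K]^(2 * j) H)
    (hω2 : ExteriorAlgebra.map (F ^ m) ω = (q : K) ^ (m * j) • ω) :
    ω ∈ Algebra.adjoin K {η | η ∈ ⋀[K]^2 H ∧ ExteriorAlgebra.map F η = (q : K) • η} := by
  classical
  obtain ⟨K', hK'1, hK'2, hK'3, hsplit⟩ : ∃ (K' : Type _) (_ : Field K') (_ : Algebra K K')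
      (_ : FiniteDimensional K K'), ((P.map (algebraMap ℚ K)).map (algebraMap K K')).Splits :=
    ⟨(P.map (algebraMap ℚ K)).SplittingField, inferInstance, inferInstance, inferInstance,
      SplittingField.splits _⟩
  have hchar : CharZero K' := charZero_of_injective_algebraMap (algebraMap K K').injective
  have hmap : P.map (algebraMap ℚ K') = (P.map (algebraMap ℚ K)).map (algebraMap K K') := by
    rw [Polynomial.map_map]
    congr 1
    exact Subsingleton.elim _ _
  rw [← hmap] at hsplit
  let i : S →ₐ[ℚ] K' := IsSplittingField.lift S P hsplit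
  refine tate_of_balanced (K' := K') F q (i : S →+* K') ?_ bar hbar hfix hmul m j
    hrel ω hω hω2
  intro v
  have h2 := span_eigenvectors (F.baseChange K') (P.map (algebraMap ℚ K')) hsplit
    hP.separable.map (by
      rw [hmap, aeval_baseChange, hF, LinearMap.baseChange_zero]) v
  refine Submodule.span_mono ?_ h2
  rintro u ⟨x, hx, hu⟩
  have hx2 : x ∈ P.rootSet K' := by
    rw [rootSet, aroots, Finset.mem_coe, Multiset.mem_toFinset]
    exact hx
  rw [← (IsSplittingField.splits S P).image_rootSet i] at hx2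
  obtain ⟨y, hy, rfl⟩ := hx2
  exact ⟨⟨y, hy⟩, hu⟩

/-- The setting shared by all our applications: it suffices to show that the relations between
the slopes are trivial. -/
theorem tate_of_setup {q : ℕ} {P : ℚ[X]} (hP : Irreducible P) (hq : q ≠ 0)
    (hW : ∀ z : ℂ, aeval z P = 0 → ‖z‖ ^ 2 = q) (m j : ℕ)
    {S : Type*} [Field S] [Algebra ℚ S] [IsSplittingField ℚ S P]
    (hrel : ∀ (bar : P.rootSet S → P.rootSet S),
      (∀ x : P.rootSet S, (x : S) ≠ 0) → (∀ x, bar (bar x) = x) →
      (∀ x : P.rootSet S, (x : S) * (bar x : S) = q) →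
      (∀ (g : S ≃ₐ[ℚ] S) (x : P.rootSet S), g • bar x = bar (g • x)) →
      (∀ x, bar x ≠ x) ∧
      (∀ d : P.rootSet S → ℕ, ∑ x, d x = 2 * j →
      (∏ x : P.rootSet S, (x : S) ^ (d x)) ^ m = (q : S) ^ (m * j) → ∀ x, d x = d (bar x)))
    {K : Type*} [Field K] [CharZero K] {H : Type*} [AddCommGroup H] [Module K H]
    (F : Module.End K H) (hF : aeval F (P.map (algebraMap ℚ K)) = 0)
    (ω : ExteriorAlgebra K H) (hω : ω ∈ ⋀[K]^(2 * j) H)
    (hω2 : ExteriorAlgebra.map (F ^ m) ω = (q : K) ^ (m * j) • ω) :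
    ω ∈ Algebra.adjoin K {η | η ∈ ⋀[K]^2 H ∧ ExteriorAlgebra.map F η = (q : K) • η} := by
  let i : S →ₐ[ℚ] ℂ := IsSplittingField.lift S P (IsAlgClosed.splits _)
  have hne : ∀ x : P.rootSet S, (x : S) ≠ 0 := fun x => root_ne_zero hq hW i x.2
  obtain ⟨bar, hbar, hmul, hcomm⟩ := exists_bar hP.ne_zero hq hW i
  obtain ⟨hfix, hrel'⟩ := hrel bar hne hbar hmul hcomm
  exact tate_of_relations hP q bar hbar hfix hmul m j hrel' F hF ω hω hω2

theorem exists_splittingField (P : ℚ[X]) : ∃ (S : Type) (_ : Field S) (_ : Algebra ℚ S),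
    IsSplittingField ℚ S P :=
  ⟨P.SplittingField, inferInstance, _, IsSplittingField.splittingField P⟩

theorem ne_zero_of_slope {L : Type*} [Field L] {w : AddValuation L (WithTop ℚ)} {q : ℕ}
    (hw : w (q : L) = 1) : q ≠ 0 := by
  rintro rfl
  rw [Nat.cast_zero, AddValuation.map_zero] at hw
  exact absurd hw (by simp)

/-- First application: prime power dimension. -/
theorem tate_prime_power {q r k : ℕ} (hr : r.Prime) {P : ℚ[X]} (hP : Irreducible P)
    (hdeg : P.natDegree = 2 * r ^ k) (hW : ∀ z : ℂ, aeval z P = 0 → ‖z‖ ^ 2 = q)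
    {S : Type*} [Field S] [Algebra ℚ S] [IsSplittingField ℚ S P]
    {L : Type*} [Field L] [Algebra ℚ L] (iL : S →ₐ[ℚ] L)
    (w : AddValuation L (WithTop ℚ)) (hw : w (q : L) = 1) (Q : Sylow r (S ≃ₐ[ℚ] S))
    {y : P.rootSet S} (hy : 2 * slope w (iL (y : S)) - 1 ≠ 0)
    (H1 : ∀ x : P.rootSet S, ¬ r ∣ (2 * slope w (iL (x : S)) - 1).den)
    (H2 : ∀ (bar : P.rootSet S → P.rootSet S), (∀ x, bar (bar x) = x) →
      (∀ x : P.rootSet S, (x : S) * (bar x : S) = q) →
      (∀ x, (2 * slope w (iL (bar x : S)) - 1) = - (2 * slope w (iL (x : S)) - 1)) →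
      (∀ (g : S ≃ₐ[ℚ] S) (x : P.rootSet S), g • bar x = bar (g • x)) →
      ∀ Φ : Finset (P.rootSet S), IsHalf bar Φ →
      (r ≠ 2 → ∀ g : Q, ∀ x ∈ Φ, g • x ∈ Φ) →
      ¬ (r : ℤ) ∣ (∑ x ∈ Φ, (2 * slope w (iL (x : S)) - 1)).num)
    {K : Type*} [Field K] [CharZero K] {H : Type*} [AddCommGroup H] [Module K H]
    (F : Module.End K H) (hF : aeval F (P.map (algebraMap ℚ K)) = 0)
    (m : ℕ) (hm : m ≠ 0) (j : ℕ)
    (ω : ExteriorAlgebra K H) (hω : ω ∈ ⋀[K]^(2 * j) H)
    (hω2 : ExteriorAlgebra.map (F ^ m) ω = (q : K) ^ (m * j) • ω) :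
    ω ∈ Algebra.adjoin K {η | η ∈ ⋀[K]^2 H ∧ ExteriorAlgebra.map F η = (q : K) • η} := by
  classical
  have hfr : Fact r.Prime := ⟨hr⟩
  refine tate_of_setup (S := S) hP (ne_zero_of_slope hw) hW m j ?_ F hF ω hω hω2
  intro bar hne hbar hmul hcomm
  have h1 : FiniteDimensional ℚ S := IsSplittingField.finiteDimensional S P
  have h2 : Normal ℚ S := Normal.of_isSplittingField P
  have hS := IsSplittingField.splits S P
  have hfix : ∀ x, bar x ≠ x := bar_ne_of_slope iL w hP hne hw hmul hy
  exact ⟨hfix, fun d hd hdrel x => rootSet_balanced hP hdeg hS hne hbar hfix hmul hcomm iL w hw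
    Q H1 (H2 bar hbar hmul (slope_bar iL w hne hw hmul) hcomm) d m j hm hd hdrel x⟩

end Pool.Agent.Lib.MP_021685_ag
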