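import Mathlib
import Pool.Agent.Lib.MP_021685_ag.Main

/-!
# Relations modulo a prime
-/

set_option autoImplicit false

open Polynomial

open scoped TensorProduct

namespace Pool.Agent.Lib.MP_021685_ag

section comb

variable {G Ω : Type*} [Group G] [Fintype Ω] [MulAction G Ω] {bar : Ω → Ω}

/-- An integral relation which is not balanced gives a nonzero relation modulo `r`. -/
theorem balanced_of_mod (r : ℕ) [Fact r.Prime]
    (hbar : ∀ x, bar (bar x) = x)
    (hcomm : ∀ (g : G) (x : Ω), g • bar x = bar (g • x))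
    (E : Ω → ℤ) (hE : ∀ x, E (bar x) = - E x) {Φ₀ : Finset Ω} (hΦ₀ : IsHalf bar Φ₀)
    (hno : ∀ c : Ω → ZMod r, (∀ x, c (bar x) = - c x) →
      (∀ g : G, ∑ x ∈ Φ₀, c x * (E (g • x) : ZMod r) = 0) → c = 0)
    (d : Ω → ℤ) (hd : ∀ g : G, ∑ x, d x * E (g • x) = 0) (x : Ω) : d x = d (bar x) := by
  classical
  let b : Ω → ℤ := fun x => d x - d (bar x)
  have hb_odd : ∀ x, b (bar x) = - b x := by
    intro x
    simp only [b, hbar]; ring
  have hb : ∀ g : G, ∑ x ∈ Φ₀, b x * E (g • x) = 0 := by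
    intro g
    rw [← hd g, sum_univ_eq_half hbar _ hΦ₀]
    refine Finset.sum_congr rfl fun x _ => ?_
    rw [hcomm, hE]
    simp only [b]; ring
  have hb0 : ∀ x, b x = 0 := by
    by_contra hcon
    push Not at hcon
    obtain ⟨y, hy⟩ := hcon
    obtain ⟨c, hc1, hc2⟩ := Finset.extract_gcd (s := Finset.univ) b ⟨y, Finset.mem_univ y⟩
    have hd0 : Finset.univ.gcd b ≠ 0 := by
      intro h0
      exact hy (Finset.gcd_eq_zero_iff.mp h0 y (Finset.mem_univ y))
    have hc_odd : ∀ x, c (bar x) = - c x := by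
      intro x
      have h1 := hb_odd x
      rw [hc1 x (Finset.mem_univ x), hc1 (bar x) (Finset.mem_univ _), ← mul_neg] at h1
      exact mul_left_cancel₀ hd0 h1
    have hcrel : ∀ g : G, ∑ x ∈ Φ₀, c x * E (g • x) = 0 := by
      intro g
      have h2 := hb g
      have h3 : ∀ x, b x * E (g • x) = Finset.univ.gcd b * (c x * E (g • x)) := by
        intro x
        rw [hc1 x (Finset.mem_univ x)]; ring
      simp only [h3, ← Finset.mul_sum] at h2
      exact (mul_eq_zero.mp h2).resolve_left hd0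
    have h6 : (fun x => (c x : ZMod r)) = 0 := by
      apply hno
      · intro x; simp only [hc_odd]; push_cast; rfl
      · intro q
        have h7 := congrArg (fun z : ℤ => (z : ZMod r)) (hcrel q)
        push_cast at h7
        exact h7
    have h8 : (r : ℤ) ∣ Finset.univ.gcd c := by
      apply Finset.dvd_gcd
      intro x _
      have h9 := congrFun h6 x
      exact (ZMod.intCast_zmod_eq_zero_iff_dvd _ _).mp h9
    rw [hc2] at h8
    have h11 : r ∣ 1 := by exact_mod_cast h8
    exact (Fact.out : r.Prime).one_lt.ne' (Nat.dvd_one.mp h11)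
  have := hb0 x
  simp only [b] at this
  linarith

end comb

section relation

variable {q r : ℕ} [hr : Fact r.Prime] {P : ℚ[X]}

/-- The version for the roots of a Weil polynomial. -/
theorem rootSet_balanced_of_mod
    {S : Type*} [Field S] [Algebra ℚ S] (hne : ∀ x : P.rootSet S, (x : S) ≠ 0)
    {bar : P.rootSet S → P.rootSet S} (hbar : ∀ x, bar (bar x) = x) (hfix : ∀ x, bar x ≠ x)
    (hmul : ∀ x : P.rootSet S, (x : S) * (bar x : S) = q)
    (hcomm : ∀ (g : S ≃ₐ[ℚ] S) (x : P.rootSet S), g • bar x = bar (g • x))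
    {L : Type*} [Field L] [Algebra ℚ L] (iL : S →ₐ[ℚ] L)
    (w : AddValuation L (WithTop ℚ)) (hw : w (q : L) = 1)
    (H1 : ∀ x : P.rootSet S, ¬ r ∣ (2 * slope w (iL (x : S)) - 1).den)
    (hno : ∀ (E : P.rootSet S → ℤ) (D : ℤ), ¬ (r : ℤ) ∣ D →
      (∀ x, (E x : ℚ) = D * (2 * slope w (iL (x : S)) - 1)) →
      (∀ x, (r : ℤ) ∣ E x ↔ (r : ℤ) ∣ (2 * slope w (iL (x : S)) - 1).num) →
      (∀ x, E (bar x) = - E x) →
      ∀ Φ₀ : Finset (P.rootSet S), IsHalf bar Φ₀ →
      ∀ c : P.rootSet S → ZMod r, (∀ x, c (bar x) = - c x) →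
      (∀ g : S ≃ₐ[ℚ] S, ∑ x ∈ Φ₀, c x * (E (g • x) : ZMod r) = 0) → c = 0)
    (d : P.rootSet S → ℕ) (m j : ℕ) (hm : m ≠ 0) (hd : ∑ x, d x = 2 * j)
    (hrel : (∏ x : P.rootSet S, (x : S) ^ (d x)) ^ m = (q : S) ^ (m * j)) (x : P.rootSet S) :
    d x = d (bar x) := by
  classical
  have hr' : r.Prime := hr.out
  have hqL : (q : L) ≠ 0 := by
    intro h0
    rw [h0, AddValuation.map_zero] at hw
    exact absurd hw (by simp)
  -- the slopes
  let e : P.rootSet S → ℚ := fun x => 2 * slope w (iL x) - 1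
  have he : ∀ x, e (bar x) = - e x := slope_bar iL w hne hw hmul
  have hrelE : ∀ g : S ≃ₐ[ℚ] S, ∑ x, (d x : ℚ) * e (g • x) = 0 :=
    slope_relation iL w hqL hne hw d m j hm hd hrel
  -- clear denominators
  let D : ℕ := ∏ x, (e x).den
  have hD : ¬ r ∣ D := by
    intro h
    obtain ⟨x, _, hx⟩ := (Prime.dvd_finsetProd_iff hr'.prime _).1 h
    exact H1 x hx
  have hE : ∀ x, ∃ n : ℤ, (n : ℚ) = D * e x ∧ ((r : ℤ) ∣ n ↔ (r : ℤ) ∣ (e x).num) := by
    intro x
    obtain ⟨c, hc⟩ : (e x).den ∣ D := Finset.dvd_prod_of_mem _ (Finset.mem_univ x)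
    refine ⟨c * (e x).num, ?_, ?_⟩
    · rw [hc]
      push_cast
      have := Rat.den_mul_eq_num (e x)
      rw [← this]; ring
    · constructor
      · intro h
        rcases (Nat.prime_iff_prime_int.1 hr').dvd_or_dvd h with h1 | h1
        · exfalso
          apply hD
          rw [hc]
          exact Dvd.dvd.mul_left (by exact_mod_cast h1) _
        · exact h1
      · intro h
        exact Dvd.dvd.mul_left h _
  choose E hE1 hE2 using hE
  have hEbar : ∀ x, E (bar x) = - E x := by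
    intro x
    have : (E (bar x) : ℚ) = ((- E x : ℤ) : ℚ) := by
      push_cast
      rw [hE1, hE1, he]; ring
    exact_mod_cast this
  obtain ⟨Φ₀, hΦ₀⟩ := exists_half hbar hfix
  have h9 : (d x : ℤ) = d (bar x) := by
    refine balanced_of_mod (G := S ≃ₐ[ℚ] S) r hbar hcomm E hEbar hΦ₀ ?_
      (fun x => (d x : ℤ)) ?_ x
    · exact hno E D (by exact_mod_cast hD) (fun x => by rw [hE1 x]; push_cast; rfl) hE2 hEbar Φ₀ hΦ₀
    · intro g
      have : ((∑ x, (d x : ℤ) * E (g • x) : ℤ) : ℚ) = D * ∑ x, (d x : ℚ) * e (g • x) := by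
        push_cast
        rw [Finset.mul_sum]
        refine Finset.sum_congr rfl fun x _ => ?_
        rw [hE1]; ring
      rw [hrelE g, mul_zero] at this
      exact_mod_cast this
  exact_mod_cast h9

end relation

end Pool.Agent.Lib.MP_021685_ag
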