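import Mathlib
import Pool.Agent.Lib.MP_021685_ag.Main

/-!
# Dimension a power of an odd prime
-/

set_option autoImplicit false

open Polynomial

open scoped TensorProduct

namespace Pool.Agent.Lib.MP_021685_ag

theorem den_two_mul_sub_one (s : ℚ) : (2 * s - 1).den ∣ s.den := by
  have h1 : 2 * s - 1 = ((2 * s.num - s.den : ℤ) : ℚ) / ((s.den : ℤ) : ℚ) := by
    have h2 : (s.den : ℚ) ≠ 0 := by exact_mod_cast s.den_nz
    push_cast
    rw [eq_div_iff h2, sub_mul, mul_assoc, Rat.mul_den_eq_num, one_mul]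
  have h3 := Rat.den_dvd (2 * s.num - s.den) (s.den : ℤ)
  rw [h1]
  exact_mod_cast h3

theorem num_two_mul_sub {r : ℕ} (hr : r.Prime) (hr2 : r ≠ 2) (s : ℚ) (N : ℤ) (hN : (r : ℤ) ∣ N)
    (hs : ¬ (r : ℤ) ∣ s.num) : ¬ (r : ℤ) ∣ (2 * s - N).num := by
  intro h
  apply hs
  set t : ℚ := 2 * s - N with ht
  have hr' := Nat.prime_iff_prime_int.1 hr
  have h1 : t.num * s.den = t.den * (2 * s.num - N * s.den) := by
    have h2 : ((t.num * s.den : ℤ) : ℚ) = ((t.den * (2 * s.num - N * s.den) : ℤ) : ℚ) := by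
      push_cast
      rw [← Rat.mul_den_eq_num t, ← Rat.mul_den_eq_num s, ht]
      ring
    exact_mod_cast h2
  have h3 : (r : ℤ) ∣ t.den * (2 * s.num - N * s.den) := by
    rw [← h1]; exact Dvd.dvd.mul_right h _
  rcases hr'.dvd_or_dvd h3 with h4 | h4
  · exfalso
    have h5 : r ∣ t.den := by exact_mod_cast h4
    have h6 : r ∣ t.num.natAbs := Int.natCast_dvd.1 h
    have h7 := Nat.dvd_gcd h6 h5
    rw [t.reduced] at h7
    exact hr.one_lt.ne' (Nat.dvd_one.1 h7)
  · have h5 : (r : ℤ) ∣ 2 * s.num := by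
      have := dvd_add h4 (Dvd.dvd.mul_right hN (s.den : ℤ))
      rwa [sub_add_cancel] at this
    rcases hr'.dvd_or_dvd h5 with h6 | h6
    · exfalso
      have h7 : r ∣ 2 := by exact_mod_cast h6
      exact hr2 ((Nat.prime_dvd_prime_iff_eq hr Nat.prime_two).1 h7)
    · exact h6

/-- Abelian varieties of dimension `r ^ k`, `r` an odd prime. -/
theorem tate_odd_power {q r k : ℕ} (hr : r.Prime) (hr2 : r ≠ 2) (hk : k ≠ 0) {P : ℚ[X]}
    (hP : Irreducible P)
    (hdeg : P.natDegree = 2 * r ^ k) (hW : ∀ z : ℂ, aeval z P = 0 → ‖z‖ ^ 2 = q)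
    {S : Type*} [Field S] [Algebra ℚ S] [IsSplittingField ℚ S P]
    (w : AddValuation S (WithTop ℚ)) (hw : w (q : S) = 1)
    (h1 : ∀ α ∈ P.rootSet S, ¬ r ∣ (slope w α).den)
    (Q : Sylow r (S ≃ₐ[ℚ] S)) {α : S} (hα : α ∈ P.rootSet S)
    (h2 : ¬ (r : ℤ) ∣ (∑ᶠ β ∈ MulAction.orbit Q α, slope w β).num)
    {K : Type*} [Field K] [CharZero K] {H : Type*} [AddCommGroup H] [Module K H]
    (F : Module.End K H) (hF : aeval F (P.map (algebraMap ℚ K)) = 0)
    (m : ℕ) (hm : m ≠ 0) (j : ℕ)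
    (ω : ExteriorAlgebra K H) (hω : ω ∈ ⋀[K]^(2 * j) H)
    (hω2 : ExteriorAlgebra.map (F ^ m) ω = (q : K) ^ (m * j) • ω) :
    ω ∈ Algebra.adjoin K {η | η ∈ ⋀[K]^2 H ∧ ExteriorAlgebra.map F η = (q : K) • η} := by
  classical
  have hfr : Fact r.Prime := ⟨hr⟩
  have hfin : FiniteDimensional ℚ S := IsSplittingField.finiteDimensional S P
  have hnormal : Normal ℚ S := Normal.of_isSplittingField P
  have hS := IsSplittingField.splits S P
  have hcardF : Fintype.card (P.rootSet S) = 2 * r ^ k := by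
    rw [card_rootSet_eq_natDegree hP.separable hS, hdeg]
  have hcard : Nat.card (P.rootSet S) = 2 * r ^ k := by
    rw [Nat.card_eq_fintype_card, hcardF]
  have htrans : MulAction.IsPretransitive (S ≃ₐ[ℚ] S) (P.rootSet S) := rootSet_pretransitive hP
  let a : P.rootSet S := ⟨α, hα⟩
  -- the orbit as a finset
  let O : Finset (P.rootSet S) := (MulAction.orbit Q a).toFinset
  have hOmem : ∀ x, x ∈ O ↔ ∃ g : Q, g • a = x := by
    intro x
    rw [Set.mem_toFinset]
    rfl
  have hsum : ∑ᶠ β ∈ MulAction.orbit Q α, slope w β = ∑ x ∈ O, slope w (x : S) := by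
    have h3 : MulAction.orbit Q α = ((O.map (Function.Embedding.subtype _) : Finset S) : Set S) := by
      ext β
      rw [Finset.mem_coe, Finset.mem_map]
      constructor
      · rintro ⟨g, rfl⟩
        exact ⟨g • a, (hOmem _).2 ⟨g, rfl⟩, rfl⟩
      · rintro ⟨x, hx, rfl⟩
        obtain ⟨g, rfl⟩ := (hOmem _).1 hx
        exact ⟨g, rfl⟩
    rw [h3, finsum_mem_coe_finset, Finset.sum_map]
    rfl
  have hOcard : r ^ k ≤ O.card := by
    have h3 := pow_dvd_card_sylow_orbit (G := S ≃ₐ[ℚ] S) two_ne_zero hcard Q a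
    have h4 : O.card = Nat.card (MulAction.orbit Q a) := by
      rw [Set.toFinset_card, Nat.card_eq_fintype_card]
    rw [h4]
    have hne : Nonempty (MulAction.orbit Q a) := ⟨⟨a, MulAction.mem_orbit_self a⟩⟩
    exact Nat.le_of_dvd Nat.card_pos h3
  have hrk : (r : ℤ) ∣ ((r ^ k : ℕ) : ℤ) := by
    exact_mod_cast dvd_pow_self r hk
  -- the sum over a set of `r ^ k` roots
  have hnum : ∀ Φ : Finset (P.rootSet S), Φ.card = r ^ k →
      ¬ (r : ℤ) ∣ (∑ x ∈ Φ, slope w (x : S)).num →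
      ¬ (r : ℤ) ∣ (∑ x ∈ Φ, (2 * slope w (x : S) - 1)).num := by
    intro Φ hΦ h
    have h3 : ∑ x ∈ Φ, (2 * slope w (x : S) - 1) = 2 * ∑ x ∈ Φ, slope w (x : S) -
        ((r ^ k : ℕ) : ℤ) := by
      rw [Finset.sum_sub_distrib, ← Finset.mul_sum, Finset.sum_const, hΦ]
      simp
    rw [h3]
    exact num_two_mul_sub hr hr2 _ _ hrk h
  obtain ⟨y, hy⟩ : ∃ y : P.rootSet S, 2 * slope w (y : S) - 1 ≠ 0 := by
    by_contra hcon
    push Not at hcon
    apply h2
    rw [hsum]
    have h3 : ∀ x : P.rootSet S, slope w (x : S) = 1 / 2 := by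
      intro x
      have := hcon x
      linarith
    have h4 := pow_dvd_card_sylow_orbit (G := S ≃ₐ[ℚ] S) two_ne_zero hcard Q a
    have h5 : O.card = Nat.card (MulAction.orbit Q a) := by
      rw [Set.toFinset_card, Nat.card_eq_fintype_card]
    rw [← h5] at h4
    simp only [h3, Finset.sum_const, nsmul_eq_mul]
    by_contra h6
    have h7 := num_two_mul_sub hr hr2 _ (O.card : ℤ) (by
      exact_mod_cast (dvd_pow_self r hk).trans h4) h6
    apply h7
    have h8 : 2 * ((O.card : ℚ) * (1 / 2)) - ((O.card : ℤ) : ℚ) = 0 := by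
      push_cast; ring
    rw [h8]
    simp
  refine tate_prime_power (r := r) (k := k) hr hP hdeg hW (AlgHom.id ℚ S) w hw Q (y := y) hy
    (fun x h => h1 x x.2 (h.trans (den_two_mul_sub_one _))) ?_ F hF m hm j ω hω hω2
  intro bar hbar hmul he hcomm Φ hΦ hΦs
  have hΦcard : Φ.card = r ^ k := by
    have h3 := sum_univ_eq_half hbar (fun _ : P.rootSet S => 1) hΦ
    simp only [Finset.sum_const, Finset.card_univ, smul_eq_mul, hcardF] at h3
    omega
  change ¬ (r : ℤ) ∣ (∑ x ∈ Φ, (2 * slope w (x : S) - 1)).num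
  by_cases ha : a ∈ Φ
  · have h3 : O ⊆ Φ := by
      intro x hx
      obtain ⟨g, rfl⟩ := (hOmem _).1 hx
      exact hΦs hr2 g a ha
    have h4 : O = Φ := Finset.eq_of_subset_of_card_le h3 (by rw [hΦcard]; exact hOcard)
    rw [← h4] at hΦcard ⊢
    exact hnum O hΦcard (by rw [← hsum]; exact h2)
  · have hba : bar a ∈ Φ := by
      by_contra h
      exact ha ((hΦ a).2 h)
    have hinj : Function.Injective bar := fun x z h => by rw [← hbar x, h, hbar]
    have h3 : O.image bar ⊆ Φ := by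
      intro x hx
      obtain ⟨z, hz, rfl⟩ := Finset.mem_image.1 hx
      obtain ⟨g, rfl⟩ := (hOmem _).1 hz
      have h4 : bar (g • a) = g • bar a := (hcomm (g : S ≃ₐ[ℚ] S) a).symm
      rw [h4]
      exact hΦs hr2 g _ hba
    have h4 : O.image bar = Φ := Finset.eq_of_subset_of_card_le h3 (by
      rw [hΦcard, Finset.card_image_of_injective _ hinj]; exact hOcard)
    have h5 : O.card = r ^ k := by
      rw [← hΦcard, ← h4, Finset.card_image_of_injective _ hinj]
    rw [← h4, Finset.sum_image (fun x _ z _ h => hinj h)]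
    have h6 : ∑ x ∈ O, (2 * slope w (bar x : S) - 1) = - ∑ x ∈ O, (2 * slope w (x : S) - 1) := by
      rw [← Finset.sum_neg_distrib]
      exact Finset.sum_congr rfl fun x _ => he x
    rw [h6, Rat.neg_num, dvd_neg]
    exact hnum O h5 (by rw [← hsum]; exact h2)

end Pool.Agent.Lib.MP_021685_ag
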