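import Mathlib
import Pool.Agent.Lib.MP_021685_ag.ModR

/-!
# Dimension a power of a prime
-/

set_option autoImplicit false

open Polynomial

open scoped TensorProduct

namespace Pool.Agent.Lib.MP_021685_ag

/-- Abelian varieties of dimension `r ^ k`, `r` a prime. -/
theorem tate_prime_power_dimension {q r k : ℕ} (hr : r.Prime) {P : ℚ[X]} (hP : Irreducible P)
    (hdeg : P.natDegree = 2 * r ^ k) (hW : ∀ z : ℂ, aeval z P = 0 → ‖z‖ ^ 2 = q)
    {S : Type*} [Field S] [Algebra ℚ S] [IsSplittingField ℚ S P]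
    (w : AddValuation S (WithTop ℚ)) (hw : w (q : S) = 1)
    (h1 : ∀ β ∈ P.rootSet S, ¬ r ∣ (2 * slope w β - 1).den)
    (Q : Sylow r (S ≃ₐ[ℚ] S)) (T : Finset S) (hT : (T : Set S) ⊆ P.rootSet S)
    (hTcard : T.card = r ^ k) (hT2 : ∀ β ∈ T, (q : S) / β ∉ T)
    (hTQ : r ≠ 2 → ∀ σ ∈ Q, ∀ β ∈ T, σ β ∈ T)
    (h2 : ¬ (r : ℤ) ∣ (∑ β ∈ T, (2 * slope w β - 1)).num)
    {K : Type*} [Field K] [CharZero K] {H : Type*} [AddCommGroup H] [Module K H]
    (F : Module.End K H) (hF : aeval F (P.map (algebraMap ℚ K)) = 0)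
    (m : ℕ) (hm : m ≠ 0) (j : ℕ)
    (ω : ExteriorAlgebra K H) (hω : ω ∈ ⋀[K]^(2 * j) H)
    (hω2 : ExteriorAlgebra.map (F ^ m) ω = (q : K) ^ (m * j) • ω) :
    ω ∈ Algebra.adjoin K {η | η ∈ ⋀[K]^2 H ∧ ExteriorAlgebra.map F η = (q : K) • η} := by
  classical
  have hfr : Fact r.Prime := ⟨hr⟩
  have hr' := Nat.prime_iff_prime_int.1 hr
  have hfin : FiniteDimensional ℚ S := IsSplittingField.finiteDimensional S P
  have hnormal : Normal ℚ S := Normal.of_isSplittingField P
  have hS := IsSplittingField.splits S P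
  have hcardF : Fintype.card (P.rootSet S) = 2 * r ^ k := by
    rw [card_rootSet_eq_natDegree hP.separable hS, hdeg]
  have hcard : Nat.card (P.rootSet S) = 2 * r ^ k := by
    rw [Nat.card_eq_fintype_card, hcardF]
  have htrans : MulAction.IsPretransitive (S ≃ₐ[ℚ] S) (P.rootSet S) := rootSet_pretransitive hP
  -- the half system as a set of roots
  let T' : Finset (P.rootSet S) := Finset.univ.filter fun x => (x : S) ∈ T
  have hT'mem : ∀ x, x ∈ T' ↔ (x : S) ∈ T := by
    intro x
    simp [T']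
  have hT'map : T'.map (Function.Embedding.subtype _) = T := by
    ext β
    rw [Finset.mem_map]
    constructor
    · rintro ⟨x, hx, rfl⟩
      exact (hT'mem x).1 hx
    · intro hβ
      exact ⟨⟨β, hT hβ⟩, (hT'mem _).2 hβ, rfl⟩
  have hT'card : T'.card = r ^ k := by
    rw [← hTcard, ← hT'map, Finset.card_map]
  have hsum : ∑ β ∈ T, (2 * slope w β - 1) = ∑ x ∈ T', (2 * slope w (x : S) - 1) := by
    rw [← hT'map, Finset.sum_map]
    rfl
  obtain ⟨y, hy⟩ : ∃ y : P.rootSet S, 2 * slope w (y : S) - 1 ≠ 0 := by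
    by_contra hcon
    push Not at hcon
    apply h2
    rw [hsum, Finset.sum_eq_zero (fun x _ => hcon x)]
    simp
  refine tate_of_setup (S := S) hP (ne_zero_of_slope hw) hW m j ?_ F hF ω hω hω2
  intro bar hne hbar hmul hcomm
  have hfix : ∀ x, bar x ≠ x := bar_ne_of_slope (AlgHom.id ℚ S) w hP hne hw hmul (y := y) hy
  have hbarinj : Function.Injective bar := fun x z h => by rw [← hbar x, h, hbar]
  refine ⟨hfix, fun d hd hdrel x => rootSet_balanced_of_mod (r := r) hne hbar hfix hmul hcomm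
    (AlgHom.id ℚ S) w hw (fun x => h1 _ x.2) ?_ d m j hm hd hdrel x⟩
  intro E D hD hE1 hE2 hEbar Φ₀ hΦ₀ c hc hrel
  have hdiv : ∀ x : P.rootSet S, (q : S) / x = (bar x : S) := by
    intro x
    rw [div_eq_iff (hne x), mul_comm, hmul]
  -- `T'` is a half system
  have hT'half : IsHalf bar T' := by
    have h3 : Disjoint T' (T'.image bar) := by
      rw [Finset.disjoint_left]
      intro x hx hx2
      obtain ⟨z, hz, rfl⟩ := Finset.mem_image.1 hx2
      rw [hT'mem] at hx hz
      exact hT2 _ hz (by rw [hdiv]; exact hx)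
    have h4 : T' ∪ T'.image bar = Finset.univ := by
      apply Finset.eq_univ_of_card
      rw [Finset.card_union_of_disjoint h3, Finset.card_image_of_injective _ hbarinj, hT'card,
        hcardF]
      omega
    intro x
    constructor
    · intro hx hbx
      rw [Finset.disjoint_left] at h3
      exact h3 hbx (Finset.mem_image_of_mem bar hx)
    · intro hbx
      have h5 : x ∈ T' ∪ T'.image bar := by rw [h4]; exact Finset.mem_univ x
      rcases Finset.mem_union.1 h5 with h6 | h6
      · exact h6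
      · exfalso
        obtain ⟨z, hz, hzx⟩ := Finset.mem_image.1 h6
        apply hbx
        rw [← hzx, hbar]
        exact hz
  -- its sum is a unit modulo `r`
  have hTsum : ∑ x ∈ T', (E x : ZMod r) ≠ 0 := by
    intro h0
    apply h2
    rw [hsum]
    set s : ℚ := ∑ x ∈ T', (2 * slope w (x : S) - 1) with hs
    have h13 : ((∑ x ∈ T', E x : ℤ) : ℚ) = D * s := by
      push_cast
      rw [hs, Finset.mul_sum]
      exact Finset.sum_congr rfl fun x _ => hE1 x
    have h14 : (∑ x ∈ T', E x) * s.den = D * s.num := by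
      have : (((∑ x ∈ T', E x) * s.den : ℤ) : ℚ) = ((D * s.num : ℤ) : ℚ) := by
        rw [Int.cast_mul, h13]
        push_cast
        rw [mul_assoc, Rat.mul_den_eq_num]
      exact_mod_cast this
    have hdvd : (r : ℤ) ∣ ∑ x ∈ T', E x := by
      rw [← ZMod.intCast_zmod_eq_zero_iff_dvd]
      push_cast
      exact h0
    have h15 : (r : ℤ) ∣ D * s.num := by
      rw [← h14]
      exact Dvd.dvd.mul_right hdvd _
    exact (hr'.dvd_or_dvd h15).resolve_left hD
  refine modp_no_relation (G := S ≃ₐ[ℚ] S) hcard hbar hfix hcomm Q (fun x => (E x : ZMod r))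
    (fun x => by simp only [hEbar]; push_cast; rfl) ?_ hΦ₀ c hc (fun g => hrel g)
  intro Φ hΦ hΦs
  by_cases hr2 : r = 2
  · subst hr2
    rw [sum_half_even hbar _ (fun x => by
      simp only [hEbar]; push_cast; exact ZMod.neg_eq_self_mod_two _) hΦ hT'half]
    exact hTsum
  · -- both are orbits of `Q`
    have horb : ∀ Ψ : Finset (P.rootSet S), Ψ.card = r ^ k →
        (∀ g : Q, ∀ x ∈ Ψ, g • x ∈ Ψ) → ∀ a ∈ Ψ, Ψ = (MulAction.orbit Q a).toFinset := by
      intro Ψ hΨ hΨs a ha
      symm
      apply Finset.eq_of_subset_of_card_le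
      · intro z hz
        rw [Set.mem_toFinset] at hz
        obtain ⟨g, rfl⟩ := hz
        exact hΨs g a ha
      · have h3 := pow_dvd_card_sylow_orbit (G := S ≃ₐ[ℚ] S) two_ne_zero hcard Q a
        have h4 : (MulAction.orbit Q a).toFinset.card = Nat.card (MulAction.orbit Q a) := by
          rw [Set.toFinset_card, Nat.card_eq_fintype_card]
        rw [h4, hΨ]
        have hne : Nonempty (MulAction.orbit Q a) := ⟨⟨a, MulAction.mem_orbit_self a⟩⟩
        exact Nat.le_of_dvd Nat.card_pos h3
    have hT's : ∀ g : Q, ∀ x ∈ T', g • x ∈ T' := by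
      intro g x hx
      rw [hT'mem] at hx ⊢
      exact hTQ hr2 g g.2 _ hx
    have hΦcard : Φ.card = r ^ k := by
      have h3 := sum_univ_eq_half hbar (fun _ : P.rootSet S => 1) hΦ
      simp only [Finset.sum_const, Finset.card_univ, smul_eq_mul, hcardF] at h3
      omega
    have hpos : 0 < r ^ k := pow_pos hr.pos k
    obtain ⟨a, ha⟩ : T'.Nonempty := by
      rw [← Finset.card_pos, hT'card]; exact hpos
    by_cases haΦ : a ∈ Φ
    · rw [horb Φ hΦcard (hΦs hr2) a haΦ, ← horb T' hT'card hT's a ha]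
      exact hTsum
    · have hba : bar a ∈ Φ := by
        by_contra h
        exact haΦ ((hΦ a).2 h)
      have h3 : ∀ g : Q, ∀ x ∈ T'.image bar, g • x ∈ T'.image bar := by
        intro g x hx
        obtain ⟨z, hz, rfl⟩ := Finset.mem_image.1 hx
        have h4 : g • bar z = bar (g • z) := hcomm (g : S ≃ₐ[ℚ] S) z
        rw [h4]
        exact Finset.mem_image_of_mem _ (hT's g z hz)
      have h5 : (T'.image bar).card = r ^ k := by
        rw [Finset.card_image_of_injective _ hbarinj, hT'card]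
      rw [horb Φ hΦcard (hΦs hr2) _ hba,
        ← horb (T'.image bar) h5 h3 _ (Finset.mem_image_of_mem bar ha),
        Finset.sum_image (fun x _ z _ h => hbarinj h)]
      simp only [hEbar, Int.cast_neg, Finset.sum_neg_distrib]
      rw [neg_ne_zero]
      exact hTsum

end Pool.Agent.Lib.MP_021685_ag
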