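import Mathlib
import Pool.Agent.Lib.MP_021685_ag.ModR

/-!
# A single pair of slopes which is nonzero modulo `r`
-/

set_option autoImplicit false

open Polynomial

open scoped TensorProduct

namespace Pool.Agent.Lib.MP_021685_ag

theorem slope_sets {P : ℚ[X]} (hP : P ≠ 0) {S : Type*} [Field S] [Algebra ℚ S]
    [IsSplittingField ℚ S P] {L : Type*} [Field L] [Algebra ℚ L] (iL : S →ₐ[ℚ] L)
    (p : L → Prop) : {α ∈ P.rootSet L | p α}.ncard = {x : P.rootSet S | p (iL (x : S))}.ncard := by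
  have h1 : {α ∈ P.rootSet L | p α} =
      (fun x : P.rootSet S => iL (x : S)) '' {x : P.rootSet S | p (iL (x : S))} := by
    ext α
    constructor
    · rintro ⟨hα, hα2⟩
      have h2 := hα
      rw [← (IsSplittingField.splits S P).image_rootSet iL] at h2
      obtain ⟨x, hx, rfl⟩ := h2
      exact ⟨⟨x, hx⟩, hα2, rfl⟩
    · rintro ⟨x, hx, rfl⟩
      refine ⟨?_, hx⟩
      rw [mem_rootSet_of_ne hP, aeval_algHom_apply, aeval_eq_zero_of_mem_rootSet x.2, map_zero]
  rw [h1, Set.ncard_image_of_injective]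
  intro x y hxy
  exact Subtype.ext (iL.toRingHom.injective hxy)

/-- Abelian varieties with exactly one pair of slopes which is nonzero modulo `r`. -/
theorem tate_one_pair {q r : ℕ} (hr : r.Prime) {P : ℚ[X]} (hP : Irreducible P)
    (hW : ∀ z : ℂ, aeval z P = 0 → ‖z‖ ^ 2 = q)
    {L : Type*} [Field L] [CharZero L] (hL : (P.map (algebraMap ℚ L)).Splits)
    (w : AddValuation L (WithTop ℚ)) (hw : w (q : L) = 1)
    (h1 : ∀ α ∈ P.rootSet L, ¬ r ∣ (2 * slope w α - 1).den)
    (h2 : {α ∈ P.rootSet L | ¬ (r : ℤ) ∣ (2 * slope w α - 1).num}.ncard = 2)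
    {K : Type*} [Field K] [CharZero K] {H : Type*} [AddCommGroup H] [Module K H]
    (F : Module.End K H) (hF : aeval F (P.map (algebraMap ℚ K)) = 0)
    (m : ℕ) (hm : m ≠ 0) (j : ℕ)
    (ω : ExteriorAlgebra K H) (hω : ω ∈ ⋀[K]^(2 * j) H)
    (hω2 : ExteriorAlgebra.map (F ^ m) ω = (q : K) ^ (m * j) • ω) :
    ω ∈ Algebra.adjoin K {η | η ∈ ⋀[K]^2 H ∧ ExteriorAlgebra.map F η = (q : K) • η} := by
  classical
  have hfr : Fact r.Prime := ⟨hr⟩
  obtain ⟨S, hS1, hS2, hS3⟩ := exists_splittingField P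
  have hS := IsSplittingField.splits S P
  let iL : S →ₐ[ℚ] L := IsSplittingField.lift S P hL
  have hiL : ∀ x : P.rootSet S, iL (x : S) ∈ P.rootSet L := by
    intro x
    rw [mem_rootSet_of_ne hP.ne_zero, aeval_algHom_apply, aeval_eq_zero_of_mem_rootSet x.2,
      map_zero]
  rw [slope_sets hP.ne_zero iL] at h2
  set A : Set (P.rootSet S) := {x | ¬ (r : ℤ) ∣ (2 * slope w (iL (x : S)) - 1).num} with hA
  obtain ⟨y, hy⟩ : A.Nonempty := Set.nonempty_of_ncard_ne_zero (by rw [h2]; norm_num)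
  have hy0 : 2 * slope w (iL (y : S)) - 1 ≠ 0 := by
    intro h
    apply hy
    rw [h]
    simp
  refine tate_of_setup (S := S) hP (ne_zero_of_slope hw) hW m j ?_ F hF ω hω hω2
  intro bar hne hbar hmul hcomm
  have hfin : FiniteDimensional ℚ S := IsSplittingField.finiteDimensional S P
  have hnormal : Normal ℚ S := Normal.of_isSplittingField P
  have hfix : ∀ x, bar x ≠ x := bar_ne_of_slope iL w hP hne hw hmul hy0
  have htrans : MulAction.IsPretransitive (S ≃ₐ[ℚ] S) (P.rootSet S) := rootSet_pretransitive hP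
  refine ⟨hfix, fun d hd hdrel x => rootSet_balanced_of_mod hne hbar hfix hmul hcomm iL w hw
    (fun x => h1 _ (hiL x)) ?_ d m j hm hd hdrel x⟩
  intro E D hD hE1 hE2 hEbar Φ₀ hΦ₀ c hc hrel
  have hAbar : ∀ x ∈ A, bar x ∈ A := by
    intro x hx
    change ¬ (r : ℤ) ∣ _
    rw [slope_bar iL w hne hw hmul, Rat.neg_num, dvd_neg]
    exact hx
  have hA2 : ∀ x ∈ A, ∀ z ∈ A, z = x ∨ z = bar x := by
    intro x hx z hz
    by_contra hcon
    push Not at hcon
    have h3 : ({x, bar x, z} : Set (P.rootSet S)) ⊆ A := by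
      rintro u (rfl | rfl | rfl)
      · exact hx
      · exact hAbar x hx
      · exact hz
    have h4 : ({x, bar x, z} : Set (P.rootSet S)).ncard = 3 := by
      rw [Set.ncard_eq_three]
      exact ⟨x, bar x, z, (hfix x).symm, hcon.1.symm, hcon.2.symm, rfl⟩
    have h5 := Set.ncard_le_ncard h3 (Set.toFinite _)
    omega
  have hEz : ∀ x, x ∉ A → (E x : ZMod r) = 0 := by
    intro x hx
    rw [ZMod.intCast_zmod_eq_zero_iff_dvd, hE2 x]
    by_contra h
    exact hx h
  have hEnz : ∀ x ∈ A, (E x : ZMod r) ≠ 0 := by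
    intro x hx h
    rw [ZMod.intCast_zmod_eq_zero_iff_dvd, hE2 x] at h
    exact hx h
  have key : ∀ z ∈ Φ₀, c z = 0 := by
    intro z hz
    obtain ⟨g, hg⟩ := MulAction.exists_smul_eq (S ≃ₐ[ℚ] S) z y
    have h3 := hrel g
    rw [Finset.sum_eq_single z] at h3
    · rcases mul_eq_zero.1 h3 with h4 | h4
      · exact h4
      · exact absurd h4 (hEnz _ (by rw [hg]; exact hy))
    · intro x hx hxz
      rw [hEz, mul_zero]
      intro hgx
      rcases hA2 _ (by rw [← hg] at hy; exact hy) _ hgx with h4 | h4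
      · exact hxz (MulAction.injective g h4)
      · rw [← hcomm] at h4
        have h5 := MulAction.injective g h4
        rw [h5] at hx
        exact (hΦ₀ z).1 hz hx
    · intro h4
      exact absurd hz h4
  funext z
  by_cases hz : z ∈ Φ₀
  · exact key z hz
  · have h3 : bar z ∈ Φ₀ := by
      by_contra h
      exact hz ((hΦ₀ z).2 h)
    have h4 := key _ h3
    rw [hc, neg_eq_zero] at h4
    exact h4

end Pool.Agent.Lib.MP_021685_ag
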