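import Mathlib
import Pool.Agent.Lib.MP_021685_ag.RankOne

/-!
# Two pairs of slopes which are nonzero modulo `r`
-/

set_option autoImplicit false

open Polynomial

open scoped TensorProduct IntermediateField

namespace Pool.Agent.Lib.MP_021685_ag

/-- The Galois theoretic core: a function on the roots which takes the same value on all pairs
`g a`, `g y` for some `y ≠ a`, and is odd, vanishes, when every proper subfield of `ℚ(a)` lies in
`ℚ(a + q / a)`. -/
theorem core_two {P : ℚ[X]} (hP : Irreducible P) {S : Type*} [Field S] [Algebra ℚ S]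
    [IsSplittingField ℚ S P] {bar : P.rootSet S → P.rootSet S} (hbar : ∀ x, bar (bar x) = x)
    (hcomm : ∀ (g : S ≃ₐ[ℚ] S) (x : P.rootSet S), g • bar x = bar (g • x))
    {M : Type*} [AddCommGroup M] (hM : ∀ t : M, t = - t → t = 0) (c : P.rootSet S → M)
    (hc : ∀ x, c (bar x) = - c x) {a y : P.rootSet S} (hya : y ≠ a)
    (hcy : ∀ g : S ≃ₐ[ℚ] S, c (g • y) = c (g • a))
    (hCM : ∀ E : IntermediateField ℚ S, E < ℚ⟮(a : S)⟯ → E ≤ ℚ⟮(a : S) + (bar a : S)⟯) :
    c = 0 := by
  have hfin : FiniteDimensional ℚ S := IsSplittingField.finiteDimensional S P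
  have hnormal : Normal ℚ S := Normal.of_isSplittingField P
  have hgal : IsGalois ℚ S := ⟨⟩
  have htrans : MulAction.IsPretransitive (S ≃ₐ[ℚ] S) (P.rootSet S) := rootSet_pretransitive hP
  let T : Subgroup (S ≃ₐ[ℚ] S) :=
    { carrier := {h | ∀ g : S ≃ₐ[ℚ] S, c (g • h • a) = c (g • a)}
      one_mem' := by intro g; rw [one_smul]
      mul_mem' := by
        intro h1 h2 hh1 hh2 g
        rw [mul_smul, ← mul_smul g h1, hh2 (g * h1), mul_smul, hh1 g]
      inv_mem' := by
        intro h hh g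
        have h3 := hh (g * h⁻¹)
        rw [← mul_smul, mul_assoc, inv_mul_cancel, mul_one] at h3
        rw [h3, mul_smul] }
  have hT : ∀ h, h ∈ T ↔ ∀ g : S ≃ₐ[ℚ] S, c (g • h • a) = c (g • a) := fun h => Iff.rfl
  have hfixa : ∀ h ∈ (ℚ⟮(a : S)⟯).fixingSubgroup, h • a = a := by
    intro h hh
    apply Subtype.ext
    change h (a : S) = a
    exact (IntermediateField.mem_fixingSubgroup_iff _ _).1 hh _
      (IntermediateField.mem_adjoin_simple_self ℚ (a : S))
  have h1 : (ℚ⟮(a : S)⟯).fixingSubgroup ≤ T := by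
    intro h hh
    rw [hT]
    intro g
    rw [hfixa h hh]
  obtain ⟨τ, hτ⟩ := MulAction.exists_smul_eq (S ≃ₐ[ℚ] S) a y
  have hτT : τ ∈ T := by
    rw [hT]
    intro g
    rw [hτ, hcy]
  have hle : IntermediateField.fixedField T ≤ ℚ⟮(a : S)⟯ := by
    have h2 := IntermediateField.fixedField_antitone (F := ℚ) (E := S) h1
    rwa [IsGalois.fixedField_fixingSubgroup] at h2
  have hlt : IntermediateField.fixedField T < ℚ⟮(a : S)⟯ := by
    refine lt_of_le_of_ne hle ?_
    intro heq
    have h3 : T = (ℚ⟮(a : S)⟯).fixingSubgroup := by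
      rw [← heq, IntermediateField.fixingSubgroup_fixedField]
    rw [h3] at hτT
    have h4 := hfixa τ hτT
    rw [hτ] at h4
    exact hya h4
  have h5 := hCM _ hlt
  obtain ⟨σ, hσ⟩ := MulAction.exists_smul_eq (S ≃ₐ[ℚ] S) a (bar a)
  have hσ2 : σ • bar a = a := by rw [hcomm, hσ, hbar]
  have h6 : σ ∈ (ℚ⟮(a : S) + (bar a : S)⟯).fixingSubgroup := by
    rw [IntermediateField.mem_fixingSubgroup_iff]
    intro x hx
    have h7 : ℚ⟮(a : S) + (bar a : S)⟯ ≤ IntermediateField.fixedField (Subgroup.zpowers σ) := by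
      rw [IntermediateField.adjoin_simple_le_iff]
      rw [IntermediateField.mem_fixedField_iff]
      intro f hf
      obtain ⟨n, rfl⟩ := Subgroup.mem_zpowers_iff.1 hf
      have h8 : σ ((a : S) + (bar a : S)) = (a : S) + (bar a : S) := by
        have e1 : σ (a : S) = (bar a : S) := congrArg Subtype.val hσ
        have e2 : σ (bar a : S) = (a : S) := congrArg Subtype.val hσ2
        rw [map_add, e1, e2, add_comm]
      have h9 : σ ∈ MulAction.stabilizer (S ≃ₐ[ℚ] S) ((a : S) + (bar a : S)) := h8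
      exact Subgroup.zpow_mem _ h9 n
    have h8 := h7 hx
    rw [IntermediateField.mem_fixedField_iff] at h8
    exact h8 σ (Subgroup.mem_zpowers σ)
  have h7 : σ ∈ T := by
    have h8 := IntermediateField.fixingSubgroup_antitone (F := ℚ) (E := S) h5
    have h9 := h8 h6
    rwa [IntermediateField.fixingSubgroup_fixedField] at h9
  funext x
  obtain ⟨g, rfl⟩ := MulAction.exists_smul_eq (S ≃ₐ[ℚ] S) a x
  have h8 := (hT σ).1 h7 g
  rw [hσ, hcomm, hc] at h8
  exact hM _ h8.symm

/-- Transport of the condition on subfields. -/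
theorem subfield_transport {S L : Type*} [Field S] [Algebra ℚ S] [Field L] [Algebra ℚ L]
    (iL : S →ₐ[ℚ] L) (a b : S)
    (h : ∀ E : IntermediateField ℚ L, E < ℚ⟮iL a⟯ → E ≤ ℚ⟮iL b⟯)
    (E : IntermediateField ℚ S) (hE : E < ℚ⟮a⟯) : E ≤ ℚ⟮b⟯ := by
  have h1 : ∀ x : S, (ℚ⟮x⟯).map iL = ℚ⟮iL x⟯ := by
    intro x
    rw [IntermediateField.adjoin_map, Set.image_singleton]
  have hinj := IntermediateField.map_injective iL
  have h2 : E.map iL < ℚ⟮iL a⟯ := by
    rw [← h1]
    refine lt_of_le_of_ne (IntermediateField.map_mono iL hE.le) ?_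
    intro h3
    exact hE.ne (hinj h3)
  have h3 := h _ h2
  rw [← h1] at h3
  intro x hx
  have h4 : iL x ∈ (ℚ⟮b⟯).map iL := h3 ⟨x, hx, rfl⟩
  obtain ⟨z, hz, hzx⟩ := h4
  have h5 : z = x := iL.toRingHom.injective hzx
  rwa [← h5]

/-- Abelian varieties with exactly two pairs of slopes which are nonzero modulo an odd prime. -/
theorem tate_two_pairs {q r : ℕ} (hr : r.Prime) (hr2 : r ≠ 2) {P : ℚ[X]} (hP : Irreducible P)
    (hW : ∀ z : ℂ, aeval z P = 0 → ‖z‖ ^ 2 = q)
    {L : Type*} [Field L] [CharZero L] (hL : (P.map (algebraMap ℚ L)).Splits)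
    (w : AddValuation L (WithTop ℚ)) (hw : w (q : L) = 1) (t : ℚ)
    (ht : ¬ (r : ℤ) ∣ t.num) (ht2 : ¬ r ∣ t.den)
    (h1 : ∀ α ∈ P.rootSet L, 2 * slope w α - 1 = t ∨ 2 * slope w α - 1 = - t ∨
      (r : ℤ) ∣ (2 * slope w α - 1).num)
    (h2 : {α ∈ P.rootSet L | 2 * slope w α - 1 = t}.ncard = 2)
    {α : L} (hα : α ∈ P.rootSet L)
    (hCM : ∀ E : IntermediateField ℚ L, E < ℚ⟮α⟯ → E ≤ ℚ⟮α + q / α⟯)
    {K : Type*} [Field K] [CharZero K] {H : Type*} [AddCommGroup H] [Module K H]
    (F : Module.End K H) (hF : aeval F (P.map (algebraMap ℚ K)) = 0)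
    (m : ℕ) (hm : m ≠ 0) (j : ℕ)
    (ω : ExteriorAlgebra K H) (hω : ω ∈ ⋀[K]^(2 * j) H)
    (hω2 : ExteriorAlgebra.map (F ^ m) ω = (q : K) ^ (m * j) • ω) :
    ω ∈ Algebra.adjoin K {η | η ∈ ⋀[K]^2 H ∧ ExteriorAlgebra.map F η = (q : K) • η} := by
  classical
  have hfr : Fact r.Prime := ⟨hr⟩
  obtain ⟨S, hS1, hS2, hS3⟩ := exists_splittingField P
  have hS := IsSplittingField.splits S P
  let iL : S →ₐ[ℚ] L := IsSplittingField.lift S P hL
  have hinj : Function.Injective iL := iL.toRingHom.injective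
  have hiL : ∀ x : P.rootSet S, iL (x : S) ∈ P.rootSet L := by
    intro x
    rw [mem_rootSet_of_ne hP.ne_zero, aeval_algHom_apply, aeval_eq_zero_of_mem_rootSet x.2,
      map_zero]
  rw [slope_sets hP.ne_zero iL (fun α => 2 * slope w α - 1 = t)] at h2
  obtain ⟨x1, x2, h12, hset⟩ := Set.ncard_eq_two.1 h2
  have hx1 : 2 * slope w (iL (x1 : S)) - 1 = t := by
    have : x1 ∈ {x : P.rootSet S | 2 * slope w (iL (x : S)) - 1 = t} := by
      rw [hset]; exact Set.mem_insert _ _
    exact this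
  have hx2 : 2 * slope w (iL (x2 : S)) - 1 = t := by
    have : x2 ∈ {x : P.rootSet S | 2 * slope w (iL (x : S)) - 1 = t} := by
      rw [hset]; exact Set.mem_insert_of_mem _ rfl
    exact this
  have ht0 : t ≠ 0 := by
    rintro rfl
    exact ht (by simp)
  have hy0 : 2 * slope w (iL (x1 : S)) - 1 ≠ 0 := by rw [hx1]; exact ht0
  have hden : ∀ s : ℚ, (r : ℤ) ∣ s.num → ¬ r ∣ s.den := by
    intro s h h'
    have h6 : r ∣ s.num.natAbs := Int.natCast_dvd.1 h
    have h7 := Nat.dvd_gcd h6 h'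
    rw [s.reduced] at h7
    exact hr.one_lt.ne' (Nat.dvd_one.1 h7)
  refine tate_of_setup (S := S) hP (ne_zero_of_slope hw) hW m j ?_ F hF ω hω hω2
  intro bar hne hbar hmul hcomm
  have hfin : FiniteDimensional ℚ S := IsSplittingField.finiteDimensional S P
  have hnormal : Normal ℚ S := Normal.of_isSplittingField P
  have hfix : ∀ x, bar x ≠ x := bar_ne_of_slope iL w hP hne hw hmul hy0
  have htrans : MulAction.IsPretransitive (S ≃ₐ[ℚ] S) (P.rootSet S) := rootSet_pretransitive hP
  have he := slope_bar iL w hne hw hmul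
  refine ⟨hfix, fun d hd hdrel x => rootSet_balanced_of_mod (r := r) hne hbar hfix hmul hcomm iL w hw
    ?_ ?_ d m j hm hd hdrel x⟩
  · intro x
    rcases h1 _ (hiL x) with h | h | h
    · rw [h]; exact ht2
    · rw [h, Rat.neg_den]; exact ht2
    · exact hden _ h
  intro E D hD hE1 hE2 hEbar Φ₀ hΦ₀ c hc hrel
  have h2u : IsUnit (2 : ZMod r) := by
    have h3 : Nat.Coprime 2 r := by
      rw [Nat.coprime_primes Nat.prime_two hr]
      exact hr2.symm
    have h4 := (ZMod.isUnit_iff_coprime 2 r).2 h3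
    exact_mod_cast h4
  have hM : ∀ t : ZMod r, t = - t → t = 0 := by
    intro t ht
    have h3 : (2 : ZMod r) * t = 0 := by linear_combination ht
    exact (h2u.mul_right_eq_zero).1 h3
  have hbarinj : Function.Injective bar := fun x z h => by rw [← hbar x, h, hbar]
  -- the four special roots
  have hne1 : x1 ≠ bar x1 := (hfix x1).symm
  have hne2 : x2 ≠ bar x2 := (hfix x2).symm
  have hneg : ∀ x z : P.rootSet S, 2 * slope w (iL (x : S)) - 1 = t →
      2 * slope w (iL (z : S)) - 1 = t → x ≠ bar z := by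
    intro x z hx hz hxz
    rw [hxz, he z, hz] at hx
    apply ht0
    linarith
  have hEz : ∀ z, z ∉ ({x1, x2, bar x1, bar x2} : Finset (P.rootSet S)) →
      (E z : ZMod r) = 0 := by
    intro z hz
    rw [ZMod.intCast_zmod_eq_zero_iff_dvd, hE2 z]
    rcases h1 _ (hiL z) with h | h | h
    · exfalso
      apply hz
      have h3 : z ∈ ({x1, x2} : Set (P.rootSet S)) := by rw [← hset]; exact h
      rw [Set.mem_insert_iff, Set.mem_singleton_iff] at h3
      rcases h3 with h3 | h3 <;> simp [h3]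
    · exfalso
      apply hz
      have h3 : bar z ∈ ({x1, x2} : Set (P.rootSet S)) := by
        rw [← hset]
        change 2 * slope w (iL (bar z : S)) - 1 = t
        rw [he z, h, neg_neg]
      rw [Set.mem_insert_iff, Set.mem_singleton_iff] at h3
      rcases h3 with h3 | h3
      · have : z = bar x1 := by rw [← h3, hbar]
        simp [this]
      · have : z = bar x2 := by rw [← h3, hbar]
        simp [this]
    · exact h
  have hEeq : E x1 = E x2 := by
    have h3 : (E x1 : ℚ) = E x2 := by rw [hE1, hE1, hx1, hx2]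
    exact_mod_cast h3
  have hEu : (E x1 : ZMod r) ≠ 0 := by
    intro h
    rw [ZMod.intCast_zmod_eq_zero_iff_dvd, hE2 x1, hx1] at h
    exact ht h
  have hpair : ∀ g : S ≃ₐ[ℚ] S, c (g • x1) = - c (g • x2) := by
    intro g
    have h3 := hrel g⁻¹
    have h4 : ∑ x, c x * (E (g⁻¹ • x) : ZMod r) = 0 := by
      rw [sum_univ_eq_half hbar _ hΦ₀, Finset.sum_add_distrib, h3, zero_add, ← h3]
      refine Finset.sum_congr rfl fun x _ => ?_
      rw [hcomm, hc, hEbar]
      push_cast; ring
    have h5 : ∑ z, c (g • z) * (E z : ZMod r) = 0 := by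
      rw [← h4]
      refine Fintype.sum_equiv (MulAction.toPerm g) _ _ ?_
      intro z
      simp only [MulAction.toPerm_apply, inv_smul_smul]
    rw [← Finset.sum_subset (Finset.subset_univ
      ({x1, x2, bar x1, bar x2} : Finset (P.rootSet S)))
      (fun z _ hz => by rw [hEz z hz, mul_zero])] at h5
    rw [Finset.sum_insert, Finset.sum_insert, Finset.sum_insert, Finset.sum_singleton] at h5
    · rw [hcomm, hcomm, hc, hc, hEbar, hEbar, ← hEeq] at h5
      push_cast at h5
      have h6 : (2 : ZMod r) * ((c (g • x1) + c (g • x2)) * (E x1 : ZMod r)) = 0 := by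
        linear_combination h5
      have h7 := (h2u.mul_right_eq_zero).1 h6
      rcases mul_eq_zero.1 h7 with h8 | h8
      · exact eq_neg_of_add_eq_zero_left h8
      · exact absurd h8 hEu
    · rw [Finset.mem_singleton]
      intro h; exact h12 (hbarinj h)
    · rw [Finset.mem_insert, Finset.mem_singleton]
      rintro (h | h)
      · exact hneg x2 x1 hx2 hx1 h
      · exact hneg x2 x2 hx2 hx2 h
    · rw [Finset.mem_insert, Finset.mem_insert, Finset.mem_singleton]
      rintro (h | h | h)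
      · exact h12 h
      · exact hneg x1 x1 hx1 hx1 h
      · exact hneg x1 x2 hx1 hx2 h
  -- the root `α`
  rw [← hS.image_rootSet iL] at hα
  obtain ⟨a', ha', rfl⟩ := hα
  set a : P.rootSet S := ⟨a', ha'⟩ with ha
  obtain ⟨g₀, hg₀⟩ := MulAction.exists_smul_eq (S ≃ₐ[ℚ] S) x1 a
  have hqa : (q : L) / iL a' = iL (bar a : S) := by
    have h13 : iL a' ≠ 0 := by
      rw [Ne, map_eq_zero]; exact hne a
    rw [div_eq_iff h13, mul_comm]
    have h14 : iL (a' * (bar a : S)) = iL (q : S) := congrArg iL (hmul a)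
    rw [map_mul, map_natCast] at h14
    exact h14.symm
  refine core_two hP hbar hcomm hM c hc (a := a) (y := g₀ • bar x2) ?_ ?_ ?_
  · rw [← hg₀]
    intro h
    exact hneg x1 x2 hx1 hx2 (MulAction.injective g₀ h).symm
  · intro g
    rw [← hg₀, ← mul_smul, ← mul_smul, hcomm, hc, hpair]
  · have hsum : iL (a' + (bar a : S)) = iL a' + q / iL a' := by rw [map_add, hqa]
    rw [← hsum] at hCM
    exact subfield_transport iL a' (a' + (bar a : S)) hCM

end Pool.Agent.Lib.MP_021685_ag
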