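import Mathlib
import Pool.Agent.Lib.MP_021685_ag.Defs
import Pool.Agent.Lib.MP_021685_ag.RankTwo

/-!
# Tate classes on powers of abelian varieties of `p`-rank two over finite fields
-/

set_option autoImplicit false

open Polynomial Pool.Agent.Lib.MP_021685_ag IntermediateField

namespace Pool.Agent.Results.MP_021685_ag.RankTwo

/-- Let `P` be an irreducible rational polynomial all of whose complex roots have absolute value
`√q` (the characteristic polynomial of Frobenius of an abelian variety over `𝔽_q`, say), and let
`w` be a valuation with `w q = 1` on a field over which `P` splits (so that the values of `w` at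
the roots are the slopes of the Newton polygon). Let `r` be an odd prime and `t` a rational number
which is a unit modulo `r`. Suppose that exactly two roots `β` have `2 w(β) - 1 = t`, and that
`2 w(β) - 1` is zero modulo `r` unless it is `t` or `-t` (for instance, `t = 1`, `p`-rank two and
all the other slopes equal to `1 / 2`). Suppose that every proper subfield of `ℚ(α)`, `α` a root,
is contained in the totally real field `ℚ(α + q / α)`. Then, for every endomorphism `F` of a
vector space `H` which is killed by `P` (such as Frobenius on `H¹` of any power of the abelian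
variety), every class of degree `2 j` in the exterior algebra of `H` which is multiplied by
`q ^ (m j)` by `F ^ m` is a polynomial in classes of degree two which are multiplied by `q` by
`F`. -/
theorem result (q r : ℕ) (hr : r.Prime) (hr2 : r ≠ 2) (P : ℚ[X]) (hP : Irreducible P)
    (hW : ∀ z : ℂ, aeval z P = 0 → ‖z‖ ^ 2 = q)
    (L : Type*) [Field L] [CharZero L] (hL : (P.map (algebraMap ℚ L)).Splits)
    (w : AddValuation L (WithTop ℚ)) (hw : w (q : L) = 1) (t : ℚ)
    (ht : ¬ (r : ℤ) ∣ t.num) (ht2 : ¬ r ∣ t.den)
    (h1 : ∀ β ∈ P.rootSet L, 2 * slope w β - 1 = t ∨ 2 * slope w β - 1 = - t ∨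
      (r : ℤ) ∣ (2 * slope w β - 1).num)
    (h2 : {β ∈ P.rootSet L | 2 * slope w β - 1 = t}.ncard = 2)
    (α : L) (hα : α ∈ P.rootSet L)
    (hCM : ∀ E : IntermediateField ℚ L, E < ℚ⟮α⟯ → E ≤ ℚ⟮α + q / α⟯)
    (K : Type*) [Field K] [CharZero K] (H : Type*) [AddCommGroup H] [Module K H]
    (F : Module.End K H) (hF : aeval F (P.map (algebraMap ℚ K)) = 0)
    (m : ℕ) (hm : m ≠ 0) (j : ℕ) (ω : ExteriorAlgebra K H) (hω : ω ∈ ⋀[K]^(2 * j) H)
    (hFω : ExteriorAlgebra.map (F ^ m) ω = (q : K) ^ (m * j) • ω) :
    ω ∈ Algebra.adjoin K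
      {η : ExteriorAlgebra K H | η ∈ ⋀[K]^2 H ∧ ExteriorAlgebra.map F η = (q : K) • η} :=
  tate_two_pairs hr hr2 hP hW hL w hw t ht ht2 h1 h2 hα hCM F hF m hm j ω hω hFω

end Pool.Agent.Results.MP_021685_ag.RankTwo
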