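import Mathlib
import Pool.Agent.Lib.MP_021685_ag.Main

/-!
# Dimension a power of two
-/

set_option autoImplicit false

open Polynomial

open scoped TensorProduct

namespace Pool.Agent.Lib.MP_021685_ag

theorem parity_slope (s : ℚ) (h4 : ¬ 4 ∣ s.den) :
    ¬ 2 ∣ (2 * s - 1).den ∧ (Odd s.den ↔ Odd (2 * s - 1).num) := by
  set e := 2 * s - 1 with he
  have hs := Rat.num_div_den s
  have he' := Rat.num_div_den e
  have hsd : (s.den : ℚ) ≠ 0 := by exact_mod_cast s.den_nz
  have hed : (e.den : ℚ) ≠ 0 := by exact_mod_cast e.den_nz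
  have h1 : (e.num : ℚ) * s.den = (2 * s.num - s.den) * e.den := by
    have h2 : (s.num : ℚ) = s * s.den := by rw [Rat.mul_den_eq_num]
    have h3 : (e.num : ℚ) = e * e.den := by rw [Rat.mul_den_eq_num]
    rw [h2, h3, he]; ring
  have h2 : e.num * s.den = (2 * s.num - s.den) * e.den := by exact_mod_cast h1
  have hc1 : Nat.Coprime s.num.natAbs s.den := s.reduced
  have hc2 : Nat.Coprime e.num.natAbs e.den := e.reduced
  have hnum : ∀ t : ℚ, 2 ∣ t.den → Odd t.num := by
    intro t ht
    rw [← Int.not_even_iff_odd]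
    intro h
    have h3 : 2 ∣ t.num.natAbs := Int.natCast_dvd.1 (by exact_mod_cast h.two_dvd)
    have h4 := Nat.dvd_gcd h3 ht
    rw [t.reduced] at h4
    omega
  have hev : 2 ∣ s.den → ∃ u : ℤ, ∃ v : ℤ, Odd v ∧ (s.den : ℤ) = 2 * v ∧
      2 * s.num - s.den = 4 * u := by
    intro h
    obtain ⟨v, hv⟩ := h
    have hvodd : Odd (v : ℤ) := by
      rw [← Int.not_even_iff_odd]
      intro h5
      apply h4
      have h6 : Even v := by exact_mod_cast h5
      obtain ⟨t, ht⟩ := h6
      exact ⟨t, by omega⟩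
    have hnodd : Odd s.num := hnum s ⟨v, hv⟩
    obtain ⟨a, ha⟩ := hnodd
    obtain ⟨b, hb⟩ := hvodd
    refine ⟨a - b, v, ⟨b, hb⟩, by exact_mod_cast hv, ?_⟩
    have h7 : (s.den : ℤ) = 2 * v := by exact_mod_cast hv
    rw [h7, ha, hb]; ring
  constructor
  · intro h5
    have hnodd := hnum e h5
    by_cases hs2 : 2 ∣ s.den
    · obtain ⟨u, v, hv, h6, h7⟩ := hev hs2
      obtain ⟨c, hc⟩ := h5
      rw [h7, h6, hc] at h2
      have h8 : e.num * v = 4 * (u * c) := by
        push_cast at h2
        linarith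
      have h9 : Odd (e.num * v) := hnodd.mul hv
      rw [h8] at h9
      rw [← Int.not_even_iff_odd] at h9
      exact h9 ⟨2 * (u * c), by ring⟩
    · have h6 : Odd (s.den : ℤ) := by
        rw [← Int.not_even_iff_odd]
        intro h
        exact hs2 (by exact_mod_cast h.two_dvd)
      have h9 : Odd (e.num * s.den) := hnodd.mul h6
      rw [h2, ← Int.not_even_iff_odd] at h9
      apply h9
      obtain ⟨c, hc⟩ := h5
      exact ⟨(2 * s.num - s.den) * c, by rw [hc]; push_cast; ring⟩
  · constructor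
    · intro h5
      have h6 : Odd (s.den : ℤ) := by exact_mod_cast h5
      by_contra h7
      rw [Int.not_odd_iff_even] at h7
      obtain ⟨c, hc⟩ := h7
      have h8 : ¬ 2 ∣ e.den := by
        intro h
        have := hnum e h
        rw [hc] at this
        rw [← Int.not_even_iff_odd] at this
        exact this ⟨c, rfl⟩
      have h9 : Odd (e.den : ℤ) := by
        rw [← Int.not_even_iff_odd]
        intro h
        exact h8 (by exact_mod_cast h.two_dvd)
      have h10 : Odd ((2 * s.num - s.den) * (e.den : ℤ)) := by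
        apply Odd.mul _ h9
        obtain ⟨b, hb⟩ := h6
        exact ⟨s.num - b - 1, by rw [hb]; ring⟩
      rw [← h2, hc, ← Int.not_even_iff_odd] at h10
      exact h10 ⟨c * s.den, by ring⟩
    · intro h5
      by_contra h6
      have h7 : 2 ∣ s.den := by
        rw [Nat.not_odd_iff_even] at h6
        exact h6.two_dvd
      obtain ⟨u, v, hv, h8, h9⟩ := hev h7
      rw [h9, h8] at h2
      have h10 : e.num * v = 2 * (u * e.den) := by linarith
      have h11 : Odd (e.num * v) := h5.mul hv
      rw [h10, ← Int.not_even_iff_odd] at h11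
      exact h11 ⟨u * e.den, by ring⟩

/-- Abelian varieties of dimension `2 ^ k`. -/
theorem tate_two_power {q k : ℕ} {P : ℚ[X]} (hP : Irreducible P)
    (hdeg : P.natDegree = 2 ^ (k + 1)) (hW : ∀ z : ℂ, aeval z P = 0 → ‖z‖ ^ 2 = q)
    {L : Type*} [Field L] [CharZero L] (hL : (P.map (algebraMap ℚ L)).Splits)
    (w : AddValuation L (WithTop ℚ)) (hw : w (q : L) = 1)
    (h4 : ∀ α ∈ P.rootSet L, ¬ 4 ∣ (slope w α).den)
    (hodd : {α ∈ P.rootSet L | Odd (slope w α).den}.ncard % 4 = 2)
    {K : Type*} [Field K] [CharZero K] {H : Type*} [AddCommGroup H] [Module K H]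
    (F : Module.End K H) (hF : aeval F (P.map (algebraMap ℚ K)) = 0)
    (m : ℕ) (hm : m ≠ 0) (j : ℕ)
    (ω : ExteriorAlgebra K H) (hω : ω ∈ ⋀[K]^(2 * j) H)
    (hω2 : ExteriorAlgebra.map (F ^ m) ω = (q : K) ^ (m * j) • ω) :
    ω ∈ Algebra.adjoin K {η | η ∈ ⋀[K]^2 H ∧ ExteriorAlgebra.map F η = (q : K) • η} := by
  classical
  obtain ⟨S, hS1, hS2, hS3⟩ := exists_splittingField P
  have hS := IsSplittingField.splits S P
  let iL : S →ₐ[ℚ] L := IsSplittingField.lift S P hL
  have hinj : Function.Injective iL := iL.toRingHom.injective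
  have hiL : ∀ x : P.rootSet S, iL (x : S) ∈ P.rootSet L := by
    intro x
    rw [mem_rootSet_of_ne hP.ne_zero, aeval_algHom_apply, aeval_eq_zero_of_mem_rootSet x.2,
      map_zero]
  -- count in `S`
  have hcount : {α ∈ P.rootSet L | Odd (slope w α).den}.ncard =
      (Finset.univ.filter fun x : P.rootSet S => Odd (2 * slope w (iL (x : S)) - 1).num).card := by
    have h1 : {α ∈ P.rootSet L | Odd (slope w α).den} =
        (fun x : P.rootSet S => iL (x : S)) '' (Finset.univ.filter fun x : P.rootSet S =>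
          Odd (2 * slope w (iL (x : S)) - 1).num : Finset (P.rootSet S)) := by
      ext α
      constructor
      · rintro ⟨hα, hα2⟩
        have h2 := hα
        rw [← hS.image_rootSet iL] at h2
        obtain ⟨x, hx, rfl⟩ := h2
        refine ⟨⟨x, hx⟩, ?_, rfl⟩
        rw [Finset.coe_filter]
        exact ⟨Finset.mem_univ _, ((parity_slope _ (h4 _ hα)).2).1 hα2⟩
      · rintro ⟨x, hx, rfl⟩
        rw [Finset.coe_filter] at hx
        exact ⟨hiL x, ((parity_slope _ (h4 _ (hiL x))).2).2 hx.2⟩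
    rw [h1, Set.ncard_image_of_injective _ (fun x y hxy => Subtype.ext (hinj hxy)),
      Set.ncard_coe_finset]
  rw [hcount] at hodd
  obtain ⟨y, hy⟩ : ∃ y : P.rootSet S, Odd (2 * slope w (iL (y : S)) - 1).num := by
    by_contra hcon
    push Not at hcon
    rw [Finset.filter_false_of_mem (fun x _ => hcon x), Finset.card_empty] at hodd
    omega
  have hy0 : 2 * slope w (iL (y : S)) - 1 ≠ 0 := by
    intro h
    rw [h] at hy
    exact absurd hy (by decide)
  have hfin : FiniteDimensional ℚ S := IsSplittingField.finiteDimensional S P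
  have hfact : Fact (Nat.Prime 2) := ⟨Nat.prime_two⟩
  let Q : Sylow 2 (S ≃ₐ[ℚ] S) := default
  refine tate_prime_power (r := 2) (k := k) Nat.prime_two hP (by rw [hdeg, pow_succ, mul_comm]) hW
    iL w hw Q hy0 (fun x => (parity_slope _ (h4 _ (hiL x))).1) ?_ F hF m hm j ω hω hω2
  intro bar hbar _ he _ Φ hΦ _
  -- parity of the number of odd slopes in a half system
  have hcardΦ : (Φ.filter fun x : P.rootSet S =>
      Odd (2 * slope w (iL (x : S)) - 1).num).card % 2 = 1 := by
    have h1 := sum_univ_eq_half hbar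
      (fun x : P.rootSet S => if Odd (2 * slope w (iL (x : S)) - 1).num then 1 else 0) hΦ
    rw [← Finset.card_filter] at h1
    have h2 : ∀ x : P.rootSet S, (if Odd (2 * slope w (iL (bar x : S)) - 1).num then 1 else 0) =
        (if Odd (2 * slope w (iL (x : S)) - 1).num then 1 else 0) := by
      intro x
      rw [he x, Rat.neg_num]
      simp only [odd_neg]
    simp only [h2] at h1
    rw [Finset.sum_add_distrib, ← Finset.card_filter] at h1
    omega
  -- clear denominators
  let e : P.rootSet S → ℚ := fun x => 2 * slope w (iL (x : S)) - 1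
  let D : ℕ := ∏ x, (e x).den
  have hDodd : ¬ 2 ∣ D := by
    intro h
    obtain ⟨x, _, hx⟩ := (Prime.dvd_finsetProd_iff Nat.prime_two.prime _).1 h
    exact (parity_slope _ (h4 _ (hiL x))).1 hx
  have hE : ∀ x, ∃ n : ℤ, (n : ℚ) = D * e x ∧ (Odd n ↔ Odd (e x).num) := by
    intro x
    obtain ⟨c, hc⟩ : (e x).den ∣ D := Finset.dvd_prod_of_mem _ (Finset.mem_univ x)
    refine ⟨c * (e x).num, ?_, ?_⟩
    · rw [hc]
      push_cast
      have := Rat.den_mul_eq_num (e x)
      rw [← this]; ring
    · rw [Int.odd_mul]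
      have h3 : Odd (c : ℤ) := by
        rw [← Int.not_even_iff_odd]
        intro h5
        apply hDodd
        rw [hc]
        exact Dvd.dvd.mul_left (by exact_mod_cast h5.two_dvd) _
      tauto
  choose E hE1 hE2 using hE
  set s : ℚ := ∑ x ∈ Φ, (2 * slope w (iL (x : S)) - 1) with hs
  have h13 : ((∑ x ∈ Φ, E x : ℤ) : ℚ) = D * s := by
    push_cast
    rw [hs, Finset.mul_sum]
    exact Finset.sum_congr rfl fun x _ => hE1 x
  have h14 : (∑ x ∈ Φ, E x) * s.den = D * s.num := by
    have : (((∑ x ∈ Φ, E x) * s.den : ℤ) : ℚ) = ((D * s.num : ℤ) : ℚ) := by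
      rw [Int.cast_mul, h13]
      push_cast
      rw [mul_assoc, Rat.mul_den_eq_num]
    exact_mod_cast this
  have h15 : Odd (∑ x ∈ Φ, E x) := by
    rw [Int.odd_iff, Finset.sum_int_mod]
    have h17 : ∀ x ∈ Φ, E x % 2 =
        if Odd (2 * slope w (iL (x : S)) - 1).num then (1 : ℤ) else 0 := by
      intro x _
      split_ifs with h
      · exact Int.odd_iff.1 ((hE2 x).2 h)
      · rw [← Int.even_iff, ← Int.not_odd_iff_even]
        exact fun h' => h ((hE2 x).1 h')
    rw [Finset.sum_congr rfl h17, Finset.sum_ite, Finset.sum_const_zero, Finset.sum_const,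
      add_zero, nsmul_eq_mul, mul_one]
    exact_mod_cast hcardΦ
  intro hdvd
  obtain ⟨c, hc⟩ := hdvd
  have hdenodd : Odd (s.den : ℤ) := by
    rw [← Int.not_even_iff_odd]
    intro h5
    have h6 : 2 ∣ s.den := by exact_mod_cast h5.two_dvd
    have h7 : 2 ∣ s.num.natAbs := Int.natCast_dvd.1 (by exact_mod_cast (⟨c, hc⟩ : (2 : ℤ) ∣ s.num))
    have h8 := Nat.dvd_gcd h7 h6
    rw [s.reduced] at h8
    omega
  have h16 := h15.mul hdenodd
  rw [h14, ← Int.not_even_iff_odd] at h16
  exact h16 ⟨D * c, by rw [hc]; push_cast; ring⟩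

end Pool.Agent.Lib.MP_021685_ag
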